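import Mathlib
import Pool.Agent.R990.Nz

/-!
# Response of differences of families of transports to the noise
-/

open MeasureTheory Matrix Filter
open scoped Matrix.Norms.Frobenius ContDiff Topology
open Pool.Agent.H906R3.YM Pool.Agent.W793.YM Pool.Agent.Y14 Pool.Agent.R990

namespace Pool.Agent.U319

set_option linter.unusedSectionVars false
set_option linter.unusedVariables false

noncomputable section

variable {N : ℕ} {E : Type*} [DecidableEq E] [Fintype E] {J : Finset E} {x : IJ J N → ℝ} {δ : ℝ}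
  {S : Finset E}

/-- the difference of two transports -/
def tf (J : Finset E) (w : IJ J N → ℝ) (A α α' B : List E) : Mat N :=
  pq J w (A ++ α) B - pq J w (A ++ α') B

lemma tf_eq (w : IJ J N → ℝ) (A α α' B : List E) :
    tf J w A α α' B = pm J w A * ((pm J w α - pm J w α') * (pm J w B)ᴴ) := by
  unfold tf pq
  rw [pm_append, pm_append]
  noncomm_ring

lemma Ind.sub {e : E} {Y Z : (IJ J N → Bool) → Mat N} (hY : Ind e Y) (hZ : Ind e Z) :
    Ind e fun s => Y s - Z s := fun s s' h => by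
  simp only
  rw [hY s s' h, hZ s s' h]

/-- one more link with noise in the outer parts -/
lemma tf_step {e : E} {A α α' B : List E} (hn : ((A ++ α) ++ B).Nodup)
    (hn' : ((A ++ α') ++ B).Nodup)
    (hu : Un J x ((A ++ α) ++ B)) (hS : e ∉ S) (he : e ∈ A ∨ e ∈ B) :
    av (fun s => ‖tf J (x + sgS (insert e S) δ s) A α α' B - tf J (x + sgS S δ s) A α α' B‖ ^ 2) ≤
      2 * N * δ ^ 2 * ((1 + 2 * N * δ ^ 2) ^ (A ++ B).length *
        av (fun s => ‖pm J (x + sgS S δ s) α - pm J (x + sgS S δ s) α'‖ ^ 2)) := by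
  have nA : A.Nodup := hn.of_append_left.of_append_left
  have nB : B.Nodup := hn.of_append_right
  have uA : Un J x A := hu.sub fun e' he' => by simp [he']
  have uB : Un J x B := hu.sub fun e' he' => by simp [he']
  have dAα : ∀ e' ∈ A, e' ∉ α := fun e' h h' =>
    (List.disjoint_of_nodup_append hn.of_append_left) h h'
  have dAα' : ∀ e' ∈ A, e' ∉ α' := fun e' h h' =>
    (List.disjoint_of_nodup_append hn'.of_append_left) h h'
  have dAB : ∀ e' ∈ A, e' ∉ B := fun e' h h' =>
    (List.disjoint_of_nodup_append hn) (List.mem_append_left _ h) h'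
  have dBα : ∀ e' ∈ B, e' ∉ α := fun e' h h' =>
    (List.disjoint_of_nodup_append hn) (List.mem_append_right _ h') h
  have dBα' : ∀ e' ∈ B, e' ∉ α' := fun e' h h' =>
    (List.disjoint_of_nodup_append hn') (List.mem_append_right _ h') h
  have hσ : (0 : ℝ) ≤ 2 * N * δ ^ 2 := by positivity
  have h1σ : (1 : ℝ) ≤ 1 + 2 * N * δ ^ 2 := by linarith
  obtain ⟨M, hM⟩ : ∃ M : (IJ J N → Bool) → Mat N, M = fun s =>
    pm J (x + sgS S δ s) α - pm J (x + sgS S δ s) α' := ⟨_, rfl⟩
  have hMn : av (fun s => ‖pm J (x + sgS S δ s) α - pm J (x + sgS S δ s) α'‖ ^ 2) =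
      av (fun s => ‖M s‖ ^ 2) := by rw [hM]
  have hM0 : 0 ≤ av (fun s => ‖M s‖ ^ 2) := av_nonneg fun s => sq_nonneg _
  have iM : ∀ e' : E, e' ∉ α → e' ∉ α' → Ind e' M := fun e' h h' => by
    rw [hM]; exact Ind.sub (ind_pmS h) (ind_pmS h')
  rw [hMn]
  rcases he with he | he
  · obtain ⟨l1, l2, rfl⟩ := List.append_of_mem he
    have e1 : e ∉ l1 := fun h => (List.disjoint_of_nodup_append nA) h List.mem_cons_self
    have e2 : e ∉ l2 := (List.nodup_cons.1 nA.of_append_right).1
    have hD : ∀ s : IJ J N → Bool, tf J (x + sgS (insert e S) δ s) (l1 ++ e :: l2) α α' B -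
        tf J (x + sgS S δ s) (l1 ++ e :: l2) α α' B =
        pm J (x + sgS S δ s) l1 * (mx J (sg δ s) e *
        (pm J (x + sgS S δ s) l2 * (M s * (pm J (x + sgS S δ s) B)ᴴ))) := by
      intro s
      rw [tf_eq, tf_eq, pm_split e1 e2 hS, pm_ins (dAα e he), pm_ins (dAα' e he),
        pm_ins (dAB e he), hM]
      noncomm_ring
    simp only [hD]
    refine (one_link nA uA (Z := fun s => M s * (pm J (x + sgS S δ s) B)ᴴ)
      fun e' he' => Ind.mul (iM e' (dAα e' he') (dAα' e' he'))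
        (Ind.ct (ind_pmS (dAB e' he')))).trans ?_
    have h2 : ∀ s : IJ J N → Bool, ‖M s * (pm J (x + sgS S δ s) B)ᴴ‖ =
        ‖pm J (x + sgS S δ s) B * (M s)ᴴ‖ := fun s => by
      rw [← norm_ct (M s * (pm J (x + sgS S δ s) B)ᴴ), conjTranspose_mul,
        conjTranspose_conjTranspose]
    simp only [h2]
    have h3 := peels (S := S) (δ := δ) nB uB (Z := fun s => (M s)ᴴ)
      fun e' he' => Ind.ct (iM e' (dBα e' he') (dBα' e' he'))
    simp only [norm_ct] at h3
    refine mul_le_mul_of_nonneg_left ?_ hσ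
    calc _ ≤ (1 + 2 * (N : ℝ) * δ ^ 2) ^ (l1.length + l2.length) *
          ((1 + 2 * N * δ ^ 2) ^ B.length * av (fun s => ‖M s‖ ^ 2)) :=
          mul_le_mul_of_nonneg_left h3 (by positivity)
      _ = (1 + 2 * (N : ℝ) * δ ^ 2) ^ (l1.length + l2.length + B.length) *
          av (fun s => ‖M s‖ ^ 2) := by
          rw [pow_add _ (l1.length + l2.length)]; ring
      _ ≤ _ := by
          refine mul_le_mul_of_nonneg_right (pow_le_pow_right₀ h1σ ?_) hM0
          simp only [List.length_append, List.length_cons]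
          omega
  · obtain ⟨l1, l2, rfl⟩ := List.append_of_mem he
    have e1 : e ∉ l1 := fun h => (List.disjoint_of_nodup_append nB) h List.mem_cons_self
    have e2 : e ∉ l2 := (List.nodup_cons.1 nB.of_append_right).1
    have heA : e ∉ A := fun h => dAB e h he
    have hD : ∀ s : IJ J N → Bool, tf J (x + sgS (insert e S) δ s) A α α' (l1 ++ e :: l2) -
        tf J (x + sgS S δ s) A α α' (l1 ++ e :: l2) = pm J (x + sgS S δ s) A *
        (pm J (x + sgS S δ s) l1 * (mx J (sg δ s) e * (pm J (x + sgS S δ s) l2 * (M s)ᴴ)))ᴴ := by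
      intro s
      rw [tf_eq, tf_eq, pm_split e1 e2 hS, pm_ins (dBα e he), pm_ins (dBα' e he),
        pm_ins heA, hM]
      simp only [conjTranspose_add, conjTranspose_mul, conjTranspose_sub,
        conjTranspose_conjTranspose]
      noncomm_ring
    simp only [hD]
    refine (peels nA uA (Z := fun s => (pm J (x + sgS S δ s) l1 * (mx J (sg δ s) e *
      (pm J (x + sgS S δ s) l2 * (M s)ᴴ)))ᴴ) fun e' he' => ?_).trans ?_
    · have h0 := dAB e' he'
      have h3 : e' ∉ l1 := fun h => h0 (by simp [h])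
      have h4 : e' ∉ l2 := fun h => h0 (by simp [h])
      have h5 : e' ≠ e := fun h => h0 (by simp [h])
      exact Ind.ct (Ind.mul (ind_pmS h3) (Ind.mul (ind_mx (Ne.symm h5))
        (Ind.mul (ind_pmS h4) (Ind.ct (iM e' (dAα e' he') (dAα' e' he'))))))
    · simp only [norm_ct]
      have h3 := one_link (S := S) (δ := δ) nB uB (Z := fun s => (M s)ᴴ)
        fun e' he' => Ind.ct (iM e' (dBα e' he') (dBα' e' he'))
      simp only [norm_ct] at h3
      calc _ ≤ (1 + 2 * (N : ℝ) * δ ^ 2) ^ A.length * (2 * N * δ ^ 2 *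
            ((1 + 2 * N * δ ^ 2) ^ (l1.length + l2.length) * av (fun s => ‖M s‖ ^ 2))) :=
            mul_le_mul_of_nonneg_left h3 (by positivity)
        _ = 2 * N * δ ^ 2 * ((1 + 2 * (N : ℝ) * δ ^ 2) ^ (A.length + (l1.length + l2.length)) *
            av (fun s => ‖M s‖ ^ 2)) := by rw [pow_add _ A.length]; ring
        _ ≤ _ := by
            refine mul_le_mul_of_nonneg_left (mul_le_mul_of_nonneg_right
              (pow_le_pow_right₀ h1σ ?_) hM0) hσ
            simp only [List.length_append, List.length_cons]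
            omega

/-- the response of one transport -/
lemma one_resp2 {l : List E} (hn : l.Nodup) (hu : Un J x l) {ℓ : ℕ} (hℓ : l.length ≤ ℓ)
    (hδ : 2 * N * δ ^ 2 * ℓ ≤ 1) :
    av (fun s => ‖pm J (x + sgS S δ s) l - pm J x l‖ ^ 2) ≤
      2 * N * δ ^ 2 * (3 * N) * ℓ := by
  classical
  have hσ : (0 : ℝ) ≤ 2 * N * δ ^ 2 := by positivity
  have h1 := fam_aux (x := x) (δ := δ) (ι := Unit) (O := Finset.univ) (A := fun _ => l)
    (B := fun _ => []) (fun _ _ => by rw [List.append_nil]; exact hn)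
    (fun _ _ => by rw [List.append_nil]; exact hu) (ℓ := ℓ)
    (fun _ _ => by rw [List.append_nil]; exact hℓ) S
  have e0 : ∀ s : IJ J N → Bool, sgS (∅ : Finset E) δ s = 0 := fun s => by
    funext i; unfold sgS; simp
  have e1 : ∀ w : IJ J N → ℝ, pq J w l [] = pm J w l := fun w => by
    unfold pq
    rw [pm_nil, conjTranspose_one, mul_one]
  simp only [e0, e1, add_zero, Finset.univ_unique, Finset.sum_singleton, List.append_nil] at h1
  refine h1.trans ?_
  have h2 : ∑ e ∈ S, (nm ({PUnit.unit} : Finset Unit) (fun _ => l) e : ℝ) ^ 2 ≤ ℓ := by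
    have h3 : ∀ e ∈ S, (nm ({PUnit.unit} : Finset Unit) (fun _ => l) e : ℝ) ^ 2 =
        if e ∈ l then 1 else 0 := by
      intro e _
      unfold nm
      by_cases h : e ∈ l
      · simp [h]
      · simp [h]
    rw [Finset.sum_congr rfl h3, ← Finset.sum_filter, Finset.sum_const, nsmul_eq_mul, mul_one]
    have h4 : (S.filter fun e => e ∈ l) ⊆ l.toFinset := fun e he => by
      rw [List.mem_toFinset]; exact (Finset.mem_filter.1 he).2
    have h5 := (Finset.card_le_card h4).trans ((List.toFinset_card_le l).trans hℓ)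
    exact_mod_cast h5
  have h4 := pow_le_three hσ le_rfl hδ
  have hN0 : (0 : ℝ) ≤ N := Nat.cast_nonneg _
  have h5 : 0 ≤ ∑ e ∈ S, (nm ({PUnit.unit} : Finset Unit) (fun _ => l) e : ℝ) ^ 2 :=
    Finset.sum_nonneg fun e _ => sq_nonneg _
  exact mul_le_mul (mul_le_mul_of_nonneg_left (mul_le_mul_of_nonneg_right h4 hN0) hσ) h2 h5
    (by positivity)

lemma three_sq (a b c : Mat N) : ‖a + b + c‖ ^ 2 ≤ 3 * ‖a‖ ^ 2 + 3 * ‖b‖ ^ 2 + 3 * ‖c‖ ^ 2 := by
  have h1 : ‖a + b + c‖ ≤ ‖a‖ + ‖b‖ + ‖c‖ :=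
    (norm_add_le _ _).trans (add_le_add (norm_add_le _ _) le_rfl)
  have h2 := pow_le_pow_left₀ (norm_nonneg _) h1 2
  nlinarith [sq_nonneg (‖a‖ - ‖b‖), sq_nonneg (‖b‖ - ‖c‖), sq_nonneg (‖a‖ - ‖c‖)]

/-- the difference with noise -/
lemma dif_S {α α' : List E} (hn : α.Nodup) (hn' : α'.Nodup) (hu : Un J x α) (hu' : Un J x α')
    {ℓ : ℕ} (hℓ : α.length ≤ ℓ) (hℓ' : α'.length ≤ ℓ) (hδ : 2 * N * δ ^ 2 * ℓ ≤ 1) :
    av (fun s => ‖pm J (x + sgS S δ s) α - pm J (x + sgS S δ s) α'‖ ^ 2) ≤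
      3 * ‖pm J x α - pm J x α'‖ ^ 2 + 18 * (2 * N * δ ^ 2 * N * ℓ) := by
  have h1 : ∀ s : IJ J N → Bool, ‖pm J (x + sgS S δ s) α - pm J (x + sgS S δ s) α'‖ ^ 2 ≤
      3 * ‖pm J x α - pm J x α'‖ ^ 2 + 3 * ‖pm J (x + sgS S δ s) α - pm J x α‖ ^ 2 +
        3 * ‖pm J (x + sgS S δ s) α' - pm J x α'‖ ^ 2 := by
    intro s
    have e1 : pm J (x + sgS S δ s) α - pm J (x + sgS S δ s) α' =
        (pm J x α - pm J x α') + (pm J (x + sgS S δ s) α - pm J x α) +
          -(pm J (x + sgS S δ s) α' - pm J x α') := by abel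
    rw [e1]
    have h2 := three_sq (pm J x α - pm J x α') (pm J (x + sgS S δ s) α - pm J x α)
      (-(pm J (x + sgS S δ s) α' - pm J x α'))
    rwa [norm_neg] at h2
  refine (av_mono h1).trans ?_
  rw [av_add, av_add, av_const, av_smul, av_smul]
  have h2 := one_resp2 (x := x) (δ := δ) (S := S) hn hu hℓ hδ
  have h3 := one_resp2 (x := x) (δ := δ) (S := S) hn' hu' hℓ' hδ
  linarith

/-- the flip of the increments -/
lemma tf_flip {e : E} {A α α' B : List E} (hn : ((A ++ α) ++ B).Nodup)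
    (hn' : ((A ++ α') ++ B).Nodup)
    (hu : Un J x ((A ++ α) ++ B)) (hu' : Un J x ((A ++ α') ++ B)) (hS : e ∉ S)
    (s : IJ J N → Bool) :
    tf J (x + sgS (insert e S) δ (fl (fun i : IJ J N => i.1.1 = e) s)) A α α' B -
        tf J (x + sgS S δ (fl (fun i : IJ J N => i.1.1 = e) s)) A α α' B =
      -(tf J (x + sgS (insert e S) δ s) A α α' B - tf J (x + sgS S δ s) A α α' B) := by
  have key : ∀ {A B : List E}, (A ++ B).Nodup → Un J x (A ++ B) →
      pq J (x + sgS (insert e S) δ (fl (fun i : IJ J N => i.1.1 = e) s)) A B -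
        pq J (x + sgS S δ (fl (fun i : IJ J N => i.1.1 = e) s)) A B =
      -(pq J (x + sgS (insert e S) δ s) A B - pq J (x + sgS S δ s) A B) := by
    intro A B hn hu
    by_cases he : e ∈ A ++ B
    · exact (pair_step hn hu hS he).1 s
    · rw [pq_same he, pq_same he]; simp
  have k1 := key hn hu
  have k2 := key hn' hu'
  unfold tf
  have e1 : ∀ a b c d : Mat N, a - b - (c - d) = (a - c) - (b - d) := fun a b c d => by abel
  rw [e1, k1, k2, e1 (pq J (x + sgS (insert e S) δ s) (A ++ α) B)]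
  abel

/-- **the variance of a family of functionals of the noise** -/
theorem mart {κ ι : Type*} [Fintype κ] {O : Finset ι} {F : ι → (IJ J N → ℝ) → Mat N}
    {p : κ → ι → List E} {h : κ → ι → (IJ J N → ℝ) → Mat N} {b : κ → ι → ℝ}
    (hF : ∀ o ∈ O, ∀ (S : Finset E) (e : E), e ∉ S → ∀ s : IJ J N → Bool,
      F o (x + sgS (insert e S) δ s) - F o (x + sgS S δ s) =
        ∑ k, if e ∈ p k o then h k o (x + sgS (insert e S) δ s) - h k o (x + sgS S δ s) else 0)
    (hfl : ∀ o ∈ O, ∀ (S : Finset E) (e : E), e ∉ S → ∀ s : IJ J N → Bool,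
      F o (x + sgS (insert e S) δ (fl (fun i : IJ J N => i.1.1 = e) s)) -
        F o (x + sgS S δ (fl (fun i : IJ J N => i.1.1 = e) s)) =
      -(F o (x + sgS (insert e S) δ s) - F o (x + sgS S δ s)))
    (hb : ∀ k, ∀ o ∈ O, ∀ (S : Finset E) (e : E), e ∉ S → e ∈ p k o →
      av (fun s => ‖h k o (x + sgS (insert e S) δ s) - h k o (x + sgS S δ s)‖ ^ 2) ≤ b k o)
    (S : Finset E) :
    av (fun s => ‖∑ o ∈ O, F o (x + sgS S δ s) - ∑ o ∈ O, F o x‖ ^ 2) ≤
      ∑ e ∈ S, (Fintype.card κ : ℝ) * ∑ k, (nm O (p k) e : ℝ) *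
        ∑ o ∈ O.filter (fun o => e ∈ p k o), b k o := by
  classical
  have h0 : ∀ s : IJ J N → Bool, sgS (∅ : Finset E) δ s = 0 := fun s => by
    funext i; unfold sgS; simp
  induction S using Finset.induction_on with
  | empty => simp [h0, av_const]
  | insert e S he ih =>
    obtain ⟨X, hX⟩ : ∃ X : (IJ J N → Bool) → Mat N, X = fun s =>
      ∑ o ∈ O, F o (x + sgS S δ s) - ∑ o ∈ O, F o x := ⟨_, rfl⟩
    obtain ⟨D, hD⟩ : ∃ D : (IJ J N → Bool) → Mat N, D = fun s =>
      ∑ o ∈ O, (F o (x + sgS (insert e S) δ s) - F o (x + sgS S δ s)) := ⟨_, rfl⟩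
    have hXD : ∀ s, ∑ o ∈ O, F o (x + sgS (insert e S) δ s) - ∑ o ∈ O, F o x = X s + D s := by
      intro s
      rw [hX, hD]
      simp only [Finset.sum_sub_distrib]
      abel
    have hXf : ∀ s, X (fl (fun i : IJ J N => i.1.1 = e) s) = X s := by
      intro s
      rw [hX]
      simp only [sgS_fl he]
    have hDf : ∀ s, D (fl (fun i : IJ J N => i.1.1 = e) s) = -D s := by
      intro s
      rw [hD]
      simp only
      rw [← Finset.sum_neg_distrib]
      exact Finset.sum_congr rfl fun o ho => hfl o ho S e he s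
    have hcross : av (fun s => 2 * ip (X s) (D s)) = 0 := by
      refine av_odd (S := fun i : IJ J N => i.1.1 = e) fun s => ?_
      rw [hXf, hDf, map_neg]
      ring
    have hDn : av (fun s => ‖D s‖ ^ 2) ≤ (Fintype.card κ : ℝ) * ∑ k, (nm O (p k) e : ℝ) *
        ∑ o ∈ O.filter (fun o => e ∈ p k o), b k o := by
      have h1 : ∀ s, ‖D s‖ ^ 2 ≤ ∑ k : κ, ∑ o ∈ O.filter (fun o => e ∈ p k o),
          ((Fintype.card κ : ℝ) * (nm O (p k) e : ℝ)) *
            ‖h k o (x + sgS (insert e S) δ s) - h k o (x + sgS S δ s)‖ ^ 2 := by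
        intro s
        have e1 : D s = ∑ k : κ, ∑ o ∈ O.filter (fun o => e ∈ p k o),
            (h k o (x + sgS (insert e S) δ s) - h k o (x + sgS S δ s)) := by
          rw [hD]
          simp only
          rw [Finset.sum_congr rfl fun o ho => hF o ho S e he s, Finset.sum_comm]
          exact Finset.sum_congr rfl fun k _ => (Finset.sum_filter _ _).symm
        rw [e1]
        refine (nsq_sum_le _ _).trans ?_
        rw [Finset.card_univ, Finset.mul_sum]
        refine Finset.sum_le_sum fun k _ => ?_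
        have h2 := nsq_sum_le (O.filter (fun o => e ∈ p k o)) fun o =>
          h k o (x + sgS (insert e S) δ s) - h k o (x + sgS S δ s)
        rw [← Finset.mul_sum, mul_assoc]
        exact mul_le_mul_of_nonneg_left h2 (Nat.cast_nonneg _)
      refine (av_mono h1).trans ?_
      rw [av_sum, Finset.mul_sum]
      refine Finset.sum_le_sum fun k _ => ?_
      rw [av_sum, Finset.mul_sum, Finset.mul_sum]
      refine Finset.sum_le_sum fun o ho => ?_
      rw [Finset.mem_filter] at ho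
      rw [av_smul, mul_assoc]
      exact mul_le_mul_of_nonneg_left (mul_le_mul_of_nonneg_left (hb k o ho.1 S e he ho.2)
        (Nat.cast_nonneg _)) (Nat.cast_nonneg _)
    simp only [hXD, nsq_add]
    rw [av_add, av_add, hcross, add_zero, Finset.sum_insert he]
    have h3 : av (fun s => ‖X s‖ ^ 2) ≤ ∑ e ∈ S, (Fintype.card κ : ℝ) * ∑ k,
        (nm O (p k) e : ℝ) * ∑ o ∈ O.filter (fun o => e ∈ p k o), b k o := by
      rw [hX]
      exact ih
    linarith

/-- the sum over the links -/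
lemma sum_links {κ ι : Type*} [Fintype κ] {O : Finset ι} {p : κ → ι → List E}
    {b : κ → ι → ℝ} (hb : ∀ k o, 0 ≤ b k o) {K : κ → ℝ}
    (hK : ∀ k, ∀ o ∈ O, ∑ e ∈ (p k o).toFinset, (nm O (p k) e : ℝ) ≤ K k) :
    ∑ e : E, (Fintype.card κ : ℝ) * ∑ k, (nm O (p k) e : ℝ) *
        ∑ o ∈ O.filter (fun o => e ∈ p k o), b k o ≤
      (Fintype.card κ : ℝ) * ∑ k, K k * ∑ o ∈ O, b k o := by
  classical
  rw [← Finset.mul_sum, Finset.sum_comm]
  refine mul_le_mul_of_nonneg_left (Finset.sum_le_sum fun k _ => ?_) (Nat.cast_nonneg _)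
  have h1 : ∀ e : E, (nm O (p k) e : ℝ) * ∑ o ∈ O.filter (fun o => e ∈ p k o), b k o =
      ∑ o ∈ O, b k o * (if e ∈ p k o then (nm O (p k) e : ℝ) else 0) := by
    intro e
    rw [Finset.mul_sum, Finset.sum_filter]
    refine Finset.sum_congr rfl fun o _ => ?_
    split_ifs
    · ring
    · simp
  simp only [h1]
  rw [Finset.sum_comm, Finset.mul_sum]
  refine Finset.sum_le_sum fun o ho => ?_
  rw [← Finset.mul_sum, mul_comm (K k)]
  refine mul_le_mul_of_nonneg_left ?_ (hb k o)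
  refine le_trans (le_of_eq ?_) (hK k o ho)
  rw [← Finset.sum_filter]
  refine Finset.sum_congr ?_ fun _ _ => rfl
  ext e
  simp

end

end Pool.Agent.U319
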