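import Mathlib
import Pool.Agent.U319.Nzf

/-!
# Response of differences of families of transports to the noise: eight parts
-/

open MeasureTheory Matrix Filter
open scoped Matrix.Norms.Frobenius ContDiff Topology
open Pool.Agent.H906R3.YM Pool.Agent.W793.YM Pool.Agent.Y14 Pool.Agent.R990

namespace Pool.Agent.U319

set_option linter.unusedSectionVars false
set_option linter.unusedVariables false

noncomputable section

/-- eight values -/
def p8 {α : Type*} (a0 a1 a2 a3 a4 a5 a6 a7 : α) : Fin 8 → α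
  | 0 => a0
  | 1 => a1
  | 2 => a2
  | 3 => a3
  | 4 => a4
  | 5 => a5
  | 6 => a6
  | 7 => a7

section p8

variable {α : Type*} {a0 a1 a2 a3 a4 a5 a6 a7 : α}

lemma p8_0 : p8 a0 a1 a2 a3 a4 a5 a6 a7 0 = a0 := rfl
lemma p8_1 : p8 a0 a1 a2 a3 a4 a5 a6 a7 1 = a1 := rfl
lemma p8_2 : p8 a0 a1 a2 a3 a4 a5 a6 a7 2 = a2 := rfl
lemma p8_3 : p8 a0 a1 a2 a3 a4 a5 a6 a7 3 = a3 := rfl
lemma p8_4 : p8 a0 a1 a2 a3 a4 a5 a6 a7 4 = a4 := rfl
lemma p8_5 : p8 a0 a1 a2 a3 a4 a5 a6 a7 5 = a5 := rfl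
lemma p8_6 : p8 a0 a1 a2 a3 a4 a5 a6 a7 6 = a6 := rfl
lemma p8_7 : p8 a0 a1 a2 a3 a4 a5 a6 a7 7 = a7 := rfl

lemma all8 {P : Fin 8 → Prop} (h0 : P 0) (h1 : P 1) (h2 : P 2) (h3 : P 3) (h4 : P 4) (h5 : P 5)
    (h6 : P 6) (h7 : P 7) (k : Fin 8) : P k := by
  fin_cases k
  · exact h0
  · exact h1
  · exact h2
  · exact h3
  · exact h4
  · exact h5
  · exact h6
  · exact h7

end p8

variable {N : ℕ} {E : Type*} [DecidableEq E] [Fintype E] {J : Finset E} {x : IJ J N → ℝ} {δ : ℝ}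
  {S : Finset E}

/-- the decomposition of one increment -/
lemma tf_dec {A1 A2 R V V' R' B1 B2 : List E}
    (hP : (((A1 ++ A2) ++ (R ++ V)) ++ (B1 ++ B2)).Nodup)
    (hP' : (((A1 ++ A2) ++ (V' ++ R')) ++ (B1 ++ B2)).Nodup) (e : E) (s : IJ J N → Bool) :
    tf J (x + sgS (insert e S) δ s) (A1 ++ A2) (R ++ V) (V' ++ R') (B1 ++ B2) -
      tf J (x + sgS S δ s) (A1 ++ A2) (R ++ V) (V' ++ R') (B1 ++ B2) =
    (if e ∈ A1 then tf J (x + sgS (insert e S) δ s) (A1 ++ A2) (R ++ V) (V' ++ R') (B1 ++ B2) -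
      tf J (x + sgS S δ s) (A1 ++ A2) (R ++ V) (V' ++ R') (B1 ++ B2) else 0) +
    (if e ∈ A2 then tf J (x + sgS (insert e S) δ s) (A1 ++ A2) (R ++ V) (V' ++ R') (B1 ++ B2) -
      tf J (x + sgS S δ s) (A1 ++ A2) (R ++ V) (V' ++ R') (B1 ++ B2) else 0) +
    (if e ∈ B1 then tf J (x + sgS (insert e S) δ s) (A1 ++ A2) (R ++ V) (V' ++ R') (B1 ++ B2) -
      tf J (x + sgS S δ s) (A1 ++ A2) (R ++ V) (V' ++ R') (B1 ++ B2) else 0) +
    (if e ∈ B2 then tf J (x + sgS (insert e S) δ s) (A1 ++ A2) (R ++ V) (V' ++ R') (B1 ++ B2) -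
      tf J (x + sgS S δ s) (A1 ++ A2) (R ++ V) (V' ++ R') (B1 ++ B2) else 0) +
    (if e ∈ R then pq J (x + sgS (insert e S) δ s) ((A1 ++ A2) ++ (R ++ V)) (B1 ++ B2) -
      pq J (x + sgS S δ s) ((A1 ++ A2) ++ (R ++ V)) (B1 ++ B2) else 0) +
    (if e ∈ V then pq J (x + sgS (insert e S) δ s) ((A1 ++ A2) ++ (R ++ V)) (B1 ++ B2) -
      pq J (x + sgS S δ s) ((A1 ++ A2) ++ (R ++ V)) (B1 ++ B2) else 0) +
    (if e ∈ V' then -pq J (x + sgS (insert e S) δ s) ((A1 ++ A2) ++ (V' ++ R')) (B1 ++ B2) -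
      -pq J (x + sgS S δ s) ((A1 ++ A2) ++ (V' ++ R')) (B1 ++ B2) else 0) +
    (if e ∈ R' then -pq J (x + sgS (insert e S) δ s) ((A1 ++ A2) ++ (V' ++ R')) (B1 ++ B2) -
      -pq J (x + sgS S δ s) ((A1 ++ A2) ++ (V' ++ R')) (B1 ++ B2) else 0) := by
  have d1 : ∀ f, f ∈ A1 ++ A2 → f ∉ R ++ V := fun f h h' =>
    (List.disjoint_of_nodup_append hP.of_append_left) h h'
  have d1' : ∀ f, f ∈ A1 ++ A2 → f ∉ V' ++ R' := fun f h h' =>
    (List.disjoint_of_nodup_append hP'.of_append_left) h h'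
  have d2 : ∀ f, f ∈ (A1 ++ A2) ++ (R ++ V) → f ∉ B1 ++ B2 := fun f h h' =>
    (List.disjoint_of_nodup_append hP) h h'
  have d2' : ∀ f, f ∈ (A1 ++ A2) ++ (V' ++ R') → f ∉ B1 ++ B2 := fun f h h' =>
    (List.disjoint_of_nodup_append hP') h h'
  have d3 : ∀ f, f ∈ A1 → f ∉ A2 := fun f h h' =>
    (List.disjoint_of_nodup_append hP.of_append_left.of_append_left) h h'
  have d4 : ∀ f, f ∈ B1 → f ∉ B2 := fun f h h' =>
    (List.disjoint_of_nodup_append hP.of_append_right) h h'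
  have d5 : ∀ f, f ∈ R → f ∉ V := fun f h h' =>
    (List.disjoint_of_nodup_append hP.of_append_left.of_append_right) h h'
  have d6 : ∀ f, f ∈ V' → f ∉ R' := fun f h h' =>
    (List.disjoint_of_nodup_append hP'.of_append_left.of_append_right) h h'
  simp only [List.mem_append, not_or] at d1 d1' d2 d2'
  by_cases hA : e ∈ A1 ∨ e ∈ A2
  · have g1 := d1 e hA
    have g1' := d1' e hA
    have g2 := d2 e (Or.inl hA)
    rw [if_neg g2.1, if_neg g2.2, if_neg g1.1, if_neg g1.2, if_neg g1'.1, if_neg g1'.2]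
    by_cases h1 : e ∈ A1
    · rw [if_pos h1, if_neg (d3 e h1)]
      simp only [add_zero]
    · have h2 : e ∈ A2 := hA.resolve_left h1
      rw [if_neg h1, if_pos h2]
      simp only [add_zero, zero_add]
  · rw [not_or] at hA
    rw [if_neg hA.1, if_neg hA.2]
    by_cases hB : e ∈ B1 ∨ e ∈ B2
    · have g1 : e ∉ R := fun h => by
        have := d2 e (Or.inr (Or.inl h)); tauto
      have g2 : e ∉ V := fun h => by
        have := d2 e (Or.inr (Or.inr h)); tauto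
      have g3 : e ∉ V' := fun h => by
        have := d2' e (Or.inr (Or.inl h)); tauto
      have g4 : e ∉ R' := fun h => by
        have := d2' e (Or.inr (Or.inr h)); tauto
      rw [if_neg g1, if_neg g2, if_neg g3, if_neg g4]
      by_cases h1 : e ∈ B1
      · rw [if_pos h1, if_neg (d4 e h1)]
        simp only [add_zero, zero_add]
      · have h2 : e ∈ B2 := hB.resolve_left h1
        rw [if_neg h1, if_pos h2]
        simp only [add_zero, zero_add]
    · rw [not_or] at hB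
      rw [if_neg hB.1, if_neg hB.2]
      have k1 : pq J (x + sgS (insert e S) δ s) ((A1 ++ A2) ++ (R ++ V)) (B1 ++ B2) -
          pq J (x + sgS S δ s) ((A1 ++ A2) ++ (R ++ V)) (B1 ++ B2) =
          (if e ∈ R then pq J (x + sgS (insert e S) δ s) ((A1 ++ A2) ++ (R ++ V)) (B1 ++ B2) -
            pq J (x + sgS S δ s) ((A1 ++ A2) ++ (R ++ V)) (B1 ++ B2) else 0) +
          (if e ∈ V then pq J (x + sgS (insert e S) δ s) ((A1 ++ A2) ++ (R ++ V)) (B1 ++ B2) -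
            pq J (x + sgS S δ s) ((A1 ++ A2) ++ (R ++ V)) (B1 ++ B2) else 0) := by
        by_cases h1 : e ∈ R
        · rw [if_pos h1, if_neg (d5 e h1), add_zero]
        · by_cases h2 : e ∈ V
          · rw [if_neg h1, if_pos h2, zero_add]
          · rw [if_neg h1, if_neg h2, pq_same (by
              simp only [List.mem_append, not_or]
              exact ⟨⟨hA, h1, h2⟩, hB⟩)]
            simp
      have k2 : -pq J (x + sgS (insert e S) δ s) ((A1 ++ A2) ++ (V' ++ R')) (B1 ++ B2) -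
          -pq J (x + sgS S δ s) ((A1 ++ A2) ++ (V' ++ R')) (B1 ++ B2) =
          (if e ∈ V' then -pq J (x + sgS (insert e S) δ s) ((A1 ++ A2) ++ (V' ++ R')) (B1 ++ B2) -
            -pq J (x + sgS S δ s) ((A1 ++ A2) ++ (V' ++ R')) (B1 ++ B2) else 0) +
          (if e ∈ R' then -pq J (x + sgS (insert e S) δ s) ((A1 ++ A2) ++ (V' ++ R')) (B1 ++ B2) -
            -pq J (x + sgS S δ s) ((A1 ++ A2) ++ (V' ++ R')) (B1 ++ B2) else 0) := by
        by_cases h1 : e ∈ V'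
        · rw [if_pos h1, if_neg (d6 e h1), add_zero]
        · by_cases h2 : e ∈ R'
          · rw [if_neg h1, if_pos h2, zero_add]
          · rw [if_neg h1, if_neg h2, pq_same (by
              simp only [List.mem_append, not_or]
              exact ⟨⟨hA, h1, h2⟩, hB⟩)]
            simp
      have e1 : ∀ a b c d : Mat N, (a - b) - (c - d) = (a - c) + (-b - -d) := fun a b c d => by
        abel
      simp only [add_zero, zero_add]
      unfold tf
      refine (e1 _ _ _ _).trans ?_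
      refine (congrArg₂ (· + ·) k1 k2).trans ?_
      abel

/-- **response of a family of differences** -/
theorem fam8 {ι : Type*} [Fintype ι] {A1 A2 R V V' R' B1 B2 : ι → List E}
    (hP : ∀ o, (((A1 o ++ A2 o) ++ (R o ++ V o)) ++ (B1 o ++ B2 o)).Nodup)
    (hP' : ∀ o, (((A1 o ++ A2 o) ++ (V' o ++ R' o)) ++ (B1 o ++ B2 o)).Nodup)
    (hu : ∀ o, Un J x (((A1 o ++ A2 o) ++ (R o ++ V o)) ++ (B1 o ++ B2 o)))
    (hu' : ∀ o, Un J x (((A1 o ++ A2 o) ++ (V' o ++ R' o)) ++ (B1 o ++ B2 o))) {ℓ : ℕ}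
    (hL : ∀ o, (((A1 o ++ A2 o) ++ (R o ++ V o)) ++ (B1 o ++ B2 o)).length ≤ ℓ)
    (hL' : ∀ o, (((A1 o ++ A2 o) ++ (V' o ++ R' o)) ++ (B1 o ++ B2 o)).length ≤ ℓ)
    (hδ : 2 * N * δ ^ 2 * ℓ ≤ 1) {K1 K2 : ℝ}
    (kA1 : ∀ o, ∑ e ∈ (A1 o).toFinset, (nm Finset.univ A1 e : ℝ) ≤ K1)
    (kA2 : ∀ o, ∑ e ∈ (A2 o).toFinset, (nm Finset.univ A2 e : ℝ) ≤ K1)
    (kB1 : ∀ o, ∑ e ∈ (B1 o).toFinset, (nm Finset.univ B1 e : ℝ) ≤ K1)
    (kB2 : ∀ o, ∑ e ∈ (B2 o).toFinset, (nm Finset.univ B2 e : ℝ) ≤ K1)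
    (kR : ∀ o, ∑ e ∈ (R o).toFinset, (nm Finset.univ R e : ℝ) ≤ K2)
    (kV : ∀ o, ∑ e ∈ (V o).toFinset, (nm Finset.univ V e : ℝ) ≤ K2)
    (kV' : ∀ o, ∑ e ∈ (V' o).toFinset, (nm Finset.univ V' e : ℝ) ≤ K2)
    (kR' : ∀ o, ∑ e ∈ (R' o).toFinset, (nm Finset.univ R' e : ℝ) ≤ K2) :
    av (fun s => ‖∑ o, tf J (x + sg δ s) (A1 o ++ A2 o) (R o ++ V o) (V' o ++ R' o)
        (B1 o ++ B2 o) -
      ∑ o, tf J x (A1 o ++ A2 o) (R o ++ V o) (V' o ++ R' o) (B1 o ++ B2 o)‖ ^ 2) ≤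
      288 * K1 * (2 * N * δ ^ 2) * ∑ o, ‖pm J x (R o ++ V o) - pm J x (V' o ++ R' o)‖ ^ 2 +
        1728 * K1 * (2 * N * δ ^ 2) ^ 2 * N * ℓ * Fintype.card ι +
        96 * K2 * (2 * N * δ ^ 2) * N * Fintype.card ι := by
  classical
  obtain ⟨σ, hσ⟩ : ∃ σ : ℝ, σ = 2 * N * δ ^ 2 := ⟨_, rfl⟩
  have hσ0 : 0 ≤ σ := by rw [hσ]; positivity
  have hN0 : (0 : ℝ) ≤ N := Nat.cast_nonneg _
  obtain ⟨b1, hb1⟩ : ∃ b1 : ι → ℝ, b1 = fun o =>
    9 * σ * ‖pm J x (R o ++ V o) - pm J x (V' o ++ R' o)‖ ^ 2 + 54 * σ ^ 2 * N * ℓ := ⟨_, rfl⟩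
  obtain ⟨b2, hb2⟩ : ∃ b2 : ι → ℝ, b2 = fun _ => 3 * σ * N := ⟨_, rfl⟩
  have hb10 : ∀ o, 0 ≤ b1 o := fun o => by rw [hb1]; simp only; positivity
  have hb20 : ∀ o, 0 ≤ b2 o := fun o => by rw [hb2]; simp only; positivity
  obtain ⟨F, hF⟩ : ∃ F : ι → (IJ J N → ℝ) → Mat N, F = fun o w =>
    tf J w (A1 o ++ A2 o) (R o ++ V o) (V' o ++ R' o) (B1 o ++ B2 o) := ⟨_, rfl⟩
  obtain ⟨g, hg⟩ : ∃ g : ι → (IJ J N → ℝ) → Mat N, g = fun o w =>
    pq J w ((A1 o ++ A2 o) ++ (R o ++ V o)) (B1 o ++ B2 o) := ⟨_, rfl⟩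
  obtain ⟨g', hg'⟩ : ∃ g' : ι → (IJ J N → ℝ) → Mat N, g' = fun o w =>
    -pq J w ((A1 o ++ A2 o) ++ (V' o ++ R' o)) (B1 o ++ B2 o) := ⟨_, rfl⟩
  -- the bounds of the increments
  have bT : ∀ o, ∀ (S : Finset E) (e : E), e ∉ S → (e ∈ A1 o ++ A2 o ∨ e ∈ B1 o ++ B2 o) →
      av (fun s => ‖F o (x + sgS (insert e S) δ s) - F o (x + sgS S δ s)‖ ^ 2) ≤ b1 o := by
    intro o S e heS he
    rw [hF]
    simp only
    refine (tf_step (hP o) (hP' o) (hu o) heS he).trans ?_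
    have l1 : ((A1 o ++ A2 o) ++ (B1 o ++ B2 o)).length ≤ ℓ := by
      have := hL o
      simp only [List.length_append] at this ⊢
      omega
    have l2 : (R o ++ V o).length ≤ ℓ := by
      have := hL o
      simp only [List.length_append] at this ⊢
      omega
    have l3 : (V' o ++ R' o).length ≤ ℓ := by
      have := hL' o
      simp only [List.length_append] at this ⊢
      omega
    have h1 := dif_S (x := x) (δ := δ) (S := S) (hP o).of_append_left.of_append_right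
      (hP' o).of_append_left.of_append_right
      ((hu o).sub fun e' he' => by
        simp only [List.mem_append] at he' ⊢
        tauto)
      ((hu' o).sub fun e' he' => by
        simp only [List.mem_append] at he' ⊢
        tauto) l2 l3 hδ
    have h2 := pow_le_three (by rw [← hσ]; exact hσ0 : (0 : ℝ) ≤ 2 * N * δ ^ 2) l1 hδ
    rw [← hσ] at h1 h2 ⊢
    have h3 : 0 ≤ av (fun s => ‖pm J (x + sgS S δ s) (R o ++ V o) -
        pm J (x + sgS S δ s) (V' o ++ R' o)‖ ^ 2) := av_nonneg fun s => sq_nonneg _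
    calc _ ≤ σ * (3 * (3 * ‖pm J x (R o ++ V o) - pm J x (V' o ++ R' o)‖ ^ 2 +
          18 * (σ * N * ℓ))) := by
          refine mul_le_mul_of_nonneg_left ?_ hσ0
          exact mul_le_mul h2 h1 h3 (by norm_num)
      _ = b1 o := by rw [hb1]; ring
  have bG : ∀ o, ∀ (S : Finset E) (e : E), e ∉ S → e ∈ R o ++ V o →
      av (fun s => ‖g o (x + sgS (insert e S) δ s) - g o (x + sgS S δ s)‖ ^ 2) ≤ b2 o := by
    intro o S e heS he
    rw [hg]
    simp only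
    refine (pair_step (hP o) (hu o) heS (by
      simp only [List.mem_append] at he ⊢; tauto)).2.trans ?_
    have h2 := pow_le_three (by rw [← hσ]; exact hσ0 : (0 : ℝ) ≤ 2 * N * δ ^ 2) (hL o) hδ
    rw [← hσ] at h2 ⊢
    calc _ ≤ σ * (3 * N) := mul_le_mul_of_nonneg_left (mul_le_mul_of_nonneg_right h2 hN0) hσ0
      _ = b2 o := by rw [hb2]; ring
  have bG' : ∀ o, ∀ (S : Finset E) (e : E), e ∉ S → e ∈ V' o ++ R' o →
      av (fun s => ‖g' o (x + sgS (insert e S) δ s) - g' o (x + sgS S δ s)‖ ^ 2) ≤ b2 o := by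
    intro o S e heS he
    rw [hg']
    have hn : ∀ a b : Mat N, ‖-a - -b‖ = ‖a - b‖ := fun a b => by
      rw [← norm_neg (a - b)]; congr 1; abel
    simp only [hn]
    refine (pair_step (hP' o) (hu' o) heS (by
      simp only [List.mem_append] at he ⊢; tauto)).2.trans ?_
    have h2 := pow_le_three (by rw [← hσ]; exact hσ0 : (0 : ℝ) ≤ 2 * N * δ ^ 2) (hL' o) hδ
    rw [← hσ] at h2 ⊢
    calc _ ≤ σ * (3 * N) := mul_le_mul_of_nonneg_left (mul_le_mul_of_nonneg_right h2 hN0) hσ0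
      _ = b2 o := by rw [hb2]; ring
  have key := mart (x := x) (δ := δ) (κ := Fin 8) (O := (Finset.univ : Finset ι)) (F := F)
    (p := p8 A1 A2 B1 B2 R V V' R') (h := p8 F F F F g g g' g')
    (b := p8 b1 b1 b1 b1 b2 b2 b2 b2)
    (fun o _ S e he s => by
      rw [Fin.sum_univ_eight]
      simp only [p8_0, p8_1, p8_2, p8_3, p8_4, p8_5, p8_6, p8_7]
      rw [hF, hg, hg']
      exact tf_dec (hP o) (hP' o) e s)
    (fun o _ S e he s => by
      rw [hF]
      exact tf_flip (hP o) (hP' o) (hu o) (hu' o) he s)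
    (all8 (P := fun k => ∀ o ∈ (Finset.univ : Finset ι), ∀ (S : Finset E) (e : E), e ∉ S →
        e ∈ p8 A1 A2 B1 B2 R V V' R' k o →
        av (fun s => ‖p8 F F F F g g g' g' k o (x + sgS (insert e S) δ s) -
          p8 F F F F g g g' g' k o (x + sgS S δ s)‖ ^ 2) ≤ p8 b1 b1 b1 b1 b2 b2 b2 b2 k o)
      (fun o _ S e he h => bT o S e he (Or.inl (List.mem_append_left _ h)))
      (fun o _ S e he h => bT o S e he (Or.inl (List.mem_append_right _ h)))
      (fun o _ S e he h => bT o S e he (Or.inr (List.mem_append_left _ h)))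
      (fun o _ S e he h => bT o S e he (Or.inr (List.mem_append_right _ h)))
      (fun o _ S e he h => bG o S e he (List.mem_append_left _ h))
      (fun o _ S e he h => bG o S e he (List.mem_append_right _ h))
      (fun o _ S e he h => bG' o S e he (List.mem_append_left _ h))
      (fun o _ S e he h => bG' o S e he (List.mem_append_right _ h)))
    Finset.univ
  have e1 : ∀ s : IJ J N → Bool, sgS (Finset.univ : Finset E) δ s = sg δ s := fun s => by
    funext i; unfold sgS; simp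
  simp only [e1] at key
  have key2 := sum_links (E := E) (κ := Fin 8) (O := (Finset.univ : Finset ι))
    (p := p8 A1 A2 B1 B2 R V V' R') (b := p8 b1 b1 b1 b1 b2 b2 b2 b2)
    (K := p8 K1 K1 K1 K1 K2 K2 K2 K2)
    (all8 (P := fun k => ∀ o, 0 ≤ p8 b1 b1 b1 b1 b2 b2 b2 b2 k o) hb10 hb10 hb10 hb10 hb20 hb20
      hb20 hb20)
    (all8 (P := fun k => ∀ o ∈ (Finset.univ : Finset ι),
        ∑ e ∈ (p8 A1 A2 B1 B2 R V V' R' k o).toFinset,
          (nm Finset.univ (p8 A1 A2 B1 B2 R V V' R' k) e : ℝ) ≤ p8 K1 K1 K1 K1 K2 K2 K2 K2 k)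
      (fun o _ => kA1 o) (fun o _ => kA2 o) (fun o _ => kB1 o) (fun o _ => kB2 o)
      (fun o _ => kR o) (fun o _ => kV o) (fun o _ => kV' o) (fun o _ => kR' o))
  have key3 := key.trans key2
  rw [Fin.sum_univ_eight] at key3
  simp only [p8_0, p8_1, p8_2, p8_3, p8_4, p8_5, p8_6, p8_7] at key3
  have s1 : ∑ o, b1 o = 9 * σ * ∑ o, ‖pm J x (R o ++ V o) - pm J x (V' o ++ R' o)‖ ^ 2 +
      54 * σ ^ 2 * N * ℓ * Fintype.card ι := by
    rw [hb1]
    simp only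
    rw [Finset.sum_add_distrib, ← Finset.mul_sum, Finset.sum_const, Finset.card_univ,
      nsmul_eq_mul]
    ring
  have s2 : ∑ o, b2 o = 3 * σ * N * Fintype.card ι := by
    rw [hb2]
    simp only
    rw [Finset.sum_const, Finset.card_univ, nsmul_eq_mul]
    ring
  rw [s1, s2, hF] at key3
  rw [← hσ]
  refine key3.trans (le_of_eq ?_)
  rw [Fintype.card_fin]
  push_cast
  ring

end

end Pool.Agent.U319
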