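import Mathlib
import Pool.Agent.Y14.Par
import Pool.Agent.R990.Ind2

/-!
# Transports along different paths are close: bounds with the perimeter
-/

open MeasureTheory Matrix Filter
open scoped Matrix.Norms.Frobenius Topology
open Pool.Agent.H906R3.YM hiding Pl
open Pool.Agent.W793.YM Pool.Agent.TH618.YM Pool.Agent.Y14

namespace Pool.Agent.U319

set_option linter.unusedSectionVars false
set_option linter.unusedVariables false

noncomputable section

/-- the size of the deviations at the scale `ρ` -/
def pr (N : ℕ) (β : ℝ) (ρ : ℕ) : ℝ := 30000 * N * Real.sqrt (ρ / β)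

lemma pr_nonneg (N : ℕ) (β : ℝ) (ρ : ℕ) : 0 ≤ pr N β ρ := by unfold pr; positivity

lemma pr_mono {N : ℕ} {β : ℝ} (hβ : 0 < β) {ρ ρ' : ℕ} (h : ρ ≤ ρ') : pr N β ρ ≤ pr N β ρ' := by
  unfold pr
  refine mul_le_mul_of_nonneg_left (Real.sqrt_le_sqrt ?_) (by positivity)
  have : (ρ : ℝ) ≤ ρ' := by exact_mod_cast h
  exact div_le_div_of_nonneg_right this hβ.le

lemma pr_sq {N : ℕ} {β : ℝ} (hβ : 0 < β) (ρ : ℕ) :
    pr N β ρ ^ 2 = 900000000 * N ^ 2 * (ρ / β) := by
  unfold pr
  rw [mul_pow, Real.sq_sqrt (by positivity)]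
  ring

variable {G : Type*} [Group G] [TopologicalSpace G] [IsTopologicalGroup G] [CompactSpace G]
  [SecondCountableTopology G] [MeasurableSpace G] [BorelSpace G] (μ : Measure G)
  [IsProbabilityMeasure μ] [μ.IsMulLeftInvariant] [μ.IsMulRightInvariant] [μ.IsInvInvariant]
  {N n : ℕ} {L : LD G N n} {d m : ℕ} [NeZero m] {β : ℝ}

lemma rc_le (hd : 4 ≤ d) (hm : 2 ≤ m) (hN : 1 ≤ N) (hβ : 0 < β) {i j : Fin d} (hij : i ≠ j)
    {a b ρ : ℕ} (ha : a ≤ ρ) (hb : b ≤ ρ) (hρ : 4 * ρ ≤ 2 * m) :
    R990.rc μ L (2 * m) β i j a b ≤ pr N β ρ := by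
  have key : ∀ {i j : Fin d}, i ≠ j → ∀ {a b : ℕ}, a ≤ ρ → b ≤ a →
      R990.rc μ L (2 * m) β i j a b ≤ pr N β ρ := by
    intro i j hij a b ha hba
    have h := R990.RB2_all μ (L := L) (d := d) (m := m) hd hN hm hβ b i j hij a b
      Nat.lt_two_pow_self.le hba (by omega)
    exact h.trans (pr_mono hβ ha)
  rcases le_total b a with h | h
  · exact key hij ha h
  · rw [R990.rc_swap]
    exact key hij.symm hb h

lemma swp (hd : 4 ≤ d) (hm : 2 ≤ m) (hN : 1 ≤ N) (hβ : 0 < β) {i j : Fin d} (hij : i ≠ j)
    (x : Fin d → ZMod (2 * m)) {a b ρ : ℕ} (ha : a ≤ ρ) (hb : b ≤ ρ) (hρ : 4 * ρ ≤ 2 * m) :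
    en μ L β (fun U => dd L (tp eT U x (List.replicate a i ++ List.replicate b j))
      (tp eT U x (List.replicate b j ++ List.replicate a i))) ≤ pr N β ρ := by
  simp only [dd_swap]
  rw [R990.en_rect]
  exact rc_le μ hd hm hN hβ hij ha hb hρ

lemma mvn (hd : 4 ≤ d) (hm : 2 ≤ m) (hN : 1 ≤ N) (hβ : 0 < β) {i : Fin d} {ρ nn : ℕ}
    (hρ : 4 * ρ ≤ 2 * m)
    (hn : nn ≤ ρ) {v : Fin d → ℕ} (hv : ∀ k, v k ≤ ρ) {K : List (Fin d)} (hi : i ∉ K)
    (x : Fin d → ZMod (2 * m)) :
    en μ L β (fun U => dd L (tp eT U x (cmb v K ++ List.replicate nn i))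
      (tp eT U x (List.replicate nn i ++ cmb v K))) ≤ K.length * pr N β ρ := by
  induction K generalizing x with
  | nil =>
    simp only [cmb, List.nil_append, List.append_nil, dd_self, en_zero, List.length_nil,
      Nat.cast_zero, zero_mul, le_refl]
  | cons k K ih =>
    have hik : i ≠ k := fun h => hi (h ▸ List.mem_cons_self)
    have hiK : i ∉ K := fun h => hi (List.mem_cons_of_mem _ h)
    have e1 : cmb v (k :: K) ++ List.replicate nn i =
        List.replicate (v k) k ++ (cmb v K ++ List.replicate nn i) := by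
      rw [cmb_cons, List.append_assoc]
    have e2 : List.replicate nn i ++ cmb v (k :: K) =
        (List.replicate nn i ++ List.replicate (v k) k) ++ cmb v K := by
      rw [cmb_cons, List.append_assoc]
    have e3 : List.replicate (v k) k ++ (List.replicate nn i ++ cmb v K) =
        (List.replicate (v k) k ++ List.replicate nn i) ++ cmb v K := by
      rw [List.append_assoc]
    have t := en_tri μ (L := L) (β := β)
      (tp_cont (u := eT) x (List.replicate (v k) k ++ (cmb v K ++ List.replicate nn i)))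
      (tp_cont (G := G) (u := eT) x
        (List.replicate (v k) k ++ (List.replicate nn i ++ cmb v K)))
      (tp_cont (u := eT) x ((List.replicate nn i ++ List.replicate (v k) k) ++ cmb v K))
    rw [e1, e2]
    refine t.trans ?_
    have s1 : (fun U : Ed d (2 * m) → G => dd L
        (tp eT U x (List.replicate (v k) k ++ (cmb v K ++ List.replicate nn i)))
        (tp eT U x (List.replicate (v k) k ++ (List.replicate nn i ++ cmb v K)))) =
        fun U => dd L (tp eT U (x + dsp eT (List.replicate (v k) k))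
          (cmb v K ++ List.replicate nn i))
        (tp eT U (x + dsp eT (List.replicate (v k) k)) (List.replicate nn i ++ cmb v K)) := by
      funext U
      rw [tp_append x (List.replicate (v k) k), tp_append x (List.replicate (v k) k), dd_lmul]
    have s2 : (fun U : Ed d (2 * m) → G => dd L
        (tp eT U x (List.replicate (v k) k ++ (List.replicate nn i ++ cmb v K)))
        (tp eT U x ((List.replicate nn i ++ List.replicate (v k) k) ++ cmb v K))) =
        fun U => dd L (tp eT U x (List.replicate (v k) k ++ List.replicate nn i))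
        (tp eT U x (List.replicate nn i ++ List.replicate (v k) k)) := by
      funext U
      have hd : (dsp eT (List.replicate (v k) k ++ List.replicate nn i) :
          Fin d → ZMod (2 * m)) = dsp eT (List.replicate nn i ++ List.replicate (v k) k) := by
        rw [dsp_append, dsp_append, add_comm]
      rw [e3, tp_append x _ (cmb v K), tp_append x _ (cmb v K), hd, dd_rmul]
    rw [s1, s2]
    have h1 := ih hiK (x + dsp eT (List.replicate (v k) k))
    have h2 := swp μ (L := L) hd hm hN hβ hik.symm x (hv k) hn hρ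
    rw [List.length_cons]
    push_cast
    linarith

lemma insn (hd : 4 ≤ d) (hm : 2 ≤ m) (hN : 1 ≤ N) (hβ : 0 < β) {i : Fin d} {ρ nn : ℕ}
    (hρ : 4 * ρ ≤ 2 * m)
    (hn : nn ≤ ρ) {v : Fin d → ℕ} (hv : ∀ k, v k ≤ ρ) {K : List (Fin d)} (hK : K.Nodup)
    (hi : i ∈ K) (x : Fin d → ZMod (2 * m)) :
    en μ L β (fun U => dd L (tp eT U x (cmb v K ++ List.replicate nn i))
      (tp eT U x (cmb (fun k => v k + if k = i then nn else 0) K))) ≤
      K.length * pr N β ρ := by
  have hb0 : 0 ≤ pr N β ρ := pr_nonneg _ _ _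
  induction K generalizing x with
  | nil => simp at hi
  | cons k K ih =>
    have hk := List.nodup_cons.1 hK
    by_cases hki : k = i
    · subst hki
      have e2 : cmb (fun k' => v k' + if k' = k then nn else 0) (k :: K) =
          List.replicate (v k) k ++ (List.replicate nn k ++ cmb v K) := by
        rw [cmb_cons, if_pos rfl, ← List.replicate_append_replicate, List.append_assoc]
        congr 2
        refine cmb_congr fun k' hk' => ?_
        have : k' ≠ k := fun h => hk.1 (h ▸ hk')
        simp [this]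
      have s1 : (fun U : Ed d (2 * m) → G => dd L
          (tp eT U x (cmb v (k :: K) ++ List.replicate nn k))
          (tp eT U x (cmb (fun k' => v k' + if k' = k then nn else 0) (k :: K)))) =
          fun U => dd L (tp eT U (x + dsp eT (List.replicate (v k) k))
            (cmb v K ++ List.replicate nn k))
          (tp eT U (x + dsp eT (List.replicate (v k) k)) (List.replicate nn k ++ cmb v K)) := by
        funext U
        rw [e2, cmb_cons, List.append_assoc, tp_append x (List.replicate (v k) k),
          tp_append x (List.replicate (v k) k), dd_lmul]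
      rw [s1]
      refine (mvn μ hd hm hN hβ hρ hn hv hk.1 _).trans ?_
      rw [List.length_cons]
      push_cast
      linarith
    · have hiK : i ∈ K := by
        rcases List.mem_cons.1 hi with h | h
        · exact absurd h.symm hki
        · exact h
      have s1 : (fun U : Ed d (2 * m) → G => dd L
          (tp eT U x (cmb v (k :: K) ++ List.replicate nn i))
          (tp eT U x (cmb (fun k' => v k' + if k' = i then nn else 0) (k :: K)))) =
          fun U => dd L (tp eT U (x + dsp eT (List.replicate (v k) k))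
            (cmb v K ++ List.replicate nn i))
          (tp eT U (x + dsp eT (List.replicate (v k) k))
            (cmb (fun k' => v k' + if k' = i then nn else 0) K)) := by
        funext U
        rw [cmb_cons, cmb_cons, if_neg hki, add_zero, List.append_assoc,
          tp_append x (List.replicate (v k) k), tp_append x (List.replicate (v k) k), dd_lmul]
      rw [s1]
      refine (ih hk.2 hiK _).trans ?_
      rw [List.length_cons]
      push_cast
      linarith

/-- sorting -/
lemma srep (hd : 4 ≤ d) (hm : 2 ≤ m) (hN : 1 ≤ N) (hβ : 0 < β) {ρ nn : ℕ} (hρ : 4 * ρ ≤ 2 * m)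
    (hn : nn ≤ ρ) {x : Fin d → ZMod (2 * m)} {w : List (Fin d)} {v : Fin d → ℕ} {b : ℝ}
    (hv : ∀ k, v k ≤ ρ) (h : Srt μ L β x w v b) (i : Fin d) :
    Srt μ L β x (w ++ List.replicate nn i) (fun k => v k + if k = i then nn else 0)
      (b + d * pr N β ρ) := by
  obtain ⟨h1, h2⟩ := h
  have hdc : (dsp eT (cb v) : Fin d → ZMod (2 * m)) = ct (2 * m) v := by
    rw [dsp_cb, sum_eT]
  refine ⟨?_, ?_⟩
  · rw [dsp_append, h1, dsp_rep, ct_addv v fun k => if k = i then nn else 0]
    congr 1
    funext k
    by_cases hk : k = i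
    · subst hk; simp [eT, ct]
    · simp [eT, ct, hk]
  · refine (en_tri μ (tp_cont _ _) (tp_cont (u := eT) x (cb v ++ List.replicate nn i))
      (tp_cont _ _)).trans ?_
    have s1 : (fun U : Ed d (2 * m) → G => dd L (tp eT U x (w ++ List.replicate nn i))
        (tp eT U x (cb v ++ List.replicate nn i))) =
        fun U => dd L (tp eT U x w) (tp eT U x (cb v)) := by
      funext U
      rw [tp_append, tp_append, h1, hdc, dd_rmul]
    rw [s1]
    have h3 := insn μ (L := L) hd hm hN hβ hρ hn hv (List.nodup_finRange d) (List.mem_finRange i) x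
    rw [List.length_finRange] at h3
    exact add_le_add h2 h3

lemma scmb (hd : 4 ≤ d) (hm : 2 ≤ m) (hN : 1 ≤ N) (hβ : 0 < β) {ρ : ℕ} (hρ : 4 * ρ ≤ 2 * m)
    {x : Fin d → ZMod (2 * m)} {w : List (Fin d)} {v v' : Fin d → ℕ} {b : ℝ}
    (hv0 : ∀ k, v k ≤ ρ) {K : List (Fin d)} (hv : ∀ k ∈ K, v k + v' k ≤ ρ)
    (h : Srt μ L β x w v b) (hK : K.Nodup) :
    Srt μ L β x (w ++ cmb v' K) (fun k => v k + if k ∈ K then v' k else 0)
      (b + K.length * (d * pr N β ρ)) := by
  induction K generalizing w v b with
  | nil =>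
    simpa [cmb] using h
  | cons k K ih =>
    have hk := List.nodup_cons.1 hK
    have hvk := hv k List.mem_cons_self
    have h1 := srep μ hd hm hN hβ hρ (nn := v' k) (by omega) hv0 h k
    have h2 := ih (v := fun k' => v k' + if k' = k then v' k else 0)
      (w := w ++ List.replicate (v' k) k) (b := b + d * pr N β ρ)
      (fun k' => by
        by_cases hkk : k' = k
        · subst hkk; simpa using hvk
        · simpa [hkk] using hv0 k')
      (fun k' hk' => by
        have hkk : k' ≠ k := fun h => hk.1 (h ▸ hk')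
        simpa [hkk] using hv k' (List.mem_cons_of_mem _ hk')) h1 hk.2
    rw [cmb_cons, ← List.append_assoc]
    refine h2.mono μ (fun k' => ?_) (le_of_eq ?_)
    · by_cases hkk : k' = k
      · subst hkk
        simp [hk.1]
      · simp [hkk]
    · rw [List.length_cons]
      push_cast; ring

lemma scb (hd : 4 ≤ d) (hm : 2 ≤ m) (hN : 1 ≤ N) (hβ : 0 < β) {ρ : ℕ} (hρ : 4 * ρ ≤ 2 * m)
    {x : Fin d → ZMod (2 * m)} {w : List (Fin d)} {v v' : Fin d → ℕ} {b : ℝ}
    (hv : ∀ k, v k + v' k ≤ ρ) (h : Srt μ L β x w v b) :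
    Srt μ L β x (w ++ cb v') (fun k => v k + v' k) (b + d * (d * pr N β ρ)) := by
  have h1 := scmb μ hd hm hN hβ hρ (v' := v') (fun k => by have := hv k; omega)
    (K := List.finRange d) (fun k _ => hv k) h (List.nodup_finRange d)
  refine h1.mono μ (fun k => by simp) ?_
  rw [List.length_finRange]

/-- a comb is sorted -/
lemma srt_cb (x : Fin d → ZMod (2 * m)) (v : Fin d → ℕ) : Srt μ L β x (cb v) v 0 := by
  refine ⟨?_, ?_⟩
  · rw [dsp_cb, sum_eT]
  · simp only [dd_self, en_zero, le_refl]

/-- a common first part -/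
lemma srt_app {x : Fin d → ZMod (2 * m)} {w w' : List (Fin d)} {v v' : Fin d → ℕ} {b b' : ℝ}
    (h : ∀ y : Fin d → ZMod (2 * m), Srt μ L β y w' v' b)
    (h' : Srt μ L β x (w ++ cb v') v b') :
    Srt μ L β x (w ++ w') v (b + b') := by
  have h0 := h (x + dsp eT w)
  have hdc : (dsp eT (cb v') : Fin d → ZMod (2 * m)) = ct (2 * m) v' := by
    rw [dsp_cb, sum_eT]
  refine ⟨?_, ?_⟩
  · rw [dsp_append, h0.1, ← hdc, ← dsp_append]
    exact h'.1
  · refine (en_tri μ (tp_cont _ _) (tp_cont (u := eT) x (w ++ cb v'))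
      (tp_cont _ _)).trans (add_le_add ?_ h'.2)
    have s1 : (fun U : Ed d (2 * m) → G => dd L (tp eT U x (w ++ w'))
        (tp eT U x (w ++ cb v'))) =
        fun U => dd L (tp eT U (x + dsp eT w) w') (tp eT U (x + dsp eT w) (cb v')) := by
      funext U
      rw [tp_append, tp_append, dd_lmul]
    rw [s1]
    exact h0.2

end

end Pool.Agent.U319
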