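import Mathlib
import Pool.Agent.U319.Per

/-!
# Dyadic frames
-/

open MeasureTheory Matrix Filter
open scoped Matrix.Norms.Frobenius Topology
open Pool.Agent.H906R3.YM hiding Pl
open Pool.Agent.W793.YM Pool.Agent.TH618.YM Pool.Agent.Y14

namespace Pool.Agent.U319

set_option linter.unusedSectionVars false
set_option linter.unusedVariables false

noncomputable section

section words

variable {d : ℕ}

/-- the digits of the level `t` -/
def lv (t : ℕ) (v : Fin d → ℕ) : Fin d → ℕ := fun j => (v j / 2 ^ t % 2) * 2 ^ t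

/-- the dyadic path -/
def hq (v : Fin d → ℕ) : ℕ → List (Fin d)
  | 0 => []
  | t + 1 => cb (lv t v) ++ hq v t

lemma hq_succ (v : Fin d → ℕ) (t : ℕ) : hq v (t + 1) = cb (lv t v) ++ hq v t := rfl

lemma lv_md (t : ℕ) (v : Fin d → ℕ) (j : Fin d) : lv t v j + v j % 2 ^ t = v j % 2 ^ (t + 1) := by
  unfold lv
  rw [Nat.mod_pow_succ]
  ring

lemma count_hq (v : Fin d → ℕ) (t : ℕ) (i : Fin d) : (hq v t).count i = v i % 2 ^ t := by
  induction t with
  | zero => simp [hq, Nat.mod_one]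
  | succ t ih => rw [hq_succ, List.count_append, count_cb, ih, lv_md]

/-- no carry -/
lemma no_carry {a p : ℕ} (h : a % p + 1 < p) : (a + 1) / p = a / p := by
  have hp : 0 < p := by omega
  have h1 : a + 1 = p * (a / p) + (a % p + 1) := by
    have := Nat.div_add_mod a p
    omega
  rw [h1, Nat.mul_add_div hp, Nat.div_eq_of_lt h, add_zero]

end words

section frame0

variable {e m : ℕ} [NeZero m]

/-- the first coordinate set to zero -/
def z0 (v : Fin (e + 3) → ℕ) : Fin (e + 3) → ℕ := fun j => if j = 0 then 0 else v j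

/-- the number of levels -/
def lg2 (q : ℕ) : ℕ := Nat.log 2 q + 3

lemma lg2_lt (q : ℕ) : 4 * q + 1 < 2 ^ lg2 q := by
  have h1 := Nat.lt_pow_succ_log_self (b := 2) (by norm_num) q
  unfold lg2
  have h2 : 2 ^ (Nat.log 2 q + 3) = 4 * 2 ^ (Nat.log 2 q + 1) := by
    rw [show Nat.log 2 q + 3 = (Nat.log 2 q + 1) + 2 by ring, pow_add]; ring
  have h3 : (Nat.log 2 q).succ = Nat.log 2 q + 1 := rfl
  rw [h3] at h1
  omega

lemma lg2_le {q : ℕ} (hq : 1 ≤ q) : 2 ^ lg2 q ≤ 8 * q := by
  have h1 := Nat.pow_log_le_self 2 (show q ≠ 0 by omega)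
  unfold lg2
  have h2 : 2 ^ (Nat.log 2 q + 3) = 8 * 2 ^ (Nat.log 2 q) := by
    rw [pow_add]; ring
  omega

/-- the path of the frame -/
def dw (q : ℕ) (x : Fin (e + 3) → ZMod (2 * m)) : List (Fin (e + 3)) :=
  List.replicate (wv x 0) 0 ++ hq (z0 (wv x)) (lg2 q)

lemma count_dw (q : ℕ) (x : Fin (e + 3) → ZMod (2 * m)) (i : Fin (e + 3)) :
    (dw q x).count i = if i = 0 then wv x 0 else wv x i % 2 ^ lg2 q := by
  unfold dw
  rw [List.count_append, count_hq, List.count_replicate]
  by_cases h : i = 0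
  · subst h
    simp [z0]
  · have h' : ¬(0 : Fin (e + 3)) = i := fun h1 => h h1.symm
    simp [z0, h, h']

lemma dw_lk0 {q : ℕ} {x : Fin (e + 3) → ZMod (2 * m)} {f : Ed (e + 3) (2 * m)}
    (h : f ∈ lk eT 0 (dw q x)) (h0 : f.2 = 0) : ∃ s : ℕ, f.1 = 0 + s • eT 0 := by
  unfold dw at h
  rw [lk_append, List.mem_append] at h
  rcases h with h | h
  · obtain ⟨_, s, _, hs⟩ := mem_lk_rep h
    exact ⟨s, hs⟩
  · exfalso
    have h1 := lk_dir h
    rw [h0] at h1
    have h2 := List.count_pos_iff.2 h1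
    rw [count_hq] at h2
    simp [z0] at h2

lemma dsp_dw {q : ℕ} {x : Fin (e + 3) → ZMod (2 * m)} (hx : ∀ j, j ≠ 0 → wv x j < 2 ^ lg2 q) :
    (dsp eT (dw q x) : Fin (e + 3) → ZMod (2 * m)) = x := by
  funext i
  rw [dsp_apply, count_dw]
  split_ifs with h
  · subst h
    exact ZMod.natCast_zmod_val _
  · rw [Nat.mod_eq_of_lt (hx i h)]
    exact ZMod.natCast_zmod_val _

/-- the transport of the frame -/
def DT {G : Type*} [Group G] (q : ℕ) (U : Ed (e + 3) (2 * m) → G) (x : Fin (e + 3) → ZMod (2 * m)) : G :=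
  tp eT U 0 (dw q x)

end frame0

lemma pr_two (N : ℕ) (β : ℝ) (t : ℕ) :
    pr N β (2 ^ (t + 1)) = Real.sqrt 2 * pr N β (2 ^ t) := by
  unfold pr
  have h1 : (((2 ^ (t + 1) : ℕ) : ℝ)) / β = 2 * (((2 ^ t : ℕ) : ℝ) / β) := by
    push_cast
    ring
  rw [h1, Real.sqrt_mul zero_le_two]
  ring

lemma sqrt_two_ge : (7 / 5 : ℝ) ≤ Real.sqrt 2 := by
  refine Real.le_sqrt_of_sq_le ?_
  norm_num

variable {G : Type*} [Group G] [TopologicalSpace G] [IsTopologicalGroup G] [CompactSpace G]
  [SecondCountableTopology G] [MeasurableSpace G] [BorelSpace G] (μ : Measure G)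
  [IsProbabilityMeasure μ] [μ.IsMulLeftInvariant] [μ.IsMulRightInvariant] [μ.IsInvInvariant]
  {N n : ℕ} {L : LD G N n} {β : ℝ}

section gen

variable {d m : ℕ} [NeZero m]

/-- the dyadic path is close to the comb -/
lemma hq_srt (hd : 4 ≤ d) (hm : 2 ≤ m) (hN : 1 ≤ N) (hβ : 0 < β) (v : Fin d → ℕ) (T : ℕ)
    (hT : 4 * 2 ^ T ≤ 2 * m) (x : Fin d → ZMod (2 * m)) :
    Srt μ L β x (hq v T) (fun j => v j % 2 ^ T) (4 * (d : ℝ) ^ 2 * pr N β (2 ^ T)) := by
  induction T generalizing x with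
  | zero =>
    refine (Srt.nil μ x).mono μ (fun k => ?_) ?_
    · rw [pow_zero, Nat.mod_one]
    · have := pr_nonneg N β (2 ^ 0)
      positivity
  | succ T ih =>
    have hp : 2 ^ (T + 1) = 2 * 2 ^ T := by rw [pow_succ]; ring
    have h1 := ih (by omega)
    have h2 := scb μ hd hm hN hβ (ρ := 2 ^ (T + 1)) hT (v := lv T v) (v' := fun j => v j % 2 ^ T)
      (fun k => by
        show lv T v k + v k % 2 ^ T ≤ _
        rw [lv_md]
        exact (Nat.mod_lt _ (by positivity)).le) (srt_cb μ (L := L) (β := β) x (lv T v))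
    have h3 := srt_app μ h1 h2
    refine h3.mono μ (fun k => lv_md T v k) ?_
    rw [pr_two]
    have h4 := sqrt_two_ge
    have h5 := pr_nonneg N β (2 ^ T)
    have h6 : 0 ≤ (d : ℝ) ^ 2 * pr N β (2 ^ T) := by positivity
    nlinarith

/-- neighbouring dyadic paths -/
lemma hq_mis (hd : 4 ≤ d) (hm : 2 ≤ m) (hN : 1 ≤ N) (hβ : 0 < β) (v : Fin d → ℕ) (i : Fin d)
    (T : ℕ) (hT : 4 * 2 ^ T ≤ 2 * m) (h : v i % 2 ^ T + 1 < 2 ^ T) (x : Fin d → ZMod (2 * m)) :
    en μ L β (fun U : Ed d (2 * m) → G => dd L (tp eT U x (hq v T ++ List.replicate 1 i))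
      (tp eT U x (hq (fun j => v j + if j = i then 1 else 0) T))) ^ 2 ≤
      ∑ t ∈ Finset.range T, if 2 ^ t ∣ v i + 1 then
        (9 * (d : ℝ) ^ 2 * pr N β (2 ^ (t + 1))) ^ 2 else 0 := by
  induction T generalizing x with
  | zero => simp at h
  | succ T ih =>
    have hp : 2 ^ (T + 1) = 2 * 2 ^ T := by rw [pow_succ]; ring
    obtain ⟨v', hv'⟩ : ∃ v' : Fin d → ℕ, v' = fun j => v j + if j = i then 1 else 0 := ⟨_, rfl⟩
    rw [← hv'] at ih ⊢
    rw [Finset.sum_range_succ]
    by_cases hc : v i % 2 ^ T + 1 < 2 ^ T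
    · have h1 := ih (by omega) hc (x + dsp eT (cb (lv T v)))
      have hlv : lv T v' = lv T v := by
        funext j
        unfold lv
        rw [hv']
        simp only
        split_ifs with hj
        · rw [hj, no_carry hc]
        · rw [add_zero]
      have s1 : (fun U : Ed d (2 * m) → G => dd L
          (tp eT U x (hq v (T + 1) ++ List.replicate 1 i)) (tp eT U x (hq v' (T + 1)))) =
          fun U => dd L (tp eT U (x + dsp eT (cb (lv T v))) (hq v T ++ List.replicate 1 i))
            (tp eT U (x + dsp eT (cb (lv T v))) (hq v' T)) := by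
        funext U
        rw [hq_succ, hq_succ, hlv, List.append_assoc, tp_append x (cb (lv T v)),
          tp_append x (cb (lv T v)), dd_lmul]
      rw [s1]
      refine h1.trans (le_add_of_nonneg_right ?_)
      split_ifs
      · exact sq_nonneg _
      · exact le_rfl
    · have hpos : 0 < 2 ^ T := by positivity
      have hlt := Nat.mod_lt (v i) hpos
      have h1 : v i % 2 ^ T + 1 = 2 ^ T := by omega
      have hdv : 2 ^ T ∣ v i + 1 := by
        have h2 := Nat.div_add_mod (v i) (2 ^ T)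
        refine ⟨v i / 2 ^ T + 1, ?_⟩
        rw [mul_add, mul_one]
        omega
      rw [if_pos hdv]
      have h3 := hq_srt μ (L := L) hd hm hN hβ v (T + 1) hT x
      have h4 := hq_srt μ (L := L) hd hm hN hβ v' (T + 1) hT x
      have h5 := srep μ hd hm hN hβ (ρ := 2 ^ (T + 1)) (nn := 1) hT (Nat.one_le_two_pow)
        (fun k => (Nat.mod_lt _ (by positivity)).le) h3 i
      have h6 := Srt.cmp μ h5 (h4.mono μ (v' := fun k => v k % 2 ^ (T + 1) + if k = i then 1 else 0)
        (fun k => by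
          rw [hv']
          simp only
          split_ifs with hk
          · rw [hk, ← Nat.mod_add_mod, Nat.mod_eq_of_lt h]
          · rw [add_zero, add_zero]) le_rfl)
      have h7 : 0 ≤ ∑ t ∈ Finset.range T, (if 2 ^ t ∣ v i + 1 then
          (9 * (d : ℝ) ^ 2 * pr N β (2 ^ (t + 1))) ^ 2 else 0) :=
        Finset.sum_nonneg fun t _ => by
          split_ifs
          · exact sq_nonneg _
          · exact le_rfl
      have h8 : en μ L β (fun U : Ed d (2 * m) → G => dd L
          (tp eT U x (hq v (T + 1) ++ List.replicate 1 i)) (tp eT U x (hq v' (T + 1)))) ≤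
          9 * (d : ℝ) ^ 2 * pr N β (2 ^ (T + 1)) := by
        refine h6.trans ?_
        have h9 := pr_nonneg N β (2 ^ (T + 1))
        have h10 : (d : ℝ) ≤ (d : ℝ) ^ 2 := by
          have : (1 : ℝ) ≤ d := by
            have : 1 ≤ d := by omega
            exact_mod_cast this
          nlinarith
        have h11 := mul_le_mul_of_nonneg_right h10 h9
        linarith
      have h12 := pow_le_pow_left₀ (en_nonneg μ _) h8 2
      linarith

end gen

section frame

variable {e m : ℕ} [NeZero m]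

/-- the strip between the frames of neighbouring points -/
lemma strip2 (he : 1 ≤ e) (hm : 2 ≤ m) (hN : 1 ≤ N) {β : ℝ} (hβ : 0 < β) {q : ℕ} (hq1 : 1 ≤ q)
    (hqm : 32 * q ≤ 2 * m) {x : Fin (e + 3) → ZMod (2 * m)} (hx : x ∈ SS e m q) {j : Fin (e + 3)}
    (hj : j ≠ 0) :
    EX μ L β (fun U : Ed (e + 3) (2 * m) → G =>
      dd L (DT q U x * U (x, j)) (DT q U (x + eT j)) ^ 2) ≤
      ∑ t ∈ Finset.range (lg2 q), if 2 ^ t ∣ wv x j + 1 then
        (9 * ((e + 3 : ℕ) : ℝ) ^ 2 * pr N β (2 ^ (t + 1))) ^ 2 else 0 := by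
  have hx' := (Finset.mem_filter.1 hx).2
  have hl1 := lg2_lt q
  have hl2 := lg2_le hq1
  have hz : z0 (wv x) j = wv x j := by unfold z0; rw [if_neg hj]
  have h1 := hq_mis μ (L := L) (d := e + 3) (m := m) (by omega) hm hN hβ (z0 (wv x)) j (lg2 q)
    (by omega) (by rw [hz, Nat.mod_eq_of_lt (by have := hx' j; omega)]; have := hx' j; omega)
    (0 + dsp eT (List.replicate (wv x 0) (0 : Fin (e + 3))))
  rw [hz] at h1
  have e1 : (fun k => z0 (wv x) k + if k = j then 1 else 0) = z0 (wv (x + eT j)) := by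
    rw [wv_add (by have := hx' j; omega)]
    funext k
    unfold z0
    by_cases hk : k = j
    · subst hk; simp [es_same, hj]
    · by_cases hk0 : k = 0
      · subst hk0; simp [Ne.symm hj]
      · simp [es_ne hk, hk, hk0]
  rw [e1] at h1
  have e2 : wv (x + eT j) 0 = wv x 0 := wv_add_ne hj.symm
  have e5 : (dsp eT (dw q x) : Fin (e + 3) → ZMod (2 * m)) = x :=
    dsp_dw fun k _ => by have := hx' k; omega
  have hf : ∀ U : Ed (e + 3) (2 * m) → G, dd L (DT q U x * U (x, j)) (DT q U (x + eT j)) =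
      dd L (tp eT U (0 + dsp eT (List.replicate (wv x 0) (0 : Fin (e + 3))))
        (hq (z0 (wv x)) (lg2 q) ++ List.replicate 1 j))
        (tp eT U (0 + dsp eT (List.replicate (wv x 0) (0 : Fin (e + 3))))
        (hq (z0 (wv (x + eT j))) (lg2 q))) := by
    intro U
    have e4 : tp eT U x (List.replicate 1 j) = U (x, j) := by
      rw [List.replicate_one, tp_cons, tp_nil, mul_one]
    have e3 : tp eT U 0 (dw q x) * U (x, j) = tp eT U 0 (dw q x ++ List.replicate 1 j) := by
      rw [tp_append, e5, zero_add, e4]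
    unfold DT
    rw [e3]
    unfold dw
    rw [e2, List.append_assoc, tp_append 0 (List.replicate (wv x 0) (0 : Fin (e + 3))),
      tp_append 0 (List.replicate (wv x 0) (0 : Fin (e + 3))), dd_lmul]
  simp only [hf]
  rw [← en_sq]
  exact h1

/-! ### sums over the box -/

lemma fib_SS {q : ℕ} (j : Fin (e + 3)) (k : ℕ) :
    ((SS e m q).filter fun x => wv x j = k).card ≤ (4 * q + 1) ^ (e + 2) := by
  have h1 : ((SS e m q).filter fun x => wv x j = k).card ≤
      (Fintype.piFinset fun i : Fin (e + 3) => if i = j then ({0} : Finset ℕ) else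
        Finset.range (4 * q + 1)).card := by
    refine Finset.card_le_card_of_injOn (fun x => Function.update (wv x) j 0) (fun x hx => ?_) ?_
    · have hx1 := (Finset.mem_filter.1 hx).1
      have hx' := (Finset.mem_filter.1 hx1).2
      simp only [Finset.mem_coe, Fintype.mem_piFinset]
      intro i
      by_cases h : i = j
      · subst h; simp
      · rw [Function.update_of_ne h, if_neg h, Finset.mem_range]
        have := hx' i
        omega
    · intro x hx y hy h
      have hx2 := (Finset.mem_filter.1 hx).2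
      have hy2 := (Finset.mem_filter.1 hy).2
      refine wv_inj (funext fun i => ?_)
      by_cases hi : i = j
      · subst hi; rw [hx2, hy2]
      · have := congrFun h i
        simp only at this
        rwa [Function.update_of_ne hi, Function.update_of_ne hi] at this
  refine h1.trans (le_of_eq ?_)
  rw [Fintype.card_piFinset, ← Finset.mul_prod_erase _ _ (Finset.mem_univ j), if_pos rfl,
    Finset.card_singleton, one_mul]
  have h2 : ∏ x ∈ Finset.univ.erase j, (if x = j then ({0} : Finset ℕ) else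
      Finset.range (4 * q + 1)).card = ∏ x ∈ Finset.univ.erase j, (4 * q + 1) := by
    refine Finset.prod_congr rfl fun i hi => ?_
    rw [if_neg (Finset.mem_erase.1 hi).1, Finset.card_range]
  rw [h2, Finset.prod_const, Finset.card_erase_of_mem (Finset.mem_univ _), Finset.card_univ,
    Fintype.card_fin]
  rfl

lemma sum_SS {q : ℕ} (j : Fin (e + 3)) {g : ℕ → ℝ} (hg : ∀ k, 0 ≤ g k) :
    ∑ x ∈ SS e m q, g (wv x j) ≤
      (4 * q + 1) ^ (e + 2) * ∑ k ∈ Finset.range (4 * q + 1), g k := by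
  have h1 : ∀ x ∈ SS e m q, wv x j ∈ Finset.range (4 * q + 1) := fun x hx => by
    rw [Finset.mem_range]
    have := (Finset.mem_filter.1 hx).2 j
    omega
  rw [← Finset.sum_fiberwise_of_maps_to h1, Finset.mul_sum]
  refine Finset.sum_le_sum fun k _ => ?_
  have h2 : ∑ x ∈ (SS e m q).filter (fun x => wv x j = k), g (wv x j) =
      ((SS e m q).filter fun x => wv x j = k).card * g k := by
    rw [← nsmul_eq_mul, ← Finset.sum_const]
    exact Finset.sum_congr rfl fun x hx => by rw [(Finset.mem_filter.1 hx).2]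
  rw [h2]
  refine mul_le_mul_of_nonneg_right ?_ (hg k)
  exact_mod_cast fib_SS j k

lemma sum_dvd {q : ℕ} (t : ℕ) (ht : t ≤ lg2 q) (c : ℝ) (hc : 0 ≤ c) :
    ∑ k ∈ Finset.range (4 * q + 1), (if 2 ^ t ∣ k + 1 then c else 0) ≤
      2 ^ (lg2 q - t) * c := by
  have h0 : Finset.range (4 * q + 1) ⊆ Finset.range (2 ^ lg2 q) := by
    refine Finset.range_subset_range.2 ?_
    have := lg2_lt q
    omega
  refine (Finset.sum_le_sum_of_subset_of_nonneg h0 fun k _ _ => by
    split_ifs
    · exact hc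
    · exact le_rfl).trans ?_
  rw [← Finset.sum_filter, Finset.sum_const, Nat.card_multiples, nsmul_eq_mul,
    Nat.pow_div ht (by norm_num)]
  push_cast
  exact le_rfl

/-- the constant -/
def CM (e N : ℕ) : ℝ := 81 * ((e : ℝ) + 3) ^ 4 * (900000000 * N ^ 2)

/-- the total mismatch of the frames -/
theorem mis_sum (he : 1 ≤ e) (hm : 2 ≤ m) (hN : 1 ≤ N) {β : ℝ} (hβ : 0 < β) {q : ℕ} (hq1 : 1 ≤ q)
    (hqm : 32 * q ≤ 2 * m) {j : Fin (e + 3)} (hj : j ≠ 0) :
    ∑ x ∈ SS e m q, EX μ L β (fun U : Ed (e + 3) (2 * m) → G =>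
      dd L (DT q U x * U (x, j)) (DT q U (x + eT j)) ^ 2) ≤
      (4 * q + 1) ^ (e + 2) * (16 * CM e N * (q * lg2 q) / β) := by
  have h1 : ∑ x ∈ SS e m q, EX μ L β (fun U : Ed (e + 3) (2 * m) → G =>
      dd L (DT q U x * U (x, j)) (DT q U (x + eT j)) ^ 2) ≤
      ∑ x ∈ SS e m q, ∑ t ∈ Finset.range (lg2 q), if 2 ^ t ∣ wv x j + 1 then
        (9 * ((e + 3 : ℕ) : ℝ) ^ 2 * pr N β (2 ^ (t + 1))) ^ 2 else 0 :=
    Finset.sum_le_sum fun x hx => strip2 μ he hm hN hβ hq1 hqm hx hj
  refine h1.trans ?_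
  refine (sum_SS (e := e) (m := m) (q := q) j
    (g := fun k => ∑ t ∈ Finset.range (lg2 q), if 2 ^ t ∣ k + 1 then
        (9 * ((e + 3 : ℕ) : ℝ) ^ 2 * pr N β (2 ^ (t + 1))) ^ 2 else 0)
    (fun k => Finset.sum_nonneg fun t _ => by
      split_ifs
      · exact sq_nonneg _
      · exact le_rfl)).trans ?_
  refine mul_le_mul_of_nonneg_left ?_ (by positivity)
  rw [Finset.sum_comm]
  have h2 : ∀ t ∈ Finset.range (lg2 q), ∑ k ∈ Finset.range (4 * q + 1), (if 2 ^ t ∣ k + 1 then
        (9 * ((e + 3 : ℕ) : ℝ) ^ 2 * pr N β (2 ^ (t + 1))) ^ 2 else 0) ≤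
      16 * CM e N * (q / β) := by
    intro t ht
    have ht' : t ≤ lg2 q := (Finset.mem_range.1 ht).le
    refine (sum_dvd t ht' _ (sq_nonneg _)).trans ?_
    have h3 : (2 : ℝ) ^ (lg2 q - t) * (9 * ((e + 3 : ℕ) : ℝ) ^ 2 * pr N β (2 ^ (t + 1))) ^ 2 =
        2 * CM e N * (2 ^ lg2 q / β) := by
      rw [mul_pow, pr_sq hβ]
      unfold CM
      have h4 : (2 : ℝ) ^ lg2 q = 2 ^ (lg2 q - t) * 2 ^ t := by
        rw [← pow_add]; congr 1; omega
      rw [h4]
      push_cast
      ring
    rw [h3]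
    have h5 : ((2 : ℝ) ^ lg2 q) ≤ 8 * q := by exact_mod_cast lg2_le hq1
    have h6 : 0 ≤ CM e N := by unfold CM; positivity
    have h7 : (2 : ℝ) ^ lg2 q / β ≤ 8 * (q / β) := by
      rw [← mul_div_assoc]
      exact div_le_div_of_nonneg_right h5 hβ.le
    calc 2 * CM e N * ((2 : ℝ) ^ lg2 q / β) ≤ 2 * CM e N * (8 * (q / β)) :=
          mul_le_mul_of_nonneg_left h7 (by positivity)
      _ = _ := by ring
  refine (Finset.sum_le_sum h2).trans (le_of_eq ?_)
  rw [Finset.sum_const, Finset.card_range, nsmul_eq_mul]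
  ring

end frame

end

end Pool.Agent.U319
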