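import Mathlib
import Pool.Agent.U319.Frm

/-!
# The shift of the links in a box, with the dyadic frames
-/

open MeasureTheory Matrix Filter
open scoped Matrix.Norms.Frobenius Topology
open Pool.Agent.H906R3.YM hiding Pl
open Pool.Agent.W793.YM Pool.Agent.TH618.YM Pool.Agent.Y14

namespace Pool.Agent.U319

set_option linter.unusedSectionVars false
set_option linter.unusedVariables false

noncomputable section

section alg

variable {e m : ℕ} [NeZero m] {G : Type*} [Group G] [TopologicalSpace G] {N n : ℕ} (L : LD G N n)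

/-- the factor -/
def hD (q : ℕ) (a : Fin n) (s : ℝ) (U : Ed (e + 3) (2 * m) → G)
    (x : Fin (e + 3) → ZMod (2 * m)) : G :=
  (DT q U x)⁻¹ * L.ex a (s * kk q x) * DT q U x

/-- the shift -/
def PD (q : ℕ) (a : Fin n) (s : ℝ) (U : Ed (e + 3) (2 * m) → G) : Ed (e + 3) (2 * m) → G :=
  fun f => if f.2 = 0 then hD L q a s U f.1 * U f else U f

variable {L}

lemma hD_one {q : ℕ} {a : Fin n} {s : ℝ} {U : Ed (e + 3) (2 * m) → G}
    {x : Fin (e + 3) → ZMod (2 * m)} (h : kk q x = 0) : hD L q a s U x = 1 := by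
  unfold hD
  rw [h, mul_zero, L.ex_zero]
  group

lemma PD_eq {q : ℕ} {a : Fin n} {s : ℝ} {U : Ed (e + 3) (2 * m) → G} {f : Ed (e + 3) (2 * m)}
    (h : ¬(f.2 = 0 ∧ kk q f.1 ≠ 0)) : PD L q a s U f = U f := by
  unfold PD
  split_ifs with h1
  · have h2 : kk q f.1 = 0 := by
      by_contra h3
      exact h ⟨h1, h3⟩
    rw [hD_one h2, one_mul]
  · rfl


/-- the links of the frame are not shifted -/
lemma dw_unsh {q : ℕ} (hq : 1 ≤ q) {x : Fin (e + 3) → ZMod (2 * m)} {f : Ed (e + 3) (2 * m)}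
    (h : f ∈ lk eT 0 (dw q x)) : ¬(f.2 = 0 ∧ kk q f.1 ≠ 0) := by
  rintro ⟨h1, h2⟩
  obtain ⟨s, hs⟩ := dw_lk0 h h1
  refine h2 (kk_axis hq one_ne ?_)
  rw [hs]
  exact smul_zero_coord s one_ne

lemma DT_congr {q : ℕ} (hq : 1 ≤ q) {U U' : Ed (e + 3) (2 * m) → G}
    (h : ∀ f : Ed (e + 3) (2 * m), ¬(f.2 = 0 ∧ kk q f.1 ≠ 0) → U f = U' f)
    (x : Fin (e + 3) → ZMod (2 * m)) : DT q U x = DT q U' x :=
  tp_congr fun f hf => h f (dw_unsh hq hf)

lemma DT_PD {q : ℕ} (hq : 1 ≤ q) (a : Fin n) (s : ℝ) (U : Ed (e + 3) (2 * m) → G)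
    (x : Fin (e + 3) → ZMod (2 * m)) : DT q (PD L q a s U) x = DT q U x :=
  DT_congr hq (fun f hf => PD_eq hf) x

lemma PD_PD {q : ℕ} (hq : 1 ≤ q) (a : Fin n) (s t : ℝ) (U : Ed (e + 3) (2 * m) → G) :
    PD L q a s (PD L q a t U) = PD L q a (s + t) U := by
  funext f
  have h1 : ∀ (r : ℝ) (V : Ed (e + 3) (2 * m) → G), PD L q a r V f =
      if f.2 = 0 then (DT q V f.1)⁻¹ * L.ex a (r * kk q f.1) * DT q V f.1 * V f else V f :=
    fun r V => rfl
  rw [h1 s, h1 t, h1 (s + t), DT_PD hq]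
  split_ifs with h
  · rw [add_mul, L.ex_add]
    group
  · rfl

lemma PD_zero (q : ℕ) (a : Fin n) (U : Ed (e + 3) (2 * m) → G) : PD L q a 0 U = U := by
  funext f
  unfold PD hD
  rw [zero_mul, L.ex_zero]
  split_ifs
  · group
  · rfl

lemma hD_neg (q : ℕ) (a : Fin n) (s : ℝ) (U : Ed (e + 3) (2 * m) → G)
    (x : Fin (e + 3) → ZMod (2 * m)) : hD L q a (-s) U x = (hD L q a s U x)⁻¹ := by
  unfold hD
  rw [neg_mul, ex_neg']
  group

end alg

variable {G : Type*} [Group G] [TopologicalSpace G] [IsTopologicalGroup G] [CompactSpace G]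
  [SecondCountableTopology G] [MeasurableSpace G] [BorelSpace G] (μ : Measure G)
  [IsProbabilityMeasure μ] [μ.IsMulLeftInvariant] [μ.IsMulRightInvariant] [μ.IsInvInvariant]
  {N n : ℕ} {L : LD G N n} {e m : ℕ} [NeZero m] {q : ℕ}

lemma DT_cont (x : Fin (e + 3) → ZMod (2 * m)) :
    Continuous fun U : Ed (e + 3) (2 * m) → G => DT q U x := tp_cont _ _

lemma hD_cont (a : Fin n) (s : ℝ) (x : Fin (e + 3) → ZMod (2 * m)) :
    Continuous fun U : Ed (e + 3) (2 * m) → G => hD L q a s U x :=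
  (((DT_cont x).inv).mul continuous_const).mul (DT_cont x)

lemma PD_cont (a : Fin n) (s : ℝ) :
    Continuous (PD L q a s : (Ed (e + 3) (2 * m) → G) → Ed (e + 3) (2 * m) → G) := by
  refine continuous_pi fun f => ?_
  unfold PD
  split_ifs
  · exact (hD_cont a s f.1).mul (continuous_apply f)
  · exact continuous_apply f

theorem PD_int (hq : 1 ≤ q) (a : Fin n) (s : ℝ) {F : (Ed (e + 3) (2 * m) → G) → ℝ}
    (hF : Continuous F) : ∫ U, F (PD L q a s U) ∂(ME μ (Ed (e + 3) (2 * m))) =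
      ∫ U, F U ∂(ME μ (Ed (e + 3) (2 * m))) := by
  classical
  have h := integral_skew μ (fun f : Ed (e + 3) (2 * m) => f.2 = 0 ∧ kk q f.1 ≠ 0) hF
    (a := fun f U => hD L q a s U f.1) (b := fun _ _ => 1) (fun f => hD_cont a s f.1)
    (fun f => continuous_const) (fun f U U' h => by
      unfold hD
      simp only
      rw [DT_congr hq h]) (fun f U U' h => rfl)
  rw [← h]
  refine integral_congr_ae (Filter.Eventually.of_forall fun U => ?_)
  simp only
  congr 1
  funext f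
  split_ifs with h1
  · unfold PD
    rw [if_pos h1.1, mul_one]
  · exact PD_eq h1

variable (L) in
/-- the change of the action -/
def XD (β : ℝ) (q : ℕ) (a : Fin n) (s : ℝ) (U : Ed (e + 3) (2 * m) → G) : ℝ :=
  β * (act L (PD L q a s U) - act L U)

lemma XD_cont (β : ℝ) (a : Fin n) (s : ℝ) :
    Continuous (XD L β q a s : (Ed (e + 3) (2 * m) → G) → ℝ) :=
  continuous_const.mul ((act_cont.comp (PD_cont a s)).sub act_cont)

lemma XD_PD (hq : 1 ≤ q) (β : ℝ) (a : Fin n) (s : ℝ) (U : Ed (e + 3) (2 * m) → G) :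
    XD L β q a (-s) (PD L q a s U) = -XD L β q a s U := by
  unfold XD
  rw [PD_PD hq, neg_add_cancel, PD_zero]
  ring

/-- change of variables -/
lemma EX_PD (hq : 1 ≤ q) {β : ℝ} (a : Fin n) (s : ℝ) {F : (Ed (e + 3) (2 * m) → G) → ℝ}
    (hF : Continuous F) : EX μ L β (fun U => F (PD L q a s U)) =
      EX μ L β (fun U => F U * Real.exp (-XD L β q a (-s) U)) := by
  unfold EX
  congr 1
  have h := PD_int μ (L := L) hq a s (F := fun V : Ed (e + 3) (2 * m) → G =>
    F V * Real.exp (-(β * act L (PD L q a (-s) V)))) (hF.mul (Real.continuous_exp.comp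
      (continuous_const.mul (act_cont.comp (PD_cont a (-s)))).neg))
  unfold Zt
  have h1 : ∀ U : Ed (e + 3) (2 * m) → G, F (PD L q a s U) * Real.exp (-(β * act L U)) =
      F (PD L q a s U) * Real.exp (-(β * act L (PD L q a (-s) (PD L q a s U)))) := by
    intro U
    rw [PD_PD hq, neg_add_cancel, PD_zero]
  simp only [h1]
  rw [h]
  refine integral_congr_ae (Filter.Eventually.of_forall fun U => ?_)
  simp only
  rw [mul_assoc, ← Real.exp_add]
  congr 2
  unfold XD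
  ring

lemma EX_XDexp (hq : 1 ≤ q) {β : ℝ} (a : Fin n) (s : ℝ) :
    EX μ L β (fun U : Ed (e + 3) (2 * m) → G => Real.exp (-XD L β q a s U)) = 1 := by
  have h := EX_PD μ (L := L) (β := β) hq a (-s) (F := fun _ : Ed (e + 3) (2 * m) → G => (1 : ℝ))
    continuous_const
  rw [neg_neg, EX_one] at h
  simp only [one_mul] at h
  exact h.symm

lemma EX_XD_nonneg (hq : 1 ≤ q) {β : ℝ} (a : Fin n) (s : ℝ) :
    0 ≤ EX μ L β (XD L β q a s : (Ed (e + 3) (2 * m) → G) → ℝ) := by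
  have h := EX_XDexp μ (L := L) (e := e) (m := m) (β := β) hq a s
  have hX := XD_cont (L := L) (q := q) (e := e) (m := m) β a s
  have h1 : EX μ L β (fun U : Ed (e + 3) (2 * m) → G => 1 - XD L β q a s U) ≤
      EX μ L β (fun U : Ed (e + 3) (2 * m) → G => Real.exp (-XD L β q a s U)) := by
    refine EX_mono μ (continuous_const.sub hX) (Real.continuous_exp.comp hX.neg) fun U => ?_
    have := Real.add_one_le_exp (-XD L β q a s U)
    linarith
  rw [EX_sub μ continuous_const hX, EX_one, h] at h1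
  linarith

/-- **the law of the shifted configuration**: small probabilities remain small -/
theorem tiltD (hq : 1 ≤ q) {β : ℝ} (a : Fin n) (s : ℝ) {g : (Ed (e + 3) (2 * m) → G) → ℝ}
    (hg : Continuous g) (h0 : ∀ U, 0 ≤ g U) (h1 : ∀ U, g U ≤ 1) :
    EX μ L β (fun U => g (PD L q a s U)) ≤
      3 * EX μ L β g + 3 * EX μ L β (fun U : Ed (e + 3) (2 * m) → G => XD L β q a s U) := by
  have hX := fun s => XD_cont (L := L) (q := q) (e := e) (m := m) β a s
  obtain ⟨K, hK⟩ : ∃ K : (Ed (e + 3) (2 * m) → G) → ℝ, K = fun V =>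
    -XD L β q a (-s) V + Real.exp (-(-XD L β q a (-s) V)) - 1 := ⟨_, rfl⟩
  have hKc : Continuous K := by
    rw [hK]
    exact ((hX (-s)).neg.add (Real.continuous_exp.comp (hX (-s)).neg.neg)).sub continuous_const
  have e1 := EX_PD μ (L := L) (β := β) hq a s hg
  have e2 := EX_PD μ (L := L) (β := β) hq a s hKc
  have e3 : EX μ L β (fun U => K (PD L q a s U)) =
      EX μ L β (fun U : Ed (e + 3) (2 * m) → G => XD L β q a s U) := by
    have e4 : (fun U : Ed (e + 3) (2 * m) → G => K (PD L q a s U)) =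
        fun U => (XD L β q a s U + Real.exp (-XD L β q a s U)) - 1 := by
      funext U
      rw [hK]
      simp only
      rw [XD_PD hq]
      simp only [neg_neg]
    have c1 : Continuous fun U : Ed (e + 3) (2 * m) → G => Real.exp (-XD L β q a s U) :=
      Real.continuous_exp.comp (hX s).neg
    have c1' : Continuous fun U : Ed (e + 3) (2 * m) → G =>
        XD L β q a s U + Real.exp (-XD L β q a s U) := (hX s).add c1
    rw [e4, EX_sub μ c1' continuous_const, EX_add μ (hX s) c1, EX_XDexp μ hq, EX_one]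
    ring
  rw [e1, ← e3, e2]
  have c2 : Continuous fun U : Ed (e + 3) (2 * m) → G => Real.exp (-XD L β q a (-s) U) :=
    Real.continuous_exp.comp (hX (-s)).neg
  have c3 : Continuous fun U : Ed (e + 3) (2 * m) → G => K U * Real.exp (-XD L β q a (-s) U) :=
    hKc.mul c2
  have c4 : Continuous fun U : Ed (e + 3) (2 * m) → G => 3 * g U := continuous_const.mul hg
  have c5 : Continuous fun U : Ed (e + 3) (2 * m) → G =>
    3 * (K U * Real.exp (-XD L β q a (-s) U)) := continuous_const.mul c3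
  rw [← EX_smul, ← EX_smul, ← EX_add μ c4 c5]
  refine EX_mono μ (hg.mul c2) (c4.add c5) fun U => ?_
  have := tilt_pt (h0 U) (h1 U) (t := -XD L β q a (-s) U)
  rw [hK]
  exact this


/-! ### the energy -/

lemma plq_PD0 (a : Fin n) (s : ℝ) (U : Ed (e + 3) (2 * m) → G) (x : Fin (e + 3) → ZMod (2 * m))
    {j : Fin (e + 3)} (hj : j ≠ 0) : plqT (PD L q a s U) x 0 j =
      hD L q a s U x * plqT U x 0 j * (U (x, j) * hD L q a s U (x + eT j) * (U (x, j))⁻¹)⁻¹ := by
  unfold plqT PD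
  simp only [if_true, if_neg hj]
  group

lemma plq_PD1 (a : Fin n) (s : ℝ) (U : Ed (e + 3) (2 * m) → G) (x : Fin (e + 3) → ZMod (2 * m))
    {i j : Fin (e + 3)} (hi : i ≠ 0) (hj : j ≠ 0) : plqT (PD L q a s U) x i j = plqT U x i j := by
  unfold plqT PD
  simp only [if_neg hi, if_neg hj]

/-- the second difference of the energy of a plaquette -/
def D2D (L : LD G N n) (q : ℕ) (a : Fin n) (s : ℝ) (U : Ed (e + 3) (2 * m) → G)
    (x : Fin (e + 3) → ZMod (2 * m)) (j : Fin (e + 3)) : ℝ :=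
  we L (plqT (PD L q a s U) x 0 j) + we L (plqT (PD L q a (-s) U) x 0 j) -
    2 * we L (plqT U x 0 j)

/-- the bound -/
def BdD (L : LD G N n) (q : ℕ) (s : ℝ) (U : Ed (e + 3) (2 * m) → G)
    (x : Fin (e + 3) → ZMod (2 * m)) (j : Fin (e + 3)) : ℝ :=
  s ^ 2 * (1 / (q : ℝ) ^ 2 + 16 * dd L (DT q U x * U (x, j)) (DT q U (x + eT j)) ^ 2 +
    dv L (plqT U x 0 j) ^ 2)

lemma D2D_zero (a : Fin n) (s : ℝ) (U : Ed (e + 3) (2 * m) → G) {x : Fin (e + 3) → ZMod (2 * m)}
    {j : Fin (e + 3)} (hj : j ≠ 0) (h1 : kk q x = 0) (h2 : kk q (x + eT j) = 0) :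
    D2D L q a s U x j = 0 := by
  unfold D2D
  rw [plq_PD0 _ _ _ _ hj, plq_PD0 _ _ _ _ hj, hD_one h1, hD_one h1, hD_one h2, hD_one h2]
  simp
  ring

lemma D2D_le (hq : 1 ≤ q) (a : Fin n) (s : ℝ) (U : Ed (e + 3) (2 * m) → G)
    {x : Fin (e + 3) → ZMod (2 * m)} {j : Fin (e + 3)} (hj : j ≠ 0) (hx : wv x j + 1 < 2 * m) :
    D2D L q a s U x j ≤ BdD L q s U x j := by
  obtain ⟨h, hh1⟩ : ∃ h, h = hD L q a s U x := ⟨_, rfl⟩
  obtain ⟨h', hh2⟩ : ∃ h', h' = U (x, j) * hD L q a s U (x + eT j) * (U (x, j))⁻¹ := ⟨_, rfl⟩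
  obtain ⟨P, hP⟩ : ∃ P, P = plqT U x 0 j := ⟨_, rfl⟩
  obtain ⟨g, hg⟩ : ∃ g, g = DT q U x * U (x, j) * (DT q U (x + eT j))⁻¹ := ⟨_, rfl⟩
  have e1 : D2D L q a s U x j = we L (h * P * h'⁻¹) + we L (h⁻¹ * P * h') - 2 * we L P := by
    unfold D2D
    rw [plq_PD0 _ _ _ _ hj, plq_PD0 _ _ _ _ hj, hD_neg, hD_neg, ← hh1, ← hP]
    have e2 : (U (x, j) * (hD L q a s U (x + eT j))⁻¹ * (U (x, j))⁻¹)⁻¹ = h' := by
      rw [hh2]; group
    rw [e2, ← hh2]
  have hgd : dd L (DT q U x * U (x, j)) (DT q U (x + eT j)) = dv L g := by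
    rw [dd_dv, hg]
  have hq1 : (1 : ℝ) ≤ q := by exact_mod_cast hq
  have hq0 : (0 : ℝ) < q := by linarith
  obtain ⟨k, hk⟩ : ∃ k, k = kk q x := ⟨_, rfl⟩
  obtain ⟨k', hk'⟩ : ∃ k', k' = kk q (x + eT j) := ⟨_, rfl⟩
  have hk1 : |k - k'| ≤ 1 / (2 * q) := by rw [hk, hk']; exact kk_lip hq hj hx
  have hk0 : |k| ≤ 1 := by rw [hk, abs_of_nonneg (kk_nonneg q x)]; exact kk_le q x
  have hk0' : |k'| ≤ 1 := by rw [hk', abs_of_nonneg (kk_nonneg q _)]; exact kk_le q _
  have hs0 := abs_nonneg s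
  have dvg := dv_nonneg (L := L) g
  have dh : dv L h ≤ |s| := by
    rw [hh1]
    unfold hD
    have h1 := dv_conj (L := L) (DT q U x)⁻¹ (L.ex a (s * kk q x))
    rw [inv_inv] at h1
    rw [h1]
    refine (dv_ex a _).trans ?_
    rw [abs_mul, ← hk]
    exact mul_le_of_le_one_right hs0 hk0
  have dh' : dv L h' ≤ |s| := by
    rw [hh2, dv_conj]
    unfold hD
    have h1 := dv_conj (L := L) (DT q U (x + eT j))⁻¹ (L.ex a (s * kk q (x + eT j)))
    rw [inv_inv] at h1
    rw [h1]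
    refine (dv_ex a _).trans ?_
    rw [abs_mul, ← hk']
    exact mul_le_of_le_one_right hs0 hk0'
  have dhh : dd L h h' ≤ |s| * (1 / (2 * q) + 2 * dv L g) := by
    have h1 : dd L h h' = dd L (L.ex a (s * k)) (g * L.ex a (s * k') * g⁻¹) := by
      have h2 : h = (DT q U x)⁻¹ * (L.ex a (s * k) * DT q U x) := by
        rw [hh1, hk]; unfold hD; group
      have h3 : h' = (DT q U x)⁻¹ * (g * L.ex a (s * k') * g⁻¹ * DT q U x) := by
        rw [hh2, hk', hg]; unfold hD; group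
      rw [h2, h3, dd_lmul, dd_rmul]
    rw [h1]
    have h4 := dd_tri (L := L) (L.ex a (s * k)) (L.ex a (s * k')) (g * L.ex a (s * k') * g⁻¹)
    have h5 := dd_ex (L := L) a (s * k) (s * k')
    have h6 := dd_conj (L := L) g (L.ex a (s * k'))
    have h7 := dv_ex (L := L) a (s * k')
    rw [← mul_sub, abs_mul] at h5
    rw [abs_mul] at h7
    have h8 : |s| * |k - k'| ≤ |s| * (1 / (2 * q)) := mul_le_mul_of_nonneg_left hk1 hs0
    have h9 : |s| * |k'| ≤ |s| := mul_le_of_le_one_right hs0 hk0'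
    have h10 : 2 * dv L (L.ex a (s * k')) * dv L g ≤ 2 * |s| * dv L g := by
      refine mul_le_mul_of_nonneg_right ?_ dvg
      linarith
    calc _ ≤ _ := h4
      _ ≤ |s| * (1 / (2 * q)) + 2 * |s| * dv L g := by linarith
      _ = _ := by ring
  have hsd := second_diff (L := L) h h' P
  rw [← e1] at hsd
  have dn := dd_nonneg (L := L) h h'
  have pn := dv_nonneg (L := L) P
  have h11 : dd L h h' ^ 2 ≤ s ^ 2 * (1 / (2 * (q : ℝ) ^ 2) + 8 * dv L g ^ 2) := by
    calc dd L h h' ^ 2 ≤ (|s| * (1 / (2 * q) + 2 * dv L g)) ^ 2 := pow_le_pow_left₀ dn dhh 2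
      _ = s ^ 2 * (1 / (2 * q) + 2 * dv L g) ^ 2 := by rw [mul_pow, sq_abs]
      _ ≤ s ^ 2 * (2 * (1 / (2 * (q : ℝ))) ^ 2 + 2 * (2 * dv L g) ^ 2) := by
          refine mul_le_mul_of_nonneg_left ?_ (sq_nonneg s)
          nlinarith [sq_nonneg (1 / (2 * (q : ℝ)) - 2 * dv L g)]
      _ = _ := by field_simp; ring
  have h12 : dv L P * (dd L h h' * (dv L h + dv L h')) ≤ dd L h h' ^ 2 + s ^ 2 * dv L P ^ 2 := by
    have h13 : dv L P * (dd L h h' * (dv L h + dv L h')) ≤ dv L P * (dd L h h' * (2 * |s|)) := by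
      refine mul_le_mul_of_nonneg_left (mul_le_mul_of_nonneg_left ?_ dn) pn
      linarith
    have h14 : s ^ 2 = |s| ^ 2 := (sq_abs s).symm
    rw [h14]
    nlinarith [sq_nonneg (dd L h h' - |s| * dv L P)]
  unfold BdD
  rw [hgd, ← hP]
  have h15 : s ^ 2 * (1 / (2 * (q : ℝ) ^ 2) + 8 * dv L g ^ 2) +
      s ^ 2 * (1 / (2 * (q : ℝ) ^ 2) + 8 * dv L g ^ 2) =
      s ^ 2 * (1 / (q : ℝ) ^ 2 + 16 * dv L g ^ 2) := by
    field_simp; ring
  linarith

lemma BdD_nonneg (s : ℝ) (U : Ed (e + 3) (2 * m) → G) (x : Fin (e + 3) → ZMod (2 * m))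
    (j : Fin (e + 3)) : 0 ≤ BdD L q s U x j := by
  unfold BdD
  positivity

/-- the second difference of the action -/
theorem act_secondD (hq : 1 ≤ q) (hqm : 4 * q + 1 < 2 * m) (a : Fin n) (s : ℝ)
    (U : Ed (e + 3) (2 * m) → G) :
    act L (PD L q a s U) + act L (PD L q a (-s) U) - 2 * act L U ≤
      ∑ x ∈ SS e m q, ∑ j ∈ Finset.univ.erase (0 : Fin (e + 3)), BdD L q s U x j := by
  unfold act
  rw [Finset.mul_sum, ← Finset.sum_add_distrib, ← Finset.sum_sub_distrib]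
  have h1 : ∀ x : Fin (e + 3) → ZMod (2 * m),
      (∑ i, ∑ j, if i < j then we L (plqT (PD L q a s U) x i j) else 0) +
        (∑ i, ∑ j, if i < j then we L (plqT (PD L q a (-s) U) x i j) else 0) -
        2 * (∑ i, ∑ j, if i < j then we L (plqT U x i j) else 0) =
      ∑ j ∈ Finset.univ.erase (0 : Fin (e + 3)), D2D L q a s U x j := by
    intro x
    rw [Finset.mul_sum, ← Finset.sum_add_distrib, ← Finset.sum_sub_distrib,
      Finset.sum_eq_single (0 : Fin (e + 3))]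
    · rw [Finset.mul_sum, ← Finset.sum_add_distrib, ← Finset.sum_sub_distrib,
        ← Finset.add_sum_erase _ _ (Finset.mem_univ (0 : Fin (e + 3)))]
      simp only [lt_irrefl, if_false, mul_zero, add_zero, sub_zero, zero_add]
      refine Finset.sum_congr rfl fun j hj => ?_
      have hj0 : (0 : Fin (e + 3)) < j := Fin.pos_iff_ne_zero.2 (Finset.mem_erase.1 hj).1
      rw [if_pos hj0, if_pos hj0, if_pos hj0]
      rfl
    · intro i _ hi
      rw [Finset.mul_sum, ← Finset.sum_add_distrib, ← Finset.sum_sub_distrib]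
      refine Finset.sum_eq_zero fun j _ => ?_
      split_ifs with hij
      · have hj : j ≠ 0 := by
          rintro rfl
          exact absurd hij (Fin.not_lt_zero i)
        rw [plq_PD1 _ _ _ _ hi hj, plq_PD1 _ _ _ _ hi hj]
        ring
      · ring
    · simp
  rw [Finset.sum_congr rfl fun x _ => h1 x]
  rw [← Finset.sum_subset (Finset.subset_univ (SS e m q))]
  · refine Finset.sum_le_sum fun x hx => Finset.sum_le_sum fun j hj => ?_
    refine D2D_le hq a s U (Finset.mem_erase.1 hj).1 ?_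
    have := (Finset.mem_filter.1 hx).2 j
    omega
  · intro x _ hx
    refine Finset.sum_eq_zero fun j hj => ?_
    have hj0 := (Finset.mem_erase.1 hj).1
    obtain ⟨h2, h3⟩ := kk_box hq hqm hj0 hx
    exact D2D_zero a s U hj0 h2 h3


/-- the constant -/
def CE2 (e N : ℕ) : ℝ := 5 ^ (e + 3) * (e + 3) * (1 + 256 * CM e N + 2 * N ^ 2)

lemma CM_nonneg (e N : ℕ) : 0 ≤ CM e N := by unfold CM; positivity

/-- **the energy of the shift** -/
theorem XD_bound (he : 1 ≤ e) (hm : 2 ≤ m) (hN : 1 ≤ N) {β : ℝ} (hq : 1 ≤ q)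
    (hqm : 32 * q ≤ 2 * m) (hβ : (q : ℝ) ^ 2 * lg2 q ≤ β) (a : Fin n) (s : ℝ) :
    EX μ L β (fun U : Ed (e + 3) (2 * m) → G => XD L β q a s U) ≤
      CE2 e N * (s ^ 2 * β * (q : ℝ) ^ (e + 1)) := by
  have hq1 : (1 : ℝ) ≤ q := by exact_mod_cast hq
  have hq0 : (0 : ℝ) < q := by linarith
  have hlg : (1 : ℝ) ≤ lg2 q := by
    have : 1 ≤ lg2 q := by unfold lg2; omega
    exact_mod_cast this
  have hβ0 : 0 < β := lt_of_lt_of_le (by positivity) hβ
  have hqβ : (q : ℝ) ^ 2 ≤ β := (le_mul_of_one_le_right (by positivity) hlg).trans hβ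
  have hCM := CM_nonneg e N
  have hX := fun s => XD_cont (L := L) (q := q) (e := e) (m := m) β a s
  have hXn := EX_XD_nonneg μ (L := L) (e := e) (m := m) (β := β) hq a (-s)
  have hpl : ∀ (x : Fin (e + 3) → ZMod (2 * m)) (j : Fin (e + 3)),
      Continuous fun U : Ed (e + 3) (2 * m) → G => plqT U x 0 j := fun x j => by
    unfold plqT; fun_prop
  have hBc1 : ∀ (x : Fin (e + 3) → ZMod (2 * m)) (j : Fin (e + 3)),
      Continuous fun U : Ed (e + 3) (2 * m) → G =>
        dd L (DT q U x * U (x, j)) (DT q U (x + eT j)) ^ 2 := fun x j =>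
    (dd_cont ((DT_cont x).mul (continuous_apply _)) (DT_cont _)).pow 2
  have hBc2 : ∀ (x : Fin (e + 3) → ZMod (2 * m)) (j : Fin (e + 3)),
      Continuous fun U : Ed (e + 3) (2 * m) → G => dv L (plqT U x 0 j) ^ 2 := fun x j =>
    (dv_cont.comp (hpl x j)).pow 2
  have hBc : ∀ (x : Fin (e + 3) → ZMod (2 * m)) (j : Fin (e + 3)),
      Continuous fun U : Ed (e + 3) (2 * m) → G => BdD L q s U x j := fun x j => by
    unfold BdD
    exact continuous_const.mul ((continuous_const.add (continuous_const.mul (hBc1 x j))).add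
      (hBc2 x j))
  have h1 : EX μ L β (fun U : Ed (e + 3) (2 * m) → G => XD L β q a s U) ≤
      EX μ L β (fun U : Ed (e + 3) (2 * m) → G => β *
        ∑ x ∈ SS e m q, ∑ j ∈ Finset.univ.erase (0 : Fin (e + 3)), BdD L q s U x j) := by
    have h2 : EX μ L β (fun U : Ed (e + 3) (2 * m) → G => XD L β q a s U) ≤
        EX μ L β (fun U : Ed (e + 3) (2 * m) → G => XD L β q a s U + XD L β q a (-s) U) := by
      rw [EX_add μ (hX s) (hX (-s))]
      linarith
    refine h2.trans (EX_mono μ ((hX s).add (hX (-s))) (continuous_const.mul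
      (continuous_finsetSum _ fun x _ => continuous_finsetSum _ fun j _ => hBc x j)) fun U => ?_)
    have h3 := mul_le_mul_of_nonneg_left (act_secondD (L := L) hq (by omega) a s U) hβ0.le
    refine le_trans (le_of_eq ?_) h3
    unfold XD
    ring
  have hBe : ∀ x ∈ SS e m q, ∀ j ∈ Finset.univ.erase (0 : Fin (e + 3)),
      EX μ L β (fun U : Ed (e + 3) (2 * m) → G => BdD L q s U x j) ≤
      s ^ 2 * (1 / (q : ℝ) ^ 2 + 2 * N ^ 2 / β) + s ^ 2 * 16 *
        EX μ L β (fun U : Ed (e + 3) (2 * m) → G =>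
        dd L (DT q U x * U (x, j)) (DT q U (x + eT j)) ^ 2) := by
    intro x hx j hj
    have hj0 := (Finset.mem_erase.1 hj).1
    unfold BdD
    have c1 : Continuous fun U : Ed (e + 3) (2 * m) → G => (1 / (q : ℝ) ^ 2 +
        16 * dd L (DT q U x * U (x, j)) (DT q U (x + eT j)) ^ 2) :=
      continuous_const.add (continuous_const.mul (hBc1 x j))
    have c2 : Continuous fun U : Ed (e + 3) (2 * m) → G =>
        16 * dd L (DT q U x * U (x, j)) (DT q U (x + eT j)) ^ 2 := continuous_const.mul (hBc1 x j)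
    rw [EX_smul, EX_add μ c1 (hBc2 x j), EX_add μ continuous_const c2, EX_smul, EX_const]
    have h5 := plaq_bound μ (L := L) hm hβ0 hj0.symm x
    have h6 := mul_le_mul_of_nonneg_left h5 (sq_nonneg s)
    linarith
  refine h1.trans ?_
  have hs1 : EX μ L β (fun U : Ed (e + 3) (2 * m) → G =>
      ∑ x ∈ SS e m q, ∑ j ∈ Finset.univ.erase (0 : Fin (e + 3)), BdD L q s U x j) =
      ∑ x ∈ SS e m q, ∑ j ∈ Finset.univ.erase (0 : Fin (e + 3)),
        EX μ L β (fun U : Ed (e + 3) (2 * m) → G => BdD L q s U x j) := by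
    rw [EX_sum μ (SS e m q) (F := fun x (U : Ed (e + 3) (2 * m) → G) =>
      ∑ j ∈ Finset.univ.erase (0 : Fin (e + 3)), BdD L q s U x j)
      fun x _ => continuous_finsetSum _ fun j _ => hBc x j]
    refine Finset.sum_congr rfl fun x _ => ?_
    rw [EX_sum μ _ (F := fun j (U : Ed (e + 3) (2 * m) → G) => BdD L q s U x j)
      fun j _ => hBc x j]
  rw [EX_smul, hs1]
  obtain ⟨V, hV⟩ : ∃ V : ℝ, V = s ^ 2 * (1 / (q : ℝ) ^ 2 + 2 * N ^ 2 / β) := ⟨_, rfl⟩
  have hV0 : 0 ≤ V := by rw [hV]; positivity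
  rw [← hV] at hBe
  obtain ⟨W, hW⟩ : ∃ W : ℝ, W = (4 * (q : ℝ) + 1) ^ (e + 2) * (16 * CM e N * (q * lg2 q) / β) :=
    ⟨_, rfl⟩
  have hW0 : 0 ≤ W := by rw [hW]; positivity
  have hce : ((Finset.univ.erase (0 : Fin (e + 3))).card : ℝ) ≤ e + 3 := by
    rw [Finset.card_erase_of_mem (Finset.mem_univ _), Finset.card_univ, Fintype.card_fin]
    have : e + 3 - 1 = e + 2 := rfl
    rw [this]
    push_cast
    linarith
  have h6 : ∑ x ∈ SS e m q, ∑ j ∈ Finset.univ.erase (0 : Fin (e + 3)),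
      EX μ L β (fun U : Ed (e + 3) (2 * m) → G => BdD L q s U x j) ≤
      (4 * q + 1) ^ (e + 3) * ((e + 3) * V) + s ^ 2 * 16 * ((e + 3) * W) := by
    calc _ ≤ ∑ x ∈ SS e m q, ∑ j ∈ Finset.univ.erase (0 : Fin (e + 3)), (V + s ^ 2 * 16 *
          EX μ L β (fun U : Ed (e + 3) (2 * m) → G =>
          dd L (DT q U x * U (x, j)) (DT q U (x + eT j)) ^ 2)) :=
          Finset.sum_le_sum fun x hx => Finset.sum_le_sum fun j hj => hBe x hx j hj
      _ = ((SS e m q).card : ℝ) * (((Finset.univ.erase (0 : Fin (e + 3))).card : ℝ) * V) +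
          s ^ 2 * 16 * ∑ j ∈ Finset.univ.erase (0 : Fin (e + 3)), ∑ x ∈ SS e m q,
          EX μ L β (fun U : Ed (e + 3) (2 * m) → G =>
          dd L (DT q U x * U (x, j)) (DT q U (x + eT j)) ^ 2) := by
          simp only [Finset.sum_add_distrib, Finset.sum_const, nsmul_eq_mul, ← Finset.mul_sum]
          rw [Finset.sum_comm]
      _ ≤ _ := by
          have h7 : ((SS e m q).card : ℝ) ≤ (4 * q + 1) ^ (e + 3) := by
            exact_mod_cast card_SS (e := e) (m := m) (q := q)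
          refine add_le_add (mul_le_mul h7 (mul_le_mul_of_nonneg_right hce hV0) (by positivity)
            (by positivity)) (mul_le_mul_of_nonneg_left ?_ (by positivity))
          calc _ ≤ ∑ j ∈ Finset.univ.erase (0 : Fin (e + 3)), W :=
                Finset.sum_le_sum fun j hj => by
                  rw [hW]
                  exact mis_sum μ he hm hN hβ0 hq hqm (Finset.mem_erase.1 hj).1
            _ = ((Finset.univ.erase (0 : Fin (e + 3))).card : ℝ) * W := by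
                rw [Finset.sum_const, nsmul_eq_mul]
            _ ≤ _ := mul_le_mul_of_nonneg_right hce hW0
  refine (mul_le_mul_of_nonneg_left h6 hβ0.le).trans ?_
  obtain ⟨F, hF⟩ : ∃ F : ℝ, F = (5 : ℝ) ^ (e + 3) := ⟨_, rfl⟩
  obtain ⟨P, hP⟩ : ∃ P : ℝ, P = (q : ℝ) ^ (e + 1) := ⟨_, rfl⟩
  have hF0 : 0 < F := by rw [hF]; positivity
  have hP0 : 0 < P := by rw [hP]; positivity
  have h9 : (4 * (q : ℝ) + 1) ^ (e + 3) ≤ F * (P * q ^ 2) := by
    have : F * (P * (q : ℝ) ^ 2) = (5 * (q : ℝ)) ^ (e + 3) := by rw [hF, hP, mul_pow]; ring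
    rw [this]
    exact pow_le_pow_left₀ (by positivity) (by linarith) _
  have h9' : (4 * (q : ℝ) + 1) ^ (e + 2) ≤ F * (P * q) := by
    have h10 : (4 * (q : ℝ) + 1) ^ (e + 2) ≤ (5 * (q : ℝ)) ^ (e + 2) :=
      pow_le_pow_left₀ (by positivity) (by linarith) _
    have h11 : (5 * (q : ℝ)) ^ (e + 2) = 5 ^ (e + 2) * (P * q) := by rw [hP, mul_pow]; ring
    have h12 : (5 : ℝ) ^ (e + 2) ≤ F := by
      rw [hF]; exact pow_le_pow_right₀ (by norm_num) (by omega)
    rw [h11] at h10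
    exact h10.trans (mul_le_mul_of_nonneg_right h12 (by positivity))
  have k1 : β * ((4 * (q : ℝ) + 1) ^ (e + 3) * ((e + 3) * V)) ≤
      F * (e + 3) * (1 + 2 * N ^ 2) * (s ^ 2 * β * P) := by
    have k2 : (q : ℝ) ^ 2 * (β * V) ≤ s ^ 2 * ((1 + 2 * N ^ 2) * β) := by
      have e1 : (q : ℝ) ^ 2 * (β * V) = s ^ 2 * (β + 2 * N ^ 2 * (q : ℝ) ^ 2) := by
        rw [hV]; field_simp
      rw [e1]
      refine mul_le_mul_of_nonneg_left ?_ (sq_nonneg s)
      have := mul_le_mul_of_nonneg_left hqβ (show (0 : ℝ) ≤ 2 * (N : ℝ) ^ 2 by positivity)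
      linarith
    calc β * ((4 * (q : ℝ) + 1) ^ (e + 3) * ((e + 3) * V)) =
          (4 * (q : ℝ) + 1) ^ (e + 3) * ((e + 3) * (β * V)) := by ring
      _ ≤ F * (P * q ^ 2) * ((e + 3) * (β * V)) :=
          mul_le_mul_of_nonneg_right h9 (by positivity)
      _ = F * (e + 3) * P * ((q : ℝ) ^ 2 * (β * V)) := by ring
      _ ≤ F * (e + 3) * P * (s ^ 2 * ((1 + 2 * N ^ 2) * β)) :=
          mul_le_mul_of_nonneg_left k2 (by positivity)
      _ = _ := by ring
  have k3 : β * (s ^ 2 * 16 * ((e + 3) * W)) ≤ F * (e + 3) * (256 * CM e N) * (s ^ 2 * β * P) := by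
    have e1 : β * (s ^ 2 * 16 * ((e + 3) * W)) = s ^ 2 * (e + 3) * (256 * CM e N) *
        ((4 * (q : ℝ) + 1) ^ (e + 2) * (q * lg2 q)) := by
      rw [hW]; field_simp; ring
    rw [e1]
    have k4 : (4 * (q : ℝ) + 1) ^ (e + 2) * (q * lg2 q) ≤ F * P * β := by
      calc _ ≤ F * (P * q) * (q * lg2 q) := mul_le_mul_of_nonneg_right h9' (by positivity)
        _ = F * P * ((q : ℝ) ^ 2 * lg2 q) := by ring
        _ ≤ F * P * β := mul_le_mul_of_nonneg_left hβ (by positivity)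
    calc _ ≤ s ^ 2 * (e + 3) * (256 * CM e N) * (F * P * β) :=
          mul_le_mul_of_nonneg_left k4 (by positivity)
      _ = _ := by ring
  calc β * ((4 * (q : ℝ) + 1) ^ (e + 3) * ((e + 3) * V) + s ^ 2 * 16 * ((e + 3) * W)) =
        β * ((4 * (q : ℝ) + 1) ^ (e + 3) * ((e + 3) * V)) + β * (s ^ 2 * 16 * ((e + 3) * W)) := by
        ring
    _ ≤ F * (e + 3) * (1 + 2 * N ^ 2) * (s ^ 2 * β * P) +
        F * (e + 3) * (256 * CM e N) * (s ^ 2 * β * P) := add_le_add k1 k3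
    _ = _ := by unfold CE2; rw [← hF, ← hP]; ring

lemma CE2_ge (e N : ℕ) : 1 ≤ CE2 e N := by
  unfold CE2
  have h1 : (1 : ℝ) ≤ 5 ^ (e + 3) := one_le_pow₀ (by norm_num)
  have h2 : (1 : ℝ) ≤ (e : ℝ) + 3 := by
    have : (0 : ℝ) ≤ e := Nat.cast_nonneg e
    linarith
  have h3 : (1 : ℝ) ≤ 1 + 256 * CM e N + 2 * N ^ 2 := by
    have := CM_nonneg e N
    have : (0 : ℝ) ≤ 256 * CM e N + 2 * (N : ℝ) ^ 2 := by positivity
    linarith
  have h4 : (1 : ℝ) ≤ 5 ^ (e + 3) * ((e : ℝ) + 3) := one_le_mul_of_one_le_of_one_le h1 h2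
  exact one_le_mul_of_one_le_of_one_le h4 h3

end

end Pool.Agent.U319
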