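import Mathlib
import Pool.Agent.U319.Shf
import Pool.Agent.Y14.Resp2

/-!
# The family of paths
-/

open MeasureTheory Matrix Filter
open scoped Matrix.Norms.Frobenius Topology
open Pool.Agent.H906R3.YM hiding Pl
open Pool.Agent.W793.YM Pool.Agent.TH618.YM Pool.Agent.Y14

namespace Pool.Agent.U319

set_option linter.unusedSectionVars false
set_option linter.unusedVariables false

noncomputable section

/-- the scale -/
def qj (j : ℕ) : ℕ := 2 ^ (j + 1)

lemma qj_pos (j : ℕ) : 1 ≤ qj j := Nat.one_le_two_pow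

lemma qj_two (j : ℕ) : qj j = 2 * 2 ^ j := by unfold qj; rw [pow_succ]; ring

/-- the parameters of the paths -/
abbrev PO (e j : ℕ) := Fin (2 ^ j) × Fin (2 ^ j) × Fin (qj j) × (Fin (e + 1) → Fin (qj j))

variable {e j : ℕ}

/-- the first transversal coordinate -/
def sa (o : PO e j) : ℕ := (o.1 : ℕ) + 1

/-- the second transversal coordinate -/
def sb (o : PO e j) : ℕ := (o.2.1 : ℕ) + 1

/-- the first longitudinal coordinate -/
def ta (o : PO e j) : ℕ := 2 * qj j + (o.2.2.2 0 : ℕ)

/-- the second longitudinal coordinate -/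
def tb (o : PO e j) : ℕ := 4 * qj j + (o.2.2.1 : ℕ)

/-- the other coordinates -/
def vT (o : PO e j) : Fin (e + 3) → ℕ := fun k =>
  if h : 2 ≤ k.val ∧ k.val - 1 < e + 1 then 2 * qj j + (o.2.2.2 ⟨k.val - 1, h.2⟩ : ℕ) else 0

/-- the fan and the part after it -/
def tw (j s t : ℕ) (v : Fin (e + 3) → ℕ) : List (Fin (e + 3)) :=
  R990.fw 1 0 (j + 1) s ++ (List.replicate (t - (qj j + s)) 1 ++ cb v)

/-- the first part -/
def WA (o : PO e j) : List (Fin (e + 3)) := tw j (sa o) (ta o) (vT o)

/-- the last part -/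
def WB (o : PO e j) : List (Fin (e + 3)) := tw j (sb o) (tb o) (vT o)

/-- the side of the rectangle in the direction `0` -/
def r0 (o : PO e j) : ℕ := 2 * qj j + sb o - sa o

/-- the side of the rectangle in the direction `1` -/
def r1 (o : PO e j) : ℕ := tb o - ta o

/-- paths through the box -/
def WP (o : PO e j) : List (Fin (e + 3)) :=
  WA o ++ (List.replicate (r0 o) 0 ++ List.replicate (r1 o) 1)

/-- paths around the box -/
def WQ (o : PO e j) : List (Fin (e + 3)) :=
  WA o ++ (List.replicate (r1 o) 1 ++ List.replicate (r0 o) 0)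

/-- the reference paths -/
def WZ (o : PO e j) : List (Fin (e + 3)) := List.replicate (2 * qj j) 0 ++ WB o

lemma sa_le (o : PO e j) : 1 ≤ sa o ∧ 2 * sa o ≤ qj j := by
  unfold sa
  have h1 := qj_two j
  have := o.1.2
  omega

lemma sb_le (o : PO e j) : 1 ≤ sb o ∧ 2 * sb o ≤ qj j := by
  unfold sb
  have h1 := qj_two j
  have := o.2.1.2
  omega

lemma ta_le (o : PO e j) : 2 * qj j ≤ ta o ∧ ta o < 3 * qj j := by
  unfold ta
  have := (o.2.2.2 0).2
  omega

lemma tb_le (o : PO e j) : 4 * qj j ≤ tb o ∧ tb o < 5 * qj j := by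
  unfold tb
  have := o.2.2.1.2
  omega

lemma count_fw {d : ℕ} {i k : Fin d} (hik : i ≠ k) (r v : ℕ) (hv : v < 2 ^ r) (c : Fin d) :
    (R990.fw i k r v).count c = if c = i then 2 ^ r + v else if c = k then v else 0 := by
  induction r generalizing v with
  | zero =>
    have hv0 : v = 0 := by simpa using hv
    subst hv0
    unfold R990.fw
    by_cases h : c = i
    · subst h; simp
    · have h' : ¬i = c := fun h1 => h h1.symm
      simp [h, h']
  | succ r ih =>
    rw [R990.fw_succ, List.count_append, List.count_append, ih (v / 2) (by rw [pow_succ] at hv; omega),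
      List.count_replicate, List.count_replicate]
    have hp : 2 ^ (r + 1) = 2 * 2 ^ r := by rw [pow_succ]; ring
    by_cases h : c = i
    · subst h
      have h' : ¬k = c := fun h1 => hik h1.symm
      simp only [if_true, beq_self_eq_true, beq_iff_eq, h', if_false]
      omega
    · have h1 : ¬i = c := fun h1 => h h1.symm
      by_cases h2 : c = k
      · subst h2
        simp only [h, if_false, if_true, beq_self_eq_true, beq_iff_eq, h1]
        omega
      · have h3 : ¬k = c := fun h1 => h2 h1.symm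
        simp [h, h1, h2, h3]

lemma count_tw {s t : ℕ} {v : Fin (e + 3) → ℕ} (hs : s < qj j) (ht : qj j + s ≤ t)
    (c : Fin (e + 3)) :
    (tw j s t v).count c = (if c = 1 then t else if c = 0 then s else 0) + v c := by
  unfold tw
  rw [List.count_append, List.count_append, count_fw one_ne (j + 1) s hs, count_cb,
    List.count_replicate]
  by_cases h : c = 1
  · subst h
    simp only [if_true, beq_self_eq_true]
    have : 2 ^ (j + 1) = qj j := rfl
    omega
  · have h1 : ¬(1 : Fin (e + 3)) = c := fun h1 => h h1.symm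
    simp only [h, h1, if_false, beq_iff_eq]
    omega

lemma vT_zero (o : PO e j) : vT o 0 = 0 := by
  unfold vT
  rw [dif_neg]
  simp

lemma vT_one (o : PO e j) : vT o 1 = 0 := by
  unfold vT
  rw [dif_neg]
  have : (1 : Fin (e + 3)).val = 1 := rfl
  omega

lemma vT_last (o : PO e j) : vT o (Fin.last (e + 2)) = 0 := by
  unfold vT
  rw [dif_neg]
  rw [Fin.val_last]
  omega

lemma vT_mid (o : PO e j) {k : Fin (e + 3)} (h0 : k ≠ 0) (h1 : k ≠ 1)
    (h2 : k ≠ Fin.last (e + 2)) : 2 * qj j ≤ vT o k ∧ vT o k < 3 * qj j := by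
  have g0 : k.val ≠ 0 := fun h => h0 (Fin.ext h)
  have g1 : k.val ≠ 1 := fun h => h1 (Fin.ext h)
  have g2 : k.val ≠ e + 2 := fun h => h2 (Fin.ext h)
  have g3 := k.2
  have g4 : 2 ≤ k.val ∧ k.val - 1 < e + 1 := by omega
  unfold vT
  rw [dif_pos g4]
  have := (o.2.2.2 ⟨k.val - 1, g4.2⟩).2
  omega

lemma vT_le (o : PO e j) (k : Fin (e + 3)) : vT o k ≤ 3 * qj j := by
  by_cases h0 : k = 0
  · rw [h0, vT_zero]; omega
  · by_cases h1 : k = 1
    · rw [h1, vT_one]; omega
    · by_cases h2 : k = Fin.last (e + 2)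
      · rw [h2, vT_last]; omega
      · exact (vT_mid o h0 h1 h2).2.le

lemma count_WA (o : PO e j) (c : Fin (e + 3)) :
    (WA o).count c = (if c = 1 then ta o else if c = 0 then sa o else 0) + vT o c :=
  count_tw (by have := sa_le o; have := qj_pos j; omega)
    (by have := sa_le o; have := ta_le o; omega) c

lemma count_WB (o : PO e j) (c : Fin (e + 3)) :
    (WB o).count c = (if c = 1 then tb o else if c = 0 then sb o else 0) + vT o c :=
  count_tw (by have := sb_le o; have := qj_pos j; omega)
    (by have := sb_le o; have := tb_le o; omega) c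

lemma count_WZ (o : PO e j) (c : Fin (e + 3)) :
    (WZ o).count c = (if c = 1 then tb o else if c = 0 then 2 * qj j + sb o else 0) + vT o c := by
  unfold WZ
  rw [List.count_append, count_WB, List.count_replicate]
  by_cases h0 : c = 0
  · subst h0
    have h1 : ¬((0 : Fin (e + 3)) = 1) := fun h => one_ne h.symm
    simp only [h1, if_false, if_true, beq_self_eq_true]
    omega
  · have h0' : ¬(0 : Fin (e + 3)) = c := fun h1 => h0 h1.symm
    by_cases h1 : c = 1
    · subst h1
      simp [h0']
    · simp [h0, h0', h1]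

lemma count_WP (o : PO e j) (c : Fin (e + 3)) : (WP o).count c = (WZ o).count c := by
  rw [count_WZ]
  unfold WP
  rw [List.count_append, List.count_append, count_WA, List.count_replicate, List.count_replicate]
  have h1 := sa_le o
  have h2 := sb_le o
  have h3 := ta_le o
  have h4 := tb_le o
  by_cases h0 : c = 0
  · subst h0
    have h1' : ¬((0 : Fin (e + 3)) = 1) := fun h => one_ne h.symm
    have h1'' : ¬((1 : Fin (e + 3)) = 0) := one_ne
    simp only [h1', h1'', if_false, if_true, beq_self_eq_true, beq_iff_eq]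
    unfold r0
    omega
  · have h0' : ¬(0 : Fin (e + 3)) = c := fun h1 => h0 h1.symm
    by_cases h1 : c = 1
    · subst h1
      simp only [h0', h0, if_false, if_true, beq_self_eq_true, beq_iff_eq]
      unfold r1
      omega
    · have h1' : ¬(1 : Fin (e + 3)) = c := fun h2 => h1 h2.symm
      simp [h0, h0', h1, h1']

lemma count_WQ (o : PO e j) (c : Fin (e + 3)) : (WQ o).count c = (WZ o).count c := by
  rw [← count_WP]
  unfold WQ WP
  simp only [List.count_append]
  omega

/-- the bound of the coordinates -/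
def mz (e j : ℕ) (c : Fin (e + 3)) : ℕ := if c = Fin.last (e + 2) then 0 else 5 * qj j

lemma WZ_le (o : PO e j) (c : Fin (e + 3)) : (WZ o).count c ≤ mz e j c := by
  rw [count_WZ]
  have h2 := sb_le o
  have h4 := tb_le o
  unfold mz
  by_cases hl : c = Fin.last (e + 2)
  · subst hl
    have h1 : ¬Fin.last (e + 2) = 1 := last_ne1
    have h0 : ¬Fin.last (e + 2) = 0 := last_ne0
    simp only [h1, h0, if_false, if_true, vT_last]
    omega
  · rw [if_neg hl]
    by_cases h1 : c = 1
    · subst h1
      rw [if_pos rfl, vT_one]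
      omega
    · rw [if_neg h1]
      by_cases h0 : c = 0
      · subst h0
        rw [if_pos rfl, vT_zero]
        omega
      · rw [if_neg h0]
        have := vT_le o c
        omega

lemma mz_last : mz e j (Fin.last (e + 2)) = 0 := by unfold mz; rw [if_pos rfl]

lemma mz_le (c : Fin (e + 3)) : mz e j c ≤ 5 * qj j := by
  unfold mz; split_ifs <;> omega

lemma len_of {w : List (Fin (e + 3))} (h : ∀ c, w.count c ≤ mz e j c) :
    w.length ≤ 5 * (e + 3) * qj j := by
  rw [length_count]
  calc _ ≤ ∑ _c : Fin (e + 3), 5 * qj j := Finset.sum_le_sum fun c _ => (h c).trans (mz_le c)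
    _ = _ := by rw [Finset.sum_const, Finset.card_univ, Fintype.card_fin, smul_eq_mul]; ring

lemma ne_last {w : List (Fin (e + 3))} (h : ∀ c, w.count c ≤ mz e j c) :
    ∀ i ∈ w, i ≠ Fin.last (e + 2) := by
  rintro i hi rfl
  have h1 := List.count_pos_iff.2 hi
  have h2 := h (Fin.last (e + 2))
  rw [mz_last] at h2
  omega

lemma WP_le (o : PO e j) (c : Fin (e + 3)) : (WP o).count c ≤ mz e j c := by
  rw [count_WP]; exact WZ_le o c

lemma WQ_le (o : PO e j) (c : Fin (e + 3)) : (WQ o).count c ≤ mz e j c := by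
  rw [count_WQ]; exact WZ_le o c

lemma WB_le (o : PO e j) (c : Fin (e + 3)) : (WB o).count c ≤ mz e j c := by
  refine le_trans ?_ (WZ_le o c)
  unfold WZ
  rw [List.count_append]
  omega

lemma WA_le (o : PO e j) (c : Fin (e + 3)) : (WA o).count c ≤ mz e j c := by
  refine le_trans ?_ (WP_le o c)
  unfold WP
  rw [List.count_append]
  omega

section gen

variable {A : Type*} [AddCommGroup A] (u : Fin (e + 3) → A)

lemma dsp_eq_of {w w' : List (Fin (e + 3))} (h : ∀ c, w.count c = w'.count c) :
    dsp u w = dsp u w' := by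
  rw [dsp_count, dsp_count]
  exact Finset.sum_congr rfl fun c _ => by rw [h]

lemma end_P (o : PO e j) (x : A) :
    x + dsp u (WP o) = x + (2 * qj j) • u 0 + dsp u (WB o) := by
  rw [dsp_eq_of u (count_WP o)]
  unfold WZ
  rw [dsp_append, dsp_rep, add_assoc]

lemma end_Q (o : PO e j) (x : A) :
    x + dsp u (WQ o) = x + (2 * qj j) • u 0 + dsp u (WB o) := by
  rw [dsp_eq_of u (count_WQ o)]
  unfold WZ
  rw [dsp_append, dsp_rep, add_assoc]

variable {G : Type*} [Group G] [TopologicalSpace G] {N n : ℕ} (L : LD G N n)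

/-- the transport along a path and back along the reference path -/
def lp (w wb : List (Fin (e + 3))) (j : ℕ) (U : A × Fin (e + 3) → G) (x : A) : G :=
  tp u U x w * (tp u U (x + (2 * qj j) • u 0) wb)⁻¹

/-- the field -/
def ph (j : ℕ) (U : A × Fin (e + 3) → G) (x : A) : Mat N :=
  ((Fintype.card (PO e j) : ℝ))⁻¹ • ∑ o : PO e j,
    (L.rho (lp u (WP o) (WB o) j U x) - L.rho (lp u (WQ o) (WB o) j U x))

variable {u L}

lemma lp_gauge (γ : A → G) (U : A × Fin (e + 3) → G) (x : A) {w wb : List (Fin (e + 3))}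
    (h : x + dsp u w = x + (2 * qj j) • u 0 + dsp u wb) :
    lp u w wb j (fun f => γ f.1 * U f * (γ (f.1 + u f.2))⁻¹) x =
      γ x * lp u w wb j U x * (γ (x + (2 * qj j) • u 0))⁻¹ := by
  unfold lp
  rw [tp_gauge, tp_gauge, h]
  group

lemma ph_gauge (γ : A → G) (U : A × Fin (e + 3) → G) (x : A) :
    ph u L j (fun f => γ f.1 * U f * (γ (f.1 + u f.2))⁻¹) x =
      L.rho (γ x) * ph u L j U x * L.rho (γ (x + (2 * qj j) • u 0))⁻¹ := by
  unfold ph
  rw [mul_smul_comm, smul_mul_assoc, Finset.mul_sum, Finset.sum_mul]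
  congr 1
  refine Finset.sum_congr rfl fun o _ => ?_
  rw [lp_gauge γ U x (end_P u o x), lp_gauge γ U x (end_Q u o x), mul_sub, sub_mul, map_mul,
    map_mul, map_mul, map_mul]

lemma ph_map {A' : Type*} [AddCommGroup A'] {u' : Fin (e + 3) → A'} {U : A × Fin (e + 3) → G}
    {U' : A' × Fin (e + 3) → G} (f : A →+ A') (hu : ∀ i, f (u i) = u' i)
    (hU : ∀ e, U e = U' (f e.1, e.2)) (x : A) : ph u L j U x = ph u' L j U' (f x) := by
  unfold ph lp
  congr 1
  refine Finset.sum_congr rfl fun o _ => ?_
  rw [tp_map f hu hU, tp_map f hu hU, tp_map f hu hU, map_add, map_nsmul, hu]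

lemma ph_shift (U : A × Fin (e + 3) → G) (z x : A) :
    ph u L j (fun f => U (f.1 + z, f.2)) x = ph u L j U (x + z) := by
  unfold ph lp
  congr 1
  refine Finset.sum_congr rfl fun o _ => ?_
  rw [tp_shift, tp_shift, tp_shift, add_right_comm]

lemma ph_congr {U U' : A × Fin (e + 3) → G} {x : A}
    (h : ∀ w1 : List (Fin (e + 3)), (∀ c, w1.count c ≤ mz e j c) → ∀ i, i ≠ Fin.last (e + 2) →
      U (x + dsp u w1, i) = U' (x + dsp u w1, i)) : ph u L j U x = ph u L j U' x := by
  have key : ∀ w : List (Fin (e + 3)), (∀ c, w.count c ≤ mz e j c) →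
      tp u U x w = tp u U' x w := by
    intro w hw
    refine tp_congr fun f hf => ?_
    obtain ⟨w1, w2, h1, h2⟩ := mem_lk hf
    have h3 : f = (x + dsp u w1, f.2) := Prod.ext h2 rfl
    rw [h3]
    refine h w1 (fun c => ?_) f.2 (ne_last hw _ (by rw [h1]; simp))
    refine le_trans ?_ (hw c)
    rw [h1, List.count_append]
    omega
  have key2 : ∀ o : PO e j, tp u U (x + (2 * qj j) • u 0) (WB o) =
      tp u U' (x + (2 * qj j) • u 0) (WB o) := by
    intro o
    refine tp_congr fun f hf => ?_
    obtain ⟨w1, w2, h1, h2⟩ := mem_lk hf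
    have h3 : f = (x + dsp u (List.replicate (2 * qj j) 0 ++ w1), f.2) := by
      refine Prod.ext ?_ rfl
      rw [h2, dsp_append, dsp_rep, add_assoc]
    rw [h3]
    refine h _ (fun c => ?_) f.2 (ne_last (WB_le o) _ (by rw [h1]; simp))
    refine le_trans ?_ (WZ_le o c)
    unfold WZ
    rw [h1]
    simp only [List.count_append]
    omega
  unfold ph lp
  congr 1
  refine Finset.sum_congr rfl fun o _ => ?_
  rw [key _ (WP_le o), key _ (WQ_le o), key2 o]

end gen

end

end Pool.Agent.U319
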