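import Mathlib
import Pool.Agent.U319.Pth
import Pool.Agent.Y14.Dif
import Pool.Agent.R990.Ovl

/-!
# The paths as lists of links
-/

open MeasureTheory Matrix Filter
open scoped Matrix.Norms.Frobenius Topology
open Pool.Agent.H906R3.YM hiding Pl
open Pool.Agent.W793.YM Pool.Agent.TH618.YM Pool.Agent.Y14

namespace Pool.Agent.U319

set_option linter.unusedSectionVars false
set_option linter.unusedVariables false

noncomputable section

variable {e m j : ℕ}

/-- the first base point -/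
def b1 (e m : ℕ) : Fin (e + 3) → ZMod (2 * m) := eT (Fin.last (e + 2))

/-- the second base point -/
def b2 (e m j : ℕ) : Fin (e + 3) → ZMod (2 * m) := b1 e m + (2 * qj j) • eT 0

/-- the fan -/
def hd (e j s : ℕ) : List (Fin (e + 3)) := R990.fw 1 0 (j + 1) s

/-- the part after the fan -/
def tl (j s t : ℕ) (v : Fin (e + 3) → ℕ) : List (Fin (e + 3)) :=
  List.replicate (t - (qj j + s)) 1 ++ cb v

lemma tw_eq (j s t : ℕ) (v : Fin (e + 3) → ℕ) : tw j s t v = hd e j s ++ tl j s t v := rfl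

/-- the fan of the first part -/
def A1 (m : ℕ) (o : PO e j) : List (Ed (e + 3) (2 * m)) := lk eT (b1 e m) (hd e j (sa o))

/-- the rest of the first part -/
def A2 (m : ℕ) (o : PO e j) : List (Ed (e + 3) (2 * m)) :=
  lk eT (b1 e m + dsp eT (hd e j (sa o))) (tl j (sa o) (ta o) (vT o))

/-- the fan of the last part -/
def B1 (m : ℕ) (o : PO e j) : List (Ed (e + 3) (2 * m)) := lk eT (b2 e m j) (hd e j (sb o))

/-- the rest of the last part -/
def B2 (m : ℕ) (o : PO e j) : List (Ed (e + 3) (2 * m)) :=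
  lk eT (b2 e m j + dsp eT (hd e j (sb o))) (tl j (sb o) (tb o) (vT o))

/-- the base point of the rectangle -/
def yy (m : ℕ) (o : PO e j) : Fin (e + 3) → ZMod (2 * m) := b1 e m + dsp eT (WA o)

/-- the corner of the rectangle -/
def yv (m : ℕ) (o : PO e j) : Fin (e + 3) → ZMod (2 * m) :=
  b1 e m + dsp eT (WA o ++ List.replicate (r0 o) 0)

/-- the corner of the rectangle -/
def ys (m : ℕ) (o : PO e j) : Fin (e + 3) → ZMod (2 * m) :=
  b1 e m + dsp eT (WA o ++ List.replicate (r1 o) 1)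

/-- the sides of the rectangle -/
def lR (m : ℕ) (o : PO e j) : List (Ed (e + 3) (2 * m)) :=
  lk eT (yy m o) (List.replicate (r0 o) 0)

/-- the sides of the rectangle -/
def lV (m : ℕ) (o : PO e j) : List (Ed (e + 3) (2 * m)) :=
  lk eT (yv m o) (List.replicate (r1 o) 1)

/-- the sides of the rectangle -/
def lV' (m : ℕ) (o : PO e j) : List (Ed (e + 3) (2 * m)) :=
  lk eT (yy m o) (List.replicate (r1 o) 1)

/-- the sides of the rectangle -/
def lR' (m : ℕ) (o : PO e j) : List (Ed (e + 3) (2 * m)) :=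
  lk eT (ys m o) (List.replicate (r0 o) 0)

lemma lk_WA (o : PO e j) : lk eT (b1 e m) (WA o) = A1 m o ++ A2 m o := by
  unfold WA A1 A2
  rw [tw_eq, lk_append]

lemma lk_WB (o : PO e j) : lk eT (b2 e m j) (WB o) = B1 m o ++ B2 m o := by
  unfold WB B1 B2
  rw [tw_eq, lk_append]

lemma lk_RV (o : PO e j) : lR m o ++ lV m o =
    lk eT (yy m o) (List.replicate (r0 o) 0 ++ List.replicate (r1 o) 1) := by
  unfold lR lV yy yv
  rw [lk_append, dsp_append, ← add_assoc]

lemma lk_VR (o : PO e j) : lV' m o ++ lR' m o =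
    lk eT (yy m o) (List.replicate (r1 o) 1 ++ List.replicate (r0 o) 0) := by
  unfold lR' lV' yy ys
  rw [lk_append, dsp_append, ← add_assoc]

lemma lk_WP (o : PO e j) : lk eT (b1 e m) (WP o) =
    (A1 m o ++ A2 m o) ++ (lR m o ++ lV m o) := by
  rw [← lk_WA, lk_RV]
  unfold WP yy
  rw [lk_append]

lemma lk_WQ (o : PO e j) : lk eT (b1 e m) (WQ o) =
    (A1 m o ++ A2 m o) ++ (lV' m o ++ lR' m o) := by
  rw [← lk_WA, lk_VR]
  unfold WQ yy
  rw [lk_append]

/-! ### coordinates -/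

lemma pos_b1 (w : List (Fin (e + 3))) {c : Fin (e + 3)} (hc : c ≠ Fin.last (e + 2)) :
    ((b1 e m + dsp eT w : Fin (e + 3) → ZMod (2 * m)) c) = (w.count c : ℕ) := pos_apply w hc

lemma pos_b2 (w : List (Fin (e + 3))) {c : Fin (e + 3)} (hc : c ≠ Fin.last (e + 2)) :
    ((b2 e m j + dsp eT w : Fin (e + 3) → ZMod (2 * m)) c) =
      ((List.replicate (2 * qj j) 0 ++ w).count c : ℕ) := by
  rw [← pos_b1 _ hc]
  unfold b2
  rw [dsp_append, dsp_rep, add_assoc]

lemma vT_jj (o : PO e j) {k : Fin (e + 1)} (hk : k ≠ 0) :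
    vT o (jj k) = 2 * qj j + (o.2.2.2 k : ℕ) := by
  have h1 : k.val ≠ 0 := fun h => hk (Fin.ext h)
  have h2 : 2 ≤ (jj k).val ∧ (jj k).val - 1 < e + 1 := by
    have := k.2
    simp only [jj]
    omega
  unfold vT
  rw [dif_pos h2]
  rfl

lemma count_hd_ne {j s : ℕ} (hs : s < qj j) {c : Fin (e + 3)} (h1 : c ≠ 1) (h0 : c ≠ 0) :
    (hd e j s).count c = 0 := by
  unfold hd
  rw [count_fw one_ne (j + 1) s hs, if_neg h1, if_neg h0]

lemma count_tl0 (o : PO e j) (s t : ℕ) : (tl j s t (vT o)).count 0 = 0 := by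
  unfold tl
  rw [List.count_append, count_cb, vT_zero, count_rep_ne (Ne.symm one_ne)]

/-- the links of `WB` in the directions `0`, `1` -/
lemma WB_dir {o : PO e j} {f : Ed (e + 3) (2 * m)} (hf : f ∈ lk eT (b2 e m j) (WB o))
    (h01 : f.2 = 0 ∨ f.2 = 1) {k : Fin (e + 1)} (hk : k ≠ 0) : f.1 (jj k) = 0 := by
  have hsb := sb_le o
  have hq := qj_pos j
  have hsq : sb o < qj j := by omega
  rw [lk_WB, List.mem_append] at hf
  have hj0 := jj_ne0 k
  have hj1 := jj_ne1 hk
  rcases hf with hf | hf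
  · unfold B1 at hf
    obtain ⟨w1, w2, h1, h2⟩ := mem_lk hf
    rw [h2, pos_b2 _ (jj_nel k), List.count_append, count_rep_ne hj0]
    have h3 := count_hd_ne (e := e) hsq hj1 hj0
    rw [h1, List.count_append] at h3
    have h4 : w1.count (jj k) = 0 := by omega
    rw [h4]
    simp
  · unfold B2 tl at hf
    rw [lk_append, List.mem_append] at hf
    rcases hf with hf | hf
    · obtain ⟨w1, w2, h1, h2⟩ := mem_lk hf
      have h5 : f.1 = b2 e m j + dsp eT (hd e j (sb o) ++ w1) := by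
        rw [h2, dsp_append, add_assoc]
      have h4 : w1.count (jj k) = 0 := by
        have h3 := count_rep_ne hj1 (tb o - (qj j + sb o))
        rw [h1, List.count_append] at h3
        omega
      rw [h5, pos_b2 _ (jj_nel k), List.count_append, count_rep_ne hj0, List.count_append,
        count_hd_ne (e := e) hsq hj1 hj0, h4]
      simp
    · exfalso
      have h1 := lk_dir hf
      unfold cb at h1
      have h2 := (mem_cmb h1).2
      rcases h01 with h | h
      · rw [h] at h2; exact h2 (vT_zero o)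
      · rw [h] at h2; exact h2 (vT_one o)

lemma rep_dir {y : Fin (e + 3) → ZMod (2 * m)} {a b : ℕ} {c d : Fin (e + 3)}
    {f : Ed (e + 3) (2 * m)} (h : f ∈ lk eT y (List.replicate a c ++ List.replicate b d)) :
    f.2 = c ∨ f.2 = d := by
  have h1 := lk_dir h
  rw [List.mem_append, List.mem_replicate, List.mem_replicate] at h1
  tauto

variable [NeZero m]

lemma dsj_A (h5 : 5 * qj j < 2 * m) {o : PO e j} {f : Ed (e + 3) (2 * m)}
    (hf : f ∈ lk eT (b1 e m) (WA o)) : f ∉ lk eT (b2 e m j) (WB o) := by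
  intro hf'
  obtain ⟨w1, w2, h1, h2⟩ := mem_lk hf
  obtain ⟨w1', w2', h1', h2'⟩ := mem_lk hf'
  have hsa := sa_le o
  have hsb := sb_le o
  have hq := qj_pos j
  have e1 := pos_b1 (m := m) w1 (zero_nel (e := e))
  have e2 := pos_b2 (m := m) (j := j) w1' (zero_nel (e := e))
  rw [← h2] at e1
  rw [← h2', e1, List.count_append, List.count_replicate_self] at e2
  have c1 := count_WA o 0
  have c2 := count_WB o 0
  rw [h1, List.count_append, vT_zero, if_neg (Ne.symm one_ne), if_pos rfl] at c1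
  rw [h1', List.count_append, vT_zero, if_neg (Ne.symm one_ne), if_pos rfl] at c2
  have h3 := cast_inj' e2 (by omega) (by omega)
  omega

lemma dsj_R (h5 : 5 * qj j < 2 * m) (he : 1 ≤ e) {o : PO e j} {w : List (Fin (e + 3))}
    {a b : ℕ} {c d : Fin (e + 3)} (hw : w = List.replicate a c ++ List.replicate b d)
    (hc : c = 0 ∨ c = 1) (hd' : d = 0 ∨ d = 1) {f : Ed (e + 3) (2 * m)}
    (hf : f ∈ lk eT (yy m o) w) : f ∉ lk eT (b2 e m j) (WB o) := by
  intro hf'
  have hk : (⟨1, by omega⟩ : Fin (e + 1)) ≠ 0 := fun h => by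
    have := congrArg Fin.val h; simp at this
  have hdir : f.2 = 0 ∨ f.2 = 1 := by
    rw [hw] at hf
    rcases rep_dir hf with h | h
    · rw [h]; exact hc
    · rw [h]; exact hd'
  have h1 := WB_dir hf' hdir hk
  obtain ⟨w1, w2, h2, h3⟩ := mem_lk hf
  have h4 : f.1 = b1 e m + dsp eT (WA o ++ w1) := by
    rw [h3]; unfold yy; rw [dsp_append, add_assoc]
  rw [h4, pos_b1 _ (jj_nel _), List.count_append, count_WA, if_neg (jj_ne1 hk),
    if_neg (jj_ne0 _), zero_add, vT_jj o hk] at h1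
  have h5' : w1.count (jj (⟨1, by omega⟩ : Fin (e + 1))) = 0 := by
    have h6 : w.count (jj (⟨1, by omega⟩ : Fin (e + 1))) = 0 := by
      rw [hw, List.count_append, count_rep_ne, count_rep_ne]
      · rcases hd' with h | h
        · rw [h]; exact jj_ne0 _
        · rw [h]; exact jj_ne1 hk
      · rcases hc with h | h
        · rw [h]; exact jj_ne0 _
        · rw [h]; exact jj_ne1 hk
    rw [h2, List.count_append] at h6
    omega
  rw [h5', add_zero] at h1
  have h7 := (o.2.2.2 ⟨1, by omega⟩).2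
  have hq := qj_pos j
  have h8 : ((2 * qj j + (o.2.2.2 ⟨1, by omega⟩ : ℕ) : ℕ) : ZMod (2 * m)) = ((0 : ℕ) : ZMod (2 * m)) := by
    rw [h1]; simp
  have h9 := cast_inj' h8 (by omega) (by omega)
  omega

/-- the paths have no repeated links -/
lemma nodup_P (hm : 5 * (e + 3) * qj j < 2 * m) (he : 1 ≤ e) (o : PO e j) :
    (((A1 m o ++ A2 m o) ++ (lR m o ++ lV m o)) ++ (B1 m o ++ B2 m o)).Nodup := by
  have h5 : 5 * qj j < 2 * m := by nlinarith
  have hn1 : (lk eT (b1 e m) (WP o)).Nodup := lk_nodup _ (lt_of_le_of_lt (len_of (WP_le o)) hm)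
  have hn2 : (lk eT (b2 e m j) (WB o)).Nodup := lk_nodup _ (lt_of_le_of_lt (len_of (WB_le o)) hm)
  rw [lk_WP] at hn1
  rw [lk_WB] at hn2
  rw [List.nodup_append]
  refine ⟨hn1, hn2, ?_⟩
  intro f hf f' hf' hff
  subst hff
  rw [← lk_WB] at hf'
  rw [List.mem_append] at hf
  rcases hf with hf | hf
  · rw [← lk_WA] at hf
    exact dsj_A h5 hf hf'
  · rw [lk_RV] at hf
    exact dsj_R h5 he rfl (Or.inl rfl) (Or.inr rfl) hf hf'

lemma nodup_Q (hm : 5 * (e + 3) * qj j < 2 * m) (he : 1 ≤ e) (o : PO e j) :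
    (((A1 m o ++ A2 m o) ++ (lV' m o ++ lR' m o)) ++ (B1 m o ++ B2 m o)).Nodup := by
  have h5 : 5 * qj j < 2 * m := by nlinarith
  have hn1 : (lk eT (b1 e m) (WQ o)).Nodup := lk_nodup _ (lt_of_le_of_lt (len_of (WQ_le o)) hm)
  have hn2 : (lk eT (b2 e m j) (WB o)).Nodup := lk_nodup _ (lt_of_le_of_lt (len_of (WB_le o)) hm)
  rw [lk_WQ] at hn1
  rw [lk_WB] at hn2
  rw [List.nodup_append]
  refine ⟨hn1, hn2, ?_⟩
  intro f hf f' hf' hff
  subst hff
  rw [← lk_WB] at hf'
  rw [List.mem_append] at hf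
  rcases hf with hf | hf
  · rw [← lk_WA] at hf
    exact dsj_A h5 hf hf'
  · rw [lk_VR] at hf
    exact dsj_R h5 he rfl (Or.inr rfl) (Or.inl rfl) hf hf'

/-! ### lengths -/

lemma len_P (o : PO e j) : (((A1 m o ++ A2 m o) ++ (lR m o ++ lV m o)) ++
    (B1 m o ++ B2 m o)).length ≤ 10 * (e + 3) * qj j := by
  rw [← lk_WP, ← lk_WB, List.length_append, lk_length, lk_length]
  have h1 := len_of (WP_le o)
  have h2 := len_of (WB_le o)
  calc _ ≤ 5 * (e + 3) * qj j + 5 * (e + 3) * qj j := add_le_add h1 h2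
    _ = _ := by ring

lemma len_Q (o : PO e j) : (((A1 m o ++ A2 m o) ++ (lV' m o ++ lR' m o)) ++
    (B1 m o ++ B2 m o)).length ≤ 10 * (e + 3) * qj j := by
  rw [← lk_WQ, ← lk_WB, List.length_append, lk_length, lk_length]
  have h1 := len_of (WQ_le o)
  have h2 := len_of (WB_le o)
  calc _ ≤ 5 * (e + 3) * qj j + 5 * (e + 3) * qj j := add_le_add h1 h2
    _ = _ := by ring

lemma len_A2 (o : PO e j) : (A2 m o).length ≤ 5 * (e + 3) * qj j := by
  have h1 := len_of (WA_le o)
  have h2 := congrArg List.length (lk_WA (m := m) o)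
  rw [lk_length, List.length_append] at h2
  omega

lemma len_B2 (o : PO e j) : (B2 m o).length ≤ 5 * (e + 3) * qj j := by
  have h1 := len_of (WB_le o)
  have h2 := congrArg List.length (lk_WB (m := m) o)
  rw [lk_length, List.length_append] at h2
  omega

lemma r0_le' (o : PO e j) : r0 o ≤ 3 * qj j := by
  unfold r0
  have := sb_le o
  omega

lemma r1_le' (o : PO e j) : r1 o ≤ 3 * qj j := by
  unfold r1
  have := ta_le o
  have := tb_le o
  omega

end

end Pool.Agent.U319
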