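import Mathlib
import Pool.Agent.U319.Dfn

/-!
# Overlaps of the paths
-/

open MeasureTheory Matrix Filter
open scoped Matrix.Norms.Frobenius Topology
open Pool.Agent.H906R3.YM hiding Pl
open Pool.Agent.W793.YM Pool.Agent.TH618.YM Pool.Agent.Y14
open Pool.Agent.R990 (nm OJ)

namespace Pool.Agent.U319

set_option linter.unusedSectionVars false
set_option linter.unusedVariables false

noncomputable section

variable {e m j : ℕ}

section gen

variable {ι E : Type*} [Fintype ι] [DecidableEq E]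

lemma kov {p : ι → List E} {K ℓ : ℕ} (h : ∀ f, nm Finset.univ p f ≤ K) (o : ι)
    (hl : (p o).length ≤ ℓ) : ∑ f ∈ (p o).toFinset, (nm Finset.univ p f : ℝ) ≤ ℓ * K := by
  calc _ ≤ ∑ _f ∈ (p o).toFinset, (K : ℝ) :=
        Finset.sum_le_sum fun f _ => by exact_mod_cast h f
    _ = ((p o).toFinset.card : ℝ) * K := by rw [Finset.sum_const, nsmul_eq_mul]
    _ ≤ _ := by
        refine mul_le_mul_of_nonneg_right ?_ (Nat.cast_nonneg _)
        exact_mod_cast (List.toFinset_card_le _).trans hl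

lemma nm_mono {κ : Type*} {O : Finset κ} {p p' : κ → List E} (h : ∀ o, ∀ f ∈ p o, f ∈ p' o)
    (f : E) : nm O p f ≤ nm O p' f := by
  unfold nm
  refine Finset.card_le_card fun o ho => ?_
  rw [Finset.mem_filter] at ho ⊢
  exact ⟨ho.1, h o f ho.2⟩

/-- multiplicity when the class and the parameter determine the path -/
lemma nm_cls {p : ι → List E} {Λ T : Type*} [Fintype T] {c : E → Λ} {M : ι → Λ}
    (hc : ∀ o, ∀ f ∈ p o, c f = M o) (g : ι → T) (h : ∀ o o', M o = M o' → g o = g o' → o = o')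
    (f : E) : nm Finset.univ p f ≤ Fintype.card T := by
  classical
  unfold nm
  rw [← Finset.card_univ]
  refine Finset.card_le_card_of_injOn g (fun o _ => Finset.mem_coe.2 (Finset.mem_univ _))
    fun o ho o' ho' hg => ?_
  have h1 := hc o f (Finset.mem_filter.1 ho).2
  have h2 := hc o' f (Finset.mem_filter.1 ho').2
  exact h o o' (h1.symm.trans h2) hg

/-- multiplicity of a family depending on one parameter -/
lemma nm_par {T : Type*} [Fintype T] {s : ι → ℕ} (r : ι → T) {j : ℕ} (hs : ∀ o, s o ∈ OJ j)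
    (hinj : ∀ o o', s o = s o' → r o = r o' → o = o') (p : ℕ → List E) (f : E) :
    nm Finset.univ (fun o => p (s o)) f ≤ nm (OJ j) p f * Fintype.card T := by
  classical
  unfold nm
  rw [← Finset.card_univ, ← Finset.card_product]
  refine Finset.card_le_card_of_injOn (fun o => (s o, r o)) (fun o ho => ?_)
    fun o ho o' ho' hg => ?_
  · rw [Finset.mem_coe, Finset.mem_product, Finset.mem_filter]
    exact ⟨⟨hs o, (Finset.mem_filter.1 ho).2⟩, Finset.mem_univ _⟩
  · simp only [Prod.mk.injEq] at hg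
    exact hinj o o' hg.1 hg.2

end gen

/-- the overlap in the fan -/
lemma fan_ovl {d l : ℕ} [NeZero l] {i k : Fin d} (hik : i ≠ k) {j : ℕ}
    (x : Fin d → ZMod l) (hl : 8 * qj j ≤ l) {s : ℕ} (hs : s ∈ OJ j) :
    ∑ f ∈ (lk eT x (R990.fw i k (j + 1) s)).toFinset,
      nm (OJ j) (fun s => lk eT x (R990.fw i k (j + 1) s)) f ≤ 56 * (j + 1) * 2 ^ j := by
  classical
  have hp : 2 ^ (j + 2) = 4 * 2 ^ j := by rw [pow_succ, pow_succ]; ring
  have hq := qj_two j
  have h1 := R990.overlap_AB hik (le_refl (2 ^ (j + 2))) x (by omega) hs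
  have hsub : ∀ s, ∀ f ∈ lk eT x (R990.fw i k (j + 1) s),
      f ∈ R990.lA i k j (2 ^ (j + 2)) s x ++ R990.lB i k j (2 ^ (j + 2)) s x := by
    intro s f hf
    rw [List.mem_append]
    left
    unfold R990.lA R990.wA
    rw [lk_append, List.mem_append]
    exact Or.inl hf
  have h2 : ∀ f, nm (OJ j) (fun s => lk eT x (R990.fw i k (j + 1) s)) f ≤
      nm (OJ j) (fun s => R990.lA i k j (2 ^ (j + 2)) s x ++
        R990.lB i k j (2 ^ (j + 2)) s x) f := fun f => nm_mono hsub f
  calc _ ≤ ∑ f ∈ (R990.lA i k j (2 ^ (j + 2)) s x ++ R990.lB i k j (2 ^ (j + 2)) s x).toFinset,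
        nm (OJ j) (fun s => R990.lA i k j (2 ^ (j + 2)) s x ++
          R990.lB i k j (2 ^ (j + 2)) s x) f := by
        refine (Finset.sum_le_sum fun f _ => h2 f).trans ?_
        refine Finset.sum_le_sum_of_subset fun f hf => ?_
        rw [List.mem_toFinset] at hf ⊢
        exact hsub s f hf
    _ ≤ _ := h1
    _ ≤ 52 * (j + 1) * 2 ^ j + 4 * ((j + 1) * 2 ^ j) := by
        rw [hp]
        have : 1 * 2 ^ j ≤ (j + 1) * 2 ^ j := Nat.mul_le_mul_right _ (by omega)
        omega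
    _ = _ := by ring

/-- the size of the other parameters -/
def MM' (e j : ℕ) : ℕ := 2 ^ j * (qj j * qj j ^ (e + 1))

lemma card_PO : Fintype.card (PO e j) = 2 ^ j * MM' e j := by
  unfold PO MM'
  rw [Fintype.card_prod, Fintype.card_prod, Fintype.card_prod, Fintype.card_pi]
  simp only [Fintype.card_fin, Finset.prod_const, Finset.card_univ]

lemma card_T : Fintype.card (Fin (2 ^ j) × Fin (qj j) × (Fin (e + 1) → Fin (qj j))) =
    MM' e j := by
  unfold MM'
  rw [Fintype.card_prod, Fintype.card_prod, Fintype.card_pi]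
  simp only [Fintype.card_fin, Finset.prod_const, Finset.card_univ]

lemma sa_OJ (o : PO e j) : sa o ∈ OJ j := by
  unfold OJ sa
  rw [Finset.mem_Ico]
  have := o.1.2
  omega

lemma sb_OJ (o : PO e j) : sb o ∈ OJ j := by
  unfold OJ sb
  rw [Finset.mem_Ico]
  have := o.2.1.2
  omega

lemma sa_inj {o o' : PO e j} (h : sa o = sa o') : o.1 = o'.1 := by
  unfold sa at h
  exact Fin.ext (by omega)

lemma sb_inj {o o' : PO e j} (h : sb o = sb o') : o.2.1 = o'.2.1 := by
  unfold sb at h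
  exact Fin.ext (by omega)

lemma PO_ext {o o' : PO e j} (h1 : o.1 = o'.1) (h2 : o.2.1 = o'.2.1) (h3 : o.2.2.1 = o'.2.2.1)
    (h4 : ∀ k, o.2.2.2 k = o'.2.2.2 k) : o = o' :=
  Prod.ext h1 (Prod.ext h2 (Prod.ext h3 (funext h4)))

variable [NeZero m]

/-- overlap of a fan part -/
lemma ov_fan (hm : 8 * qj j ≤ 2 * m) (x : Fin (e + 3) → ZMod (2 * m)) {s : PO e j → ℕ}
    (r : PO e j → Fin (2 ^ j) × Fin (qj j) × (Fin (e + 1) → Fin (qj j)))
    (hs : ∀ o, s o ∈ OJ j) (hinj : ∀ o o', s o = s o' → r o = r o' → o = o') (o : PO e j) :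
    ∑ f ∈ (lk eT x (hd e j (s o))).toFinset,
      (nm Finset.univ (fun o => lk eT x (hd e j (s o))) f : ℝ) ≤
        56 * (e + 3) * (j + 1) * Fintype.card (PO e j) := by
  have h1 := fun f => nm_par r hs hinj (fun t => lk eT x (hd e j t)) f
  have h2 := fan_ovl (one_ne (e := e)) x hm (hs o)
  rw [card_T] at h1
  have h3 : ∑ f ∈ (lk eT x (hd e j (s o))).toFinset,
      nm Finset.univ (fun o => lk eT x (hd e j (s o))) f ≤
        56 * (e + 3) * (j + 1) * Fintype.card (PO e j) := by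
    calc _ ≤ ∑ f ∈ (lk eT x (hd e j (s o))).toFinset,
          nm (OJ j) (fun t => lk eT x (hd e j t)) f * MM' e j :=
          Finset.sum_le_sum fun f _ => h1 f
      _ = (∑ f ∈ (lk eT x (hd e j (s o))).toFinset,
          nm (OJ j) (fun t => lk eT x (hd e j t)) f) * MM' e j := (Finset.sum_mul _ _ _).symm
      _ ≤ 56 * (j + 1) * 2 ^ j * MM' e j := Nat.mul_le_mul_right _ h2
      _ = 56 * (j + 1) * Fintype.card (PO e j) := by rw [card_PO]; ring
      _ ≤ (e + 3) * (56 * (j + 1) * Fintype.card (PO e j)) := Nat.le_mul_of_pos_left _ (by omega)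
      _ = _ := by ring
  exact_mod_cast h3

lemma ov_A1 (hm : 8 * qj j ≤ 2 * m) (o : PO e j) :
    ∑ f ∈ (A1 m o).toFinset, (nm Finset.univ (A1 m : PO e j → _) f : ℝ) ≤
      56 * (e + 3) * (j + 1) * Fintype.card (PO e j) :=
  ov_fan hm (b1 e m) (fun o => (o.2.1, o.2.2.1, o.2.2.2)) sa_OJ (fun o o' h1 h2 => by
    simp only [Prod.mk.injEq] at h2
    exact PO_ext (sa_inj h1) h2.1 h2.2.1 fun k => by rw [h2.2.2]) o

lemma ov_B1 (hm : 8 * qj j ≤ 2 * m) (o : PO e j) :
    ∑ f ∈ (B1 m o).toFinset, (nm Finset.univ (B1 m : PO e j → _) f : ℝ) ≤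
      56 * (e + 3) * (j + 1) * Fintype.card (PO e j) :=
  ov_fan hm (b2 e m j) (fun o => (o.1, o.2.2.1, o.2.2.2)) sb_OJ (fun o o' h1 h2 => by
    simp only [Prod.mk.injEq] at h2
    exact PO_ext h2.1 (sb_inj h1) h2.2.1 fun k => by rw [h2.2.2]) o

lemma A2_zero {o : PO e j} {f : Ed (e + 3) (2 * m)} (hf : f ∈ A2 m o) :
    f.1 0 = ((sa o : ℕ) : ZMod (2 * m)) := by
  have hsa := sa_le o
  have hq := qj_pos j
  have hsq : sa o < qj j := by omega
  unfold A2 at hf
  obtain ⟨w1, w2, h1, h2⟩ := mem_lk hf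
  have h3 := count_tl0 o (sa o) (ta o)
  rw [h1, List.count_append] at h3
  have h4 : f.1 = b1 e m + dsp eT (hd e j (sa o) ++ w1) := by
    rw [h2, dsp_append, add_assoc]
  rw [h4, pos_b1 _ zero_nel, List.count_append]
  have h5 : (hd e j (sa o)).count 0 = sa o := by
    unfold hd
    rw [count_fw one_ne (j + 1) (sa o) hsq, if_neg (Ne.symm one_ne), if_pos rfl]
  rw [h5]
  congr 1
  omega

lemma B2_zero {o : PO e j} {f : Ed (e + 3) (2 * m)} (hf : f ∈ B2 m o) :
    f.1 0 = ((2 * qj j + sb o : ℕ) : ZMod (2 * m)) := by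
  have hsb := sb_le o
  have hq := qj_pos j
  have hsq : sb o < qj j := by omega
  unfold B2 at hf
  obtain ⟨w1, w2, h1, h2⟩ := mem_lk hf
  have h3 := count_tl0 o (sb o) (tb o)
  rw [h1, List.count_append] at h3
  have h4 : f.1 = b2 e m j + dsp eT (hd e j (sb o) ++ w1) := by
    rw [h2, dsp_append, add_assoc]
  rw [h4, pos_b2 _ zero_nel, List.count_append, List.count_append, List.count_replicate_self]
  have h5 : (hd e j (sb o)).count 0 = sb o := by
    unfold hd
    rw [count_fw one_ne (j + 1) (sb o) hsq, if_neg (Ne.symm one_ne), if_pos rfl]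
  rw [h5]
  congr 1
  omega

lemma ov_A2 (hm : 8 * qj j ≤ 2 * m) (o : PO e j) :
    ∑ f ∈ (A2 m o).toFinset, (nm Finset.univ (A2 m : PO e j → _) f : ℝ) ≤
      56 * (e + 3) * (j + 1) * Fintype.card (PO e j) := by
  have hq := qj_pos j
  have h1 : ∀ f, nm Finset.univ (A2 m : PO e j → _) f ≤ MM' e j := by
    intro f
    rw [← card_T]
    refine nm_cls (c := fun f : Ed (e + 3) (2 * m) => f.1 0)
      (M := fun o : PO e j => ((sa o : ℕ) : ZMod (2 * m))) (fun o f hf => A2_zero hf)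
      (fun o => (o.2.1, o.2.2.1, o.2.2.2)) (fun o o' h1 h2 => ?_) f
    simp only [Prod.mk.injEq] at h2
    have := sa_le o
    have := sa_le o'
    exact PO_ext (sa_inj (cast_inj' h1 (by omega) (by omega))) h2.1 h2.2.1 fun k => by rw [h2.2.2]
  refine (kov h1 o (len_A2 o)).trans ?_
  have h2 : 5 * (e + 3) * qj j * MM' e j ≤ 56 * (e + 3) * (j + 1) * Fintype.card (PO e j) := by
    rw [card_PO, qj_two]
    calc 5 * (e + 3) * (2 * 2 ^ j) * MM' e j = 10 * ((e + 3) * (2 ^ j * MM' e j)) := by ring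
      _ ≤ (56 * (j + 1)) * ((e + 3) * (2 ^ j * MM' e j)) := Nat.mul_le_mul_right _ (by omega)
      _ = _ := by ring
  exact_mod_cast h2

lemma ov_B2 (hm : 8 * qj j ≤ 2 * m) (o : PO e j) :
    ∑ f ∈ (B2 m o).toFinset, (nm Finset.univ (B2 m : PO e j → _) f : ℝ) ≤
      56 * (e + 3) * (j + 1) * Fintype.card (PO e j) := by
  have hq := qj_pos j
  have h1 : ∀ f, nm Finset.univ (B2 m : PO e j → _) f ≤ MM' e j := by
    intro f
    rw [← card_T]
    refine nm_cls (c := fun f : Ed (e + 3) (2 * m) => f.1 0)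
      (M := fun o : PO e j => ((2 * qj j + sb o : ℕ) : ZMod (2 * m))) (fun o f hf => B2_zero hf)
      (fun o => (o.1, o.2.2.1, o.2.2.2)) (fun o o' h1 h2 => ?_) f
    simp only [Prod.mk.injEq] at h2
    have := sb_le o
    have := sb_le o'
    have h3 := cast_inj' h1 (by omega) (by omega)
    exact PO_ext h2.1 (sb_inj (by omega)) h2.2.1 fun k => by rw [h2.2.2]
  refine (kov h1 o (len_B2 o)).trans ?_
  have h2 : 5 * (e + 3) * qj j * MM' e j ≤ 56 * (e + 3) * (j + 1) * Fintype.card (PO e j) := by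
    rw [card_PO, qj_two]
    calc 5 * (e + 3) * (2 * 2 ^ j) * MM' e j = 10 * ((e + 3) * (2 ^ j * MM' e j)) := by ring
      _ ≤ (56 * (j + 1)) * ((e + 3) * (2 ^ j * MM' e j)) := Nat.mul_le_mul_right _ (by omega)
      _ = _ := by ring
  exact_mod_cast h2

/-! ### the rectangles -/

/-- the coordinate determines the parameter -/
lemma u_jj (hm : 8 * qj j ≤ 2 * m) {o o' : PO e j} {w w' : List (Fin (e + 3))}
    {k : Fin (e + 1)} (hk : k ≠ 0) (hw : w.count (jj k) = 0) (hw' : w'.count (jj k) = 0)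
    (h : (b1 e m + dsp eT (WA o ++ w) : Fin (e + 3) → ZMod (2 * m)) (jj k) =
      (b1 e m + dsp eT (WA o' ++ w') : Fin (e + 3) → ZMod (2 * m)) (jj k)) :
    o.2.2.2 k = o'.2.2.2 k := by
  rw [pos_b1 _ (jj_nel k), pos_b1 _ (jj_nel k), List.count_append, List.count_append, hw, hw',
    count_WA, count_WA] at h
  simp only [if_neg (jj_ne1 hk), if_neg (jj_ne0 k), vT_jj o hk, vT_jj o' hk] at h
  have h1 := (o.2.2.2 k).2
  have h2 := (o'.2.2.2 k).2
  have h3 := cast_inj' h (by omega) (by omega)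
  exact Fin.ext (by omega)

lemma yy_app (o : PO e j) : yy m o = b1 e m + dsp eT (WA o ++ []) := by
  unfold yy; rw [List.append_nil]

lemma K_le (j : ℕ) : Fintype.card (Fin (2 ^ j) × Fin (2 ^ j) × Fin (qj j)) ≤
    2 ^ j * (qj j * qj j) := by
  rw [Fintype.card_prod, Fintype.card_prod]
  simp only [Fintype.card_fin]
  refine Nat.mul_le_mul_left _ (Nat.mul_le_mul_right _ ?_)
  have := qj_two j
  omega

lemma K_le' (j : ℕ) : Fintype.card (Fin (2 ^ j) × Fin (qj j) × Fin (qj j)) ≤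
    2 ^ j * (qj j * qj j) := by
  rw [Fintype.card_prod, Fintype.card_prod]
  simp only [Fintype.card_fin]
  rfl

lemma nm_R (hm : 8 * qj j ≤ 2 * m) (f : Ed (e + 3) (2 * m)) :
    nm Finset.univ (lR m : PO e j → _) f ≤ 2 ^ j * (qj j * qj j) := by
  refine (nm_cls (c := c0) (M := fun o : PO e j => Function.update (yy m o) 0 0)
    (fun o f hf => c0_rep hf) (fun o => (o.1, o.2.1, o.2.2.1)) (fun o o' h hg => ?_) f).trans
    (K_le j)
  simp only [Prod.mk.injEq] at hg
  refine PO_ext hg.1 hg.2.1 hg.2.2 fun k => ?_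
  by_cases hk : k = 0
  · subst hk
    have h1 := upd_eq one_ne h
    unfold yy at h1
    rw [pos_b1 _ one_nel, pos_b1 _ one_nel, count_WA, count_WA, if_pos rfl, if_pos rfl, vT_one,
      vT_one] at h1
    have t1 := ta_le o
    have t2 := ta_le o'
    have h3 := cast_inj' h1 (by omega) (by omega)
    unfold ta at h3
    exact Fin.ext (by omega)
  · refine u_jj hm hk (w := []) (w' := []) rfl rfl ?_
    rw [← yy_app, ← yy_app]
    exact upd_eq (jj_ne0 k) h

lemma nm_V' (hm : 8 * qj j ≤ 2 * m) (f : Ed (e + 3) (2 * m)) :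
    nm Finset.univ (lV' m : PO e j → _) f ≤ 2 ^ j * (qj j * qj j) := by
  refine (nm_cls (c := c1') (M := fun o : PO e j => Function.update (yy m o) 1 0)
    (fun o f hf => c1_rep hf) (fun o => (o.2.1, o.2.2.1, o.2.2.2 0)) (fun o o' h hg => ?_)
    f).trans (K_le' j)
  simp only [Prod.mk.injEq] at hg
  refine PO_ext ?_ hg.1 hg.2.1 fun k => ?_
  · have h1 := upd_eq (Ne.symm one_ne) h
    unfold yy at h1
    rw [pos_b1 _ zero_nel, pos_b1 _ zero_nel, count_WA, count_WA, if_neg (Ne.symm one_ne),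
      if_neg (Ne.symm one_ne), if_pos rfl, if_pos rfl, vT_zero, vT_zero] at h1
    have t1 := sa_le o
    have t2 := sa_le o'
    have h3 := cast_inj' h1 (by omega) (by omega)
    exact sa_inj (by omega)
  · by_cases hk : k = 0
    · rw [hk]; exact hg.2.2
    · refine u_jj hm hk (w := []) (w' := []) rfl rfl ?_
      rw [← yy_app, ← yy_app]
      exact upd_eq (jj_ne1 hk) h

lemma nm_V (hm : 8 * qj j ≤ 2 * m) (f : Ed (e + 3) (2 * m)) :
    nm Finset.univ (lV m : PO e j → _) f ≤ 2 ^ j * (qj j * qj j) := by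
  refine (nm_cls (c := c1') (M := fun o : PO e j => Function.update (yv m o) 1 0)
    (fun o f hf => c1_rep hf) (fun o => (o.1, o.2.2.1, o.2.2.2 0)) (fun o o' h hg => ?_)
    f).trans (K_le' j)
  simp only [Prod.mk.injEq] at hg
  refine PO_ext hg.1 ?_ hg.2.1 fun k => ?_
  · have h1 := upd_eq (Ne.symm one_ne) h
    unfold yv at h1
    rw [pos_b1 _ zero_nel, pos_b1 _ zero_nel, List.count_append, List.count_append, count_WA,
      count_WA, if_neg (Ne.symm one_ne), if_neg (Ne.symm one_ne), if_pos rfl, if_pos rfl,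
      vT_zero, vT_zero, List.count_replicate_self, List.count_replicate_self] at h1
    have t1 := sa_le o
    have t2 := sa_le o'
    have t3 := sb_le o
    have t4 := sb_le o'
    unfold r0 at h1
    have h3 := cast_inj' h1 (by omega) (by omega)
    exact sb_inj (by omega)
  · by_cases hk : k = 0
    · rw [hk]; exact hg.2.2
    · exact u_jj hm hk (count_rep_ne (jj_ne0 k) _) (count_rep_ne (jj_ne0 k) _)
        (upd_eq (jj_ne1 hk) h)

lemma nm_R' (hm : 8 * qj j ≤ 2 * m) (f : Ed (e + 3) (2 * m)) :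
    nm Finset.univ (lR' m : PO e j → _) f ≤ 2 ^ j * (qj j * qj j) := by
  refine (nm_cls (c := c0) (M := fun o : PO e j => Function.update (ys m o) 0 0)
    (fun o f hf => c0_rep hf) (fun o => (o.1, o.2.1, o.2.2.2 0)) (fun o o' h hg => ?_)
    f).trans (K_le j)
  simp only [Prod.mk.injEq] at hg
  refine PO_ext hg.1 hg.2.1 ?_ fun k => ?_
  · have h1 := upd_eq one_ne h
    unfold ys at h1
    rw [pos_b1 _ one_nel, pos_b1 _ one_nel, List.count_append, List.count_append, count_WA,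
      count_WA, if_pos rfl, if_pos rfl, vT_one, vT_one, List.count_replicate_self,
      List.count_replicate_self] at h1
    have t1 := ta_le o
    have t2 := ta_le o'
    have t3 := tb_le o
    have t4 := tb_le o'
    unfold r1 at h1
    have h3 := cast_inj' h1 (by omega) (by omega)
    unfold tb at t3 t4 h3
    exact Fin.ext (by omega)
  · by_cases hk : k = 0
    · rw [hk]; exact hg.2.2
    · exact u_jj hm hk (count_rep_ne (jj_ne1 hk) _) (count_rep_ne (jj_ne1 hk) _)
        (upd_eq (jj_ne0 k) h)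

/-- the bound for the rectangles -/
def K2 (j : ℕ) : ℝ := (3 * qj j : ℕ) * (2 ^ j * (qj j * qj j) : ℕ)

lemma ov_R (hm : 8 * qj j ≤ 2 * m) (o : PO e j) :
    ∑ f ∈ (lR m o).toFinset, (nm Finset.univ (lR m : PO e j → _) f : ℝ) ≤ K2 j :=
  kov (nm_R hm) o (by unfold lR; rw [lk_length, List.length_replicate]; exact r0_le' o)

lemma ov_V (hm : 8 * qj j ≤ 2 * m) (o : PO e j) :
    ∑ f ∈ (lV m o).toFinset, (nm Finset.univ (lV m : PO e j → _) f : ℝ) ≤ K2 j :=
  kov (nm_V hm) o (by unfold lV; rw [lk_length, List.length_replicate]; exact r1_le' o)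

lemma ov_V' (hm : 8 * qj j ≤ 2 * m) (o : PO e j) :
    ∑ f ∈ (lV' m o).toFinset, (nm Finset.univ (lV' m : PO e j → _) f : ℝ) ≤ K2 j :=
  kov (nm_V' hm) o (by unfold lV'; rw [lk_length, List.length_replicate]; exact r1_le' o)

lemma ov_R' (hm : 8 * qj j ≤ 2 * m) (o : PO e j) :
    ∑ f ∈ (lR' m o).toFinset, (nm Finset.univ (lR' m : PO e j → _) f : ℝ) ≤ K2 j :=
  kov (nm_R' hm) o (by unfold lR'; rw [lk_length, List.length_replicate]; exact r0_le' o)

end

end Pool.Agent.U319
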