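import Mathlib
import Pool.Agent.U319.Nzg
import Pool.Agent.U319.Ovp
import Pool.Agent.U319.Per
import Pool.Agent.Y14.Dif3
import Pool.Agent.R990.NQ

/-!
# The variation of the observable under time shifts
-/

open MeasureTheory Matrix Filter
open scoped Matrix.Norms.Frobenius Topology
open Pool.Agent.H906R3.YM hiding Pl
open Pool.Agent.W793.YM hiding rA_add
open Pool.Agent.TH618.YM Pool.Agent.Y14

namespace Pool.Agent.U319

set_option linter.unusedSectionVars false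
set_option linter.unusedVariables false

noncomputable section

variable {G : Type*} [Group G] [TopologicalSpace G] [IsTopologicalGroup G] [CompactSpace G]
  [SecondCountableTopology G] [MeasurableSpace G] [BorelSpace G] (μ : Measure G)
  [IsProbabilityMeasure μ] [μ.IsMulLeftInvariant] [μ.IsMulRightInvariant] [μ.IsInvInvariant]
  {N n : ℕ} {L : LD G N n} {e m : ℕ} [NeZero m] {j : ℕ} {β : ℝ}

/-! ### the observable -/

variable (L) in
/-- the observable at time `0` -/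
def Fj (j : ℕ) (U : Ed (e + 3) (2 * m) → G) : ℝ := ‖ph eT L j U 0‖

lemma lp_cont (w wb : List (Fin (e + 3))) (x : Fin (e + 3) → ZMod (2 * m)) :
    Continuous fun U : Ed (e + 3) (2 * m) → G => lp eT w wb j U x :=
  (tp_cont x w).mul (tp_cont _ wb).inv

lemma ph_cont (x : Fin (e + 3) → ZMod (2 * m)) :
    Continuous fun U : Ed (e + 3) (2 * m) → G => ph eT L j U x := by
  have h1 : Continuous fun U : Ed (e + 3) (2 * m) → G =>
      ∑ o : PO e j, (L.rho (lp eT (WP o) (WB o) j U x) - L.rho (lp eT (WQ o) (WB o) j U x)) :=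
    continuous_finsetSum _ fun o _ =>
      (L.cont.comp (lp_cont _ _ x)).sub (L.cont.comp (lp_cont _ _ x))
  exact h1.const_smul ((Fintype.card (PO e j) : ℝ))⁻¹

lemma nph_gt (γ : (Fin (e + 3) → ZMod (2 * m)) → G) (U : Ed (e + 3) (2 * m) → G)
    (x : Fin (e + 3) → ZMod (2 * m)) : ‖ph eT L j (gt γ U) x‖ = ‖ph eT L j U x‖ := by
  have h := ph_gauge (u := eT) (L := L) (j := j) γ U x
  have h1 : (gt γ U : Ed (e + 3) (2 * m) → G) =
      fun f => γ f.1 * U f * (γ (f.1 + eT f.2))⁻¹ := rfl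
  rw [h1, h, norm_rmul, norm_lmul]

lemma Fj_cont : Continuous fun U : Ed (e + 3) (2 * m) → G => Fj L j U := (ph_cont 0).norm

lemma Fj_GI : GI fun U : Ed (e + 3) (2 * m) → G => Fj L j U := fun γ U => nph_gt γ U 0

lemma Fj_tr (z : Fin (e + 3) → ZMod (2 * m)) (U : Ed (e + 3) (2 * m) → G) :
    Fj L j (tr z U) = ‖ph eT L j U z‖ := by
  have h := ph_shift (u := eT) (L := L) (j := j) U z 0
  unfold Fj
  have h1 : (tr z U : Ed (e + 3) (2 * m) → G) = fun f => U (f.1 + z, f.2) := rfl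
  rw [h1, h, zero_add]

lemma WP_ne (o : PO e j) : ∀ i ∈ WP o, i ≠ Fin.last (e + 2) := ne_last (WP_le o)
lemma WQ_ne (o : PO e j) : ∀ i ∈ WQ o, i ≠ Fin.last (e + 2) := ne_last (WQ_le o)
lemma WB_ne (o : PO e j) : ∀ i ∈ WB o, i ≠ Fin.last (e + 2) := ne_last (WB_le o)

lemma ph_fix (U : Ed (e + 3) (2 * m) → G) (x : Fin (e + 3) → ZMod (2 * m)) :
    ph eT L j (fix (Fin.last (e + 2)) U) x = ph eT L j U x := by
  unfold ph lp
  congr 1
  refine Finset.sum_congr rfl fun o _ => ?_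
  rw [tp_fix U x (WP_ne o), tp_fix U x (WQ_ne o), tp_fix U _ (WB_ne o)]

/-- the observable as a function of the coordinates -/
def Qj (e m j N : ℕ) [NeZero m] (hm : 2 ≤ m)
    (w : IJ (TR (d := e + 3) hm (Fin.last (e + 2))).J N → ℝ) : Mat N :=
  ((Fintype.card (PO e j) : ℝ))⁻¹ • ∑ o : PO e j,
    tf (TR hm (Fin.last (e + 2))).J w (A1 m o ++ A2 m o) (lR m o ++ lV m o)
      (lV' m o ++ lR' m o) (B1 m o ++ B2 m o)

lemma b1_last : (b1 e m : Fin (e + 3) → ZMod (2 * m)) (Fin.last (e + 2)) = 1 := by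
  unfold b1; simp [eT]

lemma q0_last : ((2 * qj j) • eT 0 : Fin (e + 3) → ZMod (2 * m)) (Fin.last (e + 2)) = 0 := by
  have h : (Fin.last (e + 2)) ≠ 0 := last_ne0
  simp [eT, h]

lemma b2_last : (b2 e m j : Fin (e + 3) → ZMod (2 * m)) (Fin.last (e + 2)) = 1 := by
  unfold b2
  rw [Pi.add_apply, b1_last, q0_last, add_zero]

lemma J_P (hm : 2 ≤ m) {w : List (Fin (e + 3))} (hw : ∀ i ∈ w, i ≠ Fin.last (e + 2))
    {f : Ed (e + 3) (2 * m)} (hf : f ∈ lk eT (b1 e m) w) :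
    f ∈ (TR hm (Fin.last (e + 2))).J := R990.lk_J' hm hw b1_last hf

lemma J_B (hm : 2 ≤ m) (o : PO e j) {f : Ed (e + 3) (2 * m)}
    (hf : f ∈ lk eT (b2 e m j) (WB o)) :
    f ∈ (TR hm (Fin.last (e + 2))).J := R990.lk_J' hm (WB_ne o) b2_last hf

lemma rA_b1 : rA (Fin.last (e + 2)) (b1 e m) = 0 := rA_eT _

lemma rA_b2 : rA (Fin.last (e + 2)) (b2 e m j) = (2 * qj j) • eT 0 := by
  have h := q0_last (e := e) (m := m) (j := j)
  obtain ⟨b, hb⟩ : ∃ b : Fin (e + 3) → ZMod (2 * m), b = (2 * qj j) • eT 0 := ⟨_, rfl⟩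
  rw [← hb] at h
  unfold b2 b1
  rw [← hb, add_comm (eT (Fin.last (e + 2))) b]
  have h1 : (b + eT (Fin.last (e + 2)) : Fin (e + 3) → ZMod (2 * m)) (Fin.last (e + 2)) = 1 := by
    rw [Pi.add_apply, h]; simp [eT]
  unfold rA
  rw [h1, sub_self]
  funext c
  by_cases hc : c = Fin.last (e + 2)
  · rw [hc, Function.update_self, h]
  · rw [Function.update_of_ne hc]
    simp [eT, hc]

lemma pq_lp (hm : 2 ≤ m) (U : Ed (e + 3) (2 * m) → G) (o : PO e j) {w : List (Fin (e + 3))}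
    (hw : ∀ i ∈ w, i ≠ Fin.last (e + 2)) :
    R990.pq (TR hm (Fin.last (e + 2))).J (cv L (TR hm (Fin.last (e + 2))) U)
      (lk eT (b1 e m) w) (lk eT (b2 e m j) (WB o)) = L.rho (lp eT w (WB o) j U (b1 e m)) := by
  unfold R990.pq lp
  rw [pm_tp (TR hm (Fin.last (e + 2))) U fun f hf => J_P hm hw hf,
    pm_tp (TR hm (Fin.last (e + 2))) U fun f hf => J_B hm o hf, ← rho_tp, ← rho_tp, map_mul,
    L.rho_inv]
  rfl

lemma Qj_ph (hm : 2 ≤ m) (U : Ed (e + 3) (2 * m) → G) :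
    Qj e m j N hm (cv L (TR hm (Fin.last (e + 2))) U) =
      ph eT L j U (eT (Fin.last (e + 2))) := by
  unfold Qj ph
  congr 1
  refine Finset.sum_congr rfl fun o _ => ?_
  unfold tf
  rw [← lk_WP, ← lk_WQ, ← lk_WB, pq_lp hm U o (WP_ne o), pq_lp hm U o (WQ_ne o)]
  rfl

lemma lp_tU (hm : 2 ≤ m) (U : Ed (e + 3) (2 * m) → G) (o : PO e j) {w : List (Fin (e + 3))}
    (hw : ∀ i ∈ w, i ≠ Fin.last (e + 2)) :
    lp eT w (WB o) j ((TR hm (Fin.last (e + 2))).tU U) (b1 e m) = lp eT w (WB o) j U 0 := by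
  unfold lp
  have h1 : tp eT ((TR hm (Fin.last (e + 2))).tU U) (b1 e m) w = tp eT U 0 w := by
    rw [tp_tU hm U _ hw, rA_b1]
  have h2 : tp eT ((TR hm (Fin.last (e + 2))).tU U) (b1 e m + (2 * qj j) • eT 0) (WB o) =
      tp eT U (0 + (2 * qj j) • eT 0) (WB o) := by
    have h3 := rA_b2 (e := e) (m := m) (j := j)
    unfold b2 at h3
    rw [tp_tU hm U _ (WB_ne o), h3, zero_add]
  rw [h1, h2]

lemma Qj_tU (hm : 2 ≤ m) (U : Ed (e + 3) (2 * m) → G) :
    Qj e m j N hm (cv L (TR hm (Fin.last (e + 2))) ((TR hm (Fin.last (e + 2))).tU U)) =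
      ph eT L j U 0 := by
  rw [Qj_ph]
  unfold ph
  congr 1
  refine Finset.sum_congr rfl fun o _ => ?_
  have h1 := lp_tU hm U o (WP_ne o)
  have h2 := lp_tU hm U o (WQ_ne o)
  unfold b1 at h1 h2
  rw [h1, h2]

lemma Qj_MM (hm : 2 ≤ m) (hqm : 5 * (e + 3) * qj j < 2 * m) (he : 1 ≤ e) :
    MM (Qj e m j N hm) := by
  have h : ∀ o : PO e j, MM fun w : IJ (TR (d := e + 3) hm (Fin.last (e + 2))).J N → ℝ =>
      tf (TR hm (Fin.last (e + 2))).J w (A1 m o ++ A2 m o) (lR m o ++ lV m o)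
      (lV' m o ++ lR' m o) (B1 m o ++ B2 m o) := fun o =>
    (R990.pq_MM (nodup_P hqm he o)).sub (R990.pq_MM (nodup_Q hqm he o))
  exact (MM.sum Finset.univ h).smul _

/-- the size of the error for one configuration -/
def Hj (L : LD G N n) (e j : ℕ) (β : ℝ) (U : Ed (e + 3) (2 * m) → G) : ℝ :=
  ((Fintype.card (PO e j) : ℝ))⁻¹ ^ 2 *
    (288 * (56 * (e + 3) * (j + 1) * Fintype.card (PO e j)) * (2 * N * (1 / β)) *
      ∑ o : PO e j, dv L (rect U (yy m o) 0 1 (r0 o) (r1 o)) ^ 2 +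
    1728 * (56 * (e + 3) * (j + 1) * Fintype.card (PO e j)) * (2 * N * (1 / β)) ^ 2 * N *
      (10 * (e + 3) * qj j : ℕ) * Fintype.card (PO e j) +
    96 * K2 j * (2 * N * (1 / β)) * N * Fintype.card (PO e j))

lemma dd_rectj (U : Ed (e + 3) (2 * m) → G) (hm : 2 ≤ m) (o : PO e j) :
    ‖pm (TR hm (Fin.last (e + 2))).J (cv L (TR hm (Fin.last (e + 2))) U) (lR m o ++ lV m o) -
      pm (TR hm (Fin.last (e + 2))).J (cv L (TR hm (Fin.last (e + 2))) U)
        (lV' m o ++ lR' m o)‖ = dv L (rect U (yy m o) 0 1 (r0 o) (r1 o)) := by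
  have h1 := lk_WP (m := m) o
  have h2 := lk_WQ (m := m) o
  have j1 : ∀ f ∈ lR m o ++ lV m o, f ∈ (TR hm (Fin.last (e + 2))).J := fun f hf => by
    refine J_P hm (WP_ne o) ?_
    rw [h1, List.mem_append]
    exact Or.inr hf
  have j2 : ∀ f ∈ lV' m o ++ lR' m o, f ∈ (TR hm (Fin.last (e + 2))).J := fun f hf => by
    refine J_P hm (WQ_ne o) ?_
    rw [h2, List.mem_append]
    exact Or.inr hf
  rw [pm_tp (TR hm (Fin.last (e + 2))) U j1, pm_tp (TR hm (Fin.last (e + 2))) U j2, lk_RV, lk_VR,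
    ← rho_tp, ← rho_tp]
  exact dd_swap U (yy m o) 0 1 (r0 o) (r1 o)

/-- the noise bound -/
lemma av_lej (hm : 2 ≤ m) (hβ : 0 < β) (hqm : 5 * (e + 3) * qj j < 2 * m)
    (h8 : 8 * qj j ≤ 2 * m) (he : 1 ≤ e)
    (hℓ : 2 * N * (1 / β) * (10 * (e + 3) * qj j : ℕ) ≤ 1) (U : Ed (e + 3) (2 * m) → G) :
    av (fun s => ‖Qj e m j N hm (cv L (TR hm (Fin.last (e + 2))) U + sg (1 / Real.sqrt β) s) -
      Qj e m j N hm (cv L (TR hm (Fin.last (e + 2))) U)‖ ^ 2) ≤ Hj L e j β U := by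
  have hβ2 : (1 / Real.sqrt β) ^ 2 = 1 / β := by
    rw [div_pow, one_pow, Real.sq_sqrt hβ.le]
  have hJ1 : ∀ o : PO e j, ∀ f ∈ ((A1 m o ++ A2 m o) ++ (lR m o ++ lV m o)) ++
      (B1 m o ++ B2 m o), f ∈ (TR hm (Fin.last (e + 2))).J := fun o f hf => by
    rw [← lk_WP, ← lk_WB, List.mem_append] at hf
    rcases hf with hf | hf
    · exact J_P hm (WP_ne o) hf
    · exact J_B hm o hf
  have hJ2 : ∀ o : PO e j, ∀ f ∈ ((A1 m o ++ A2 m o) ++ (lV' m o ++ lR' m o)) ++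
      (B1 m o ++ B2 m o), f ∈ (TR hm (Fin.last (e + 2))).J := fun o f hf => by
    rw [← lk_WQ, ← lk_WB, List.mem_append] at hf
    rcases hf with hf | hf
    · exact J_P hm (WQ_ne o) hf
    · exact J_B hm o hf
  have key := fam8 (ι := PO e j)
    (J := (TR (d := e + 3) hm (Fin.last (e + 2))).J) (x := cv L (TR hm (Fin.last (e + 2))) U)
    (δ := 1 / Real.sqrt β) (A1 := A1 m) (A2 := A2 m) (R := lR m) (V := lV m) (V' := lV' m)
    (R' := lR' m) (B1 := B1 m) (B2 := B2 m)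
    (nodup_P hqm he) (nodup_Q hqm he)
    (fun o => Un_cv (L := L) (TR hm (Fin.last (e + 2))) U (hJ1 o))
    (fun o => Un_cv (L := L) (TR hm (Fin.last (e + 2))) U (hJ2 o))
    (ℓ := 10 * (e + 3) * qj j) len_P len_Q (by rw [hβ2]; exact hℓ)
    (K1 := 56 * (e + 3) * (j + 1) * Fintype.card (PO e j)) (K2 := K2 j)
    (ov_A1 h8) (ov_A2 h8) (ov_B1 h8) (ov_B2 h8) (ov_R h8) (ov_V h8) (ov_V' h8) (ov_R' h8)
  simp only [dd_rectj, hβ2] at key
  have e1 : (fun s => ‖Qj e m j N hm (cv L (TR hm (Fin.last (e + 2))) U +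
      sg (1 / Real.sqrt β) s) - Qj e m j N hm (cv L (TR hm (Fin.last (e + 2))) U)‖ ^ 2) =
      fun s => ((Fintype.card (PO e j) : ℝ))⁻¹ ^ 2 * ‖∑ o : PO e j,
        tf (TR hm (Fin.last (e + 2))).J (cv L (TR hm (Fin.last (e + 2))) U +
          sg (1 / Real.sqrt β) s) (A1 m o ++ A2 m o) (lR m o ++ lV m o)
          (lV' m o ++ lR' m o) (B1 m o ++ B2 m o) -
        ∑ o : PO e j, tf (TR hm (Fin.last (e + 2))).J (cv L (TR hm (Fin.last (e + 2))) U)
          (A1 m o ++ A2 m o) (lR m o ++ lV m o)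
          (lV' m o ++ lR' m o) (B1 m o ++ B2 m o)‖ ^ 2 := by
    funext s
    unfold Qj
    rw [← smul_sub, norm_smul, mul_pow, norm_inv, Real.norm_natCast]
  rw [e1, av_smul]
  exact mul_le_mul_of_nonneg_left key (sq_nonneg _)

lemma dvrj_cont (o : PO e j) : Continuous fun U : Ed (e + 3) (2 * m) → G =>
    dv L (rect U (yy m o) 0 1 (r0 o) (r1 o)) ^ 2 :=
  (dv_cont.comp (rect_cont _ _ _ _ _)).pow 2

lemma Hj_cont : Continuous fun U : Ed (e + 3) (2 * m) → G => Hj L e j β U := by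
  unfold Hj
  have h1 : Continuous fun U : Ed (e + 3) (2 * m) → G =>
      ∑ o : PO e j, dv L (rect U (yy m o) 0 1 (r0 o) (r1 o)) ^ 2 :=
    continuous_finsetSum _ fun o _ => dvrj_cont o
  exact continuous_const.mul (((continuous_const.mul h1).add continuous_const).add
    continuous_const)

lemma Hj_GI : GI fun U : Ed (e + 3) (2 * m) → G => Hj L e j β U := fun γ U => by
  show Hj L e j β (gt γ U) = _
  unfold Hj
  simp only [rect_gt, dv_conj]

lemma Hj_fix (U : Ed (e + 3) (2 * m) → G) :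
    Hj L e j β (fix (Fin.last (e + 2)) U) = Hj L e j β U := by
  unfold Hj
  simp only [Y14.rect_fix zero_nel one_nel]

theorem dif_Ztj (hm : 2 ≤ m) (hβ : 0 < β) (hqm : 5 * (e + 3) * qj j < 2 * m)
    (h8 : 8 * qj j ≤ 2 * m) (he : 1 ≤ e)
    (hℓ : 2 * N * (1 / β) * (10 * (e + 3) * qj j : ℕ) ≤ 1) :
    Zt μ L β (fun U : Ed (e + 3) (2 * m) → G =>
      (Fj L j (tr (eT (Fin.last (e + 2))) U) - Fj L j U) ^ 2) ≤
      Zt μ L β (fun U : Ed (e + 3) (2 * m) → G => Hj L e j β U) := by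
  obtain ⟨c, hc, hred⟩ := Zt_red μ (L := L) hm (Fin.last (e + 2)) β
  have c1 : Continuous fun U : Ed (e + 3) (2 * m) → G =>
      (Fj L j (tr (eT (Fin.last (e + 2))) U) - Fj L j U) ^ 2 :=
    ((Fj_cont.comp (tr_cont _)).sub Fj_cont).pow 2
  have g1 : GI fun U : Ed (e + 3) (2 * m) → G =>
      (Fj L j (tr (eT (Fin.last (e + 2))) U) - Fj L j U) ^ 2 := fun γ U => by
    simp only [Fj_tr]
    unfold Fj
    rw [nph_gt, nph_gt]
  rw [hred _ c1 g1, hred _ Hj_cont Hj_GI]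
  refine mul_le_mul_of_nonneg_left ?_ hc.le
  have hβ2 : (1 / Real.sqrt β) ^ 2 = 1 / β := by
    rw [div_pow, one_pow, Real.sq_sqrt hβ.le]
  have hMM := Qj_MM (e := e) (j := j) (N := N) hm hqm he
  have cQ := mm_cont hMM
  have cQ1 : Continuous fun U : Ed (e + 3) (2 * m) → G =>
      Qj e m j N hm (cv L (TR hm (Fin.last (e + 2))) U) := cQ.comp (cv_cont _)
  have cQ2 : Continuous fun U : Ed (e + 3) (2 * m) → G =>
      Qj e m j N hm (cv L (TR hm (Fin.last (e + 2))) ((TR hm (Fin.last (e + 2))).tU U)) :=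
    cQ1.comp (TR hm (Fin.last (e + 2))).tU_cont
  have cQ3 : ∀ s, Continuous fun U : Ed (e + 3) (2 * m) → G =>
      Qj e m j N hm (cv L (TR hm (Fin.last (e + 2))) U + sg (1 / Real.sqrt β) s) := fun s =>
    cQ.comp ((cv_cont _).add continuous_const)
  have h1 : (TR hm (Fin.last (e + 2))).Ew μ L β (wR L β m (Fin.last (e + 2))).1
      (fun U : Ed (e + 3) (2 * m) → G => (Fj L j (tr (eT (Fin.last (e + 2)))
        (fix (Fin.last (e + 2)) U)) - Fj L j (fix (Fin.last (e + 2)) U)) ^ 2) ≤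
      (TR hm (Fin.last (e + 2))).Ew μ L β (wR L β m (Fin.last (e + 2))).1
      (fun U : Ed (e + 3) (2 * m) → G => ‖Qj e m j N hm (cv L (TR hm (Fin.last (e + 2))) U) -
        Qj e m j N hm (cv L (TR hm (Fin.last (e + 2)))
          ((TR hm (Fin.last (e + 2))).tU U))‖ ^ 2) := by
    have e1 : (fun U : Ed (e + 3) (2 * m) → G => (Fj L j (tr (eT (Fin.last (e + 2)))
        (fix (Fin.last (e + 2)) U)) - Fj L j (fix (Fin.last (e + 2)) U)) ^ 2) =
        fun U => (‖Qj e m j N hm (cv L (TR hm (Fin.last (e + 2))) U)‖ -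
          ‖Qj e m j N hm (cv L (TR hm (Fin.last (e + 2)))
            ((TR hm (Fin.last (e + 2))).tU U))‖) ^ 2 := by
      funext U
      rw [Fj_tr, ph_fix, Qj_ph, Qj_tU]
      unfold Fj
      rw [ph_fix]
    rw [e1]
    refine Ew_mono μ _ (Sm_cont (wR L β m (Fin.last (e + 2)))) (wR_nonneg β _)
      ((cQ1.norm.sub cQ2.norm).pow 2) ((cQ1.sub cQ2).norm.pow 2) fun U => ?_
    rw [← sq_abs]
    exact pow_le_pow_left₀ (abs_nonneg _) (abs_norm_sub_norm_le _ _) 2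
  refine h1.trans ?_
  refine (noise_domM μ (L := L) (TR hm (Fin.last (e + 2))) hβ hβ2 hMM
    (Sm_cont (wR L β m (Fin.last (e + 2)))) (wR_dep hm β (Fin.last (e + 2)))
    (wR_nonneg β (Fin.last (e + 2)))).trans ?_
  refine Ew_mono μ _ (Sm_cont (wR L β m (Fin.last (e + 2)))) (wR_nonneg β _)
    (av_cont fun s => ((cQ3 s).sub cQ1).norm.pow 2) (Hj_cont.comp ?_) fun U => ?_
  · refine continuous_pi fun f => ?_
    unfold fix
    split_ifs
    · exact continuous_const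
    · exact continuous_apply f
  · rw [Hj_fix]
    exact av_lej hm hβ hqm h8 he hℓ U

end

end Pool.Agent.U319
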