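import Mathlib
import Pool.Agent.U319.Nb

/-!
# The variation of the observable under time shifts: final bound
-/

open MeasureTheory Matrix Filter
open scoped Matrix.Norms.Frobenius Topology
open Pool.Agent.H906R3.YM hiding Pl
open Pool.Agent.W793.YM hiding rA_add
open Pool.Agent.TH618.YM Pool.Agent.Y14

namespace Pool.Agent.U319

set_option linter.unusedSectionVars false
set_option linter.unusedVariables false

noncomputable section

variable {G : Type*} [Group G] [TopologicalSpace G] [IsTopologicalGroup G] [CompactSpace G]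
  [SecondCountableTopology G] [MeasurableSpace G] [BorelSpace G] (μ : Measure G)
  [IsProbabilityMeasure μ] [μ.IsMulLeftInvariant] [μ.IsMulRightInvariant] [μ.IsInvInvariant]
  {N n : ℕ} {L : LD G N n} {e m : ℕ} [NeZero m] {j : ℕ} {β : ℝ}

/-- the constant of the bound -/
def CDj (e N : ℕ) : ℝ := 288 * 56 * 6 * 900000000 * (e + 3) * N ^ 3 +
  1728 * 56 * 40 * (e + 3) ^ 2 * N ^ 3 + 1152 * N ^ 2

lemma CDj_pos (hN : 1 ≤ N) : 0 < CDj e N := by
  have : (1 : ℝ) ≤ N := by exact_mod_cast hN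
  unfold CDj; positivity

lemma EX_rect (he : 1 ≤ e) (hm : 2 ≤ m) (hN : 1 ≤ N) (hβ : 0 < β) (h12 : 12 * qj j ≤ 2 * m)
    (o : PO e j) : EX μ L β (fun U : Ed (e + 3) (2 * m) → G =>
      dv L (rect U (yy m o) 0 1 (r0 o) (r1 o)) ^ 2) ≤ 2700000000 * N ^ 2 * (qj j / β) := by
  rw [← en_sq μ (L := L) (β := β) (fun U : Ed (e + 3) (2 * m) → G =>
    dv L (rect U (yy m o) 0 1 (r0 o) (r1 o))), R990.en_rect]
  have h1 := rc_le μ (L := L) (d := e + 3) (m := m) (by omega) hm hN hβ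
    (Ne.symm (one_ne (e := e))) (r0_le' o) (r1_le' o) (by omega)
  have h2 := pow_le_pow_left₀ (R990.rc_nonneg μ (L := L) (l := 2 * m) β (0 : Fin (e + 3)) 1
    (r0 o) (r1 o)) h1 2
  refine h2.trans (le_of_eq ?_)
  rw [pr_sq hβ]
  push_cast
  ring

lemma EX_Hj (he : 1 ≤ e) (hm : 2 ≤ m) (hN : 1 ≤ N) (hβ : 0 < β) (h12 : 12 * qj j ≤ 2 * m)
    (hqβ : ((j : ℝ) + 1) * (qj j : ℝ) ^ (e + 1) ≤ β) :
    EX μ L β (fun U : Ed (e + 3) (2 * m) → G => Hj L e j β U) ≤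
      CDj e N * (qj j / (β * (qj j : ℝ) ^ (e + 1))) := by
  have hN0 : (0 : ℝ) ≤ N := Nat.cast_nonneg N
  obtain ⟨q, hq⟩ : ∃ q : ℝ, q = (qj j : ℝ) := ⟨_, rfl⟩
  have hq1 : (1 : ℝ) ≤ q := by rw [hq]; exact_mod_cast qj_pos j
  have hq0 : 0 < q := by linarith
  obtain ⟨P, hP⟩ : ∃ P : ℝ, P = q ^ (e + 1) := ⟨_, rfl⟩
  have hP0 : 0 < P := by rw [hP]; positivity
  obtain ⟨M, hM⟩ : ∃ M : ℝ, M = (Fintype.card (PO e j) : ℝ) := ⟨_, rfl⟩
  have h2j : (2 : ℝ) ^ j = q / 2 := by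
    rw [hq, qj_two]; push_cast; ring
  have hMq : M = q ^ 3 * P / 4 := by
    rw [hM, card_PO]
    unfold MM'
    push_cast
    rw [h2j, ← hq, ← hP]
    ring
  have hM0 : 0 < M := by rw [hMq]; positivity
  have hK2 : K2 j = 3 * q ^ 4 / 2 := by
    unfold K2
    push_cast
    rw [h2j, ← hq]
    ring
  obtain ⟨J, hJ⟩ : ∃ J : ℝ, J = (j : ℝ) + 1 := ⟨_, rfl⟩
  have hJ0 : 0 < J := by rw [hJ]; positivity
  have hS : EX μ L β (fun U : Ed (e + 3) (2 * m) → G =>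
      ∑ o : PO e j, dv L (rect U (yy m o) 0 1 (r0 o) (r1 o)) ^ 2) ≤
      M * (2700000000 * N ^ 2 * (q / β)) := by
    rw [EX_fsum μ Finset.univ fun o => dvrj_cont o]
    calc _ ≤ ∑ _o : PO e j, 2700000000 * (N : ℝ) ^ 2 * (q / β) := by
          refine Finset.sum_le_sum fun o _ => ?_
          rw [hq]
          exact EX_rect μ he hm hN hβ h12 o
      _ = _ := by rw [Finset.sum_const, Finset.card_univ, nsmul_eq_mul, hM]
  have cS : Continuous fun U : Ed (e + 3) (2 * m) → G =>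
      ∑ o : PO e j, dv L (rect U (yy m o) 0 1 (r0 o) (r1 o)) ^ 2 :=
    continuous_finsetSum _ fun o _ => dvrj_cont o
  have e1 : (fun U : Ed (e + 3) (2 * m) → G => Hj L e j β U) = fun U =>
      (M⁻¹ ^ 2 * (288 * (56 * (e + 3) * J * M) * (2 * N * (1 / β)))) *
        (∑ o : PO e j, dv L (rect U (yy m o) 0 1 (r0 o) (r1 o)) ^ 2) +
      M⁻¹ ^ 2 * (1728 * (56 * (e + 3) * J * M) * (2 * N * (1 / β)) ^ 2 * N *
        (10 * (e + 3) * q) * M + 96 * (3 * q ^ 4 / 2) * (2 * N * (1 / β)) * N * M) := by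
    funext U
    unfold Hj
    rw [← hM, ← hJ, hK2]
    push_cast
    rw [← hq]
    ring
  have cS' : Continuous fun U : Ed (e + 3) (2 * m) → G =>
      (M⁻¹ ^ 2 * (288 * (56 * (e + 3) * J * M) * (2 * N * (1 / β)))) *
        (∑ o : PO e j, dv L (rect U (yy m o) 0 1 (r0 o) (r1 o)) ^ 2) := continuous_const.mul cS
  rw [e1, EX_add μ cS' continuous_const, EX_smul, EX_const, ← hq, ← hP]
  have h6 : (M⁻¹ ^ 2 * (288 * (56 * (e + 3) * J * M) * (2 * N * (1 / β)))) *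
      EX μ L β (fun U : Ed (e + 3) (2 * m) → G =>
      ∑ o : PO e j, dv L (rect U (yy m o) 0 1 (r0 o) (r1 o)) ^ 2) ≤
      (M⁻¹ ^ 2 * (288 * (56 * (e + 3) * J * M) * (2 * N * (1 / β)))) *
        (M * (2700000000 * N ^ 2 * (q / β))) :=
    mul_le_mul_of_nonneg_left hS (by positivity)
  have hqβ' : J * P ≤ β := by rw [hP, hJ, hq]; exact hqβ
  have t1 : J * q / β ^ 2 ≤ q / (β * P) := by
    rw [div_le_div_iff₀ (by positivity) (by positivity)]
    calc J * q * (β * P) = β * q * (J * P) := by ring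
      _ ≤ β * q * β := mul_le_mul_of_nonneg_left hqβ' (by positivity)
      _ = _ := by ring
  have s1 : (M⁻¹ ^ 2 * (288 * (56 * (e + 3) * J * M) * (2 * N * (1 / β)))) *
      (M * (2700000000 * N ^ 2 * (q / β))) =
      288 * 56 * 6 * 900000000 * (e + 3) * N ^ 3 * (J * q / β ^ 2) := by
    field_simp
    ring
  have s2 : M⁻¹ ^ 2 * (1728 * (56 * (e + 3) * J * M) * (2 * N * (1 / β)) ^ 2 * N *
        (10 * (e + 3) * q) * M + 96 * (3 * q ^ 4 / 2) * (2 * N * (1 / β)) * N * M) =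
      1728 * 56 * 40 * (e + 3) ^ 2 * N ^ 3 * (J * q / β ^ 2) +
      1152 * N ^ 2 * (q / (β * P)) := by
    have s3 : M⁻¹ ^ 2 * (96 * (3 * q ^ 4 / 2) * (2 * N * (1 / β)) * N * M) =
        1152 * N ^ 2 * (q / (β * P)) := by
      rw [hMq]
      field_simp
      ring
    rw [mul_add, s3]
    congr 1
    field_simp
    ring
  rw [s1] at h6
  rw [s2]
  unfold CDj
  have u1 := mul_le_mul_of_nonneg_left t1
    (show (0 : ℝ) ≤ 288 * 56 * 6 * 900000000 * (e + 3) * N ^ 3 by positivity)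
  have u2 := mul_le_mul_of_nonneg_left t1
    (show (0 : ℝ) ≤ 1728 * 56 * 40 * (e + 3) ^ 2 * N ^ 3 by positivity)
  linarith

/-- **the variation of the observable in the time** -/
theorem dif_boundj (he : 1 ≤ e) (hm : 2 ≤ m) (hN : 1 ≤ N) (hβ : 0 < β)
    (hqm : 5 * (e + 3) * qj j < 2 * m)
    (hqβ : ((j : ℝ) + 1) * (qj j : ℝ) ^ (e + 1) * (20 * N * (e + 3)) ≤ β) :
    EX μ L β (fun U : Ed (e + 3) (2 * m) → G =>
      (Fj L j (tr (eT (Fin.last (e + 2))) U) - Fj L j U) ^ 2) ≤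
      CDj e N * (qj j / (β * (qj j : ℝ) ^ (e + 1))) := by
  have hq1 : (1 : ℝ) ≤ (qj j : ℝ) := by exact_mod_cast qj_pos j
  have hN1 : (1 : ℝ) ≤ N := by exact_mod_cast hN
  have he0 : (0 : ℝ) ≤ e := Nat.cast_nonneg e
  have hj0 : (0 : ℝ) ≤ j := Nat.cast_nonneg j
  have h20 : (1 : ℝ) ≤ 20 * N * (e + 3) := by nlinarith
  have hp : (0 : ℝ) ≤ ((j : ℝ) + 1) * (qj j : ℝ) ^ (e + 1) := by positivity
  have h1 : ((j : ℝ) + 1) * (qj j : ℝ) ^ (e + 1) ≤ β := (le_mul_of_one_le_right hp h20).trans hqβ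
  have h12 : 12 * qj j ≤ 2 * m := by
    have h4 : 4 * qj j ≤ (e + 3) * qj j := Nat.mul_le_mul_right _ (by omega)
    have : 5 * (e + 3) * qj j = 5 * ((e + 3) * qj j) := by ring
    omega
  have h2 : 2 * N * (1 / β) * (10 * (e + 3) * qj j : ℕ) ≤ 1 := by
    have h3 : 2 * N * (1 / β) * (10 * (e + 3) * qj j : ℕ) =
        (qj j * (20 * N * (e + 3))) / β := by
      push_cast; ring
    rw [h3, div_le_one hβ]
    refine le_trans (mul_le_mul_of_nonneg_right ?_ (by positivity)) hqβ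
    calc (qj j : ℝ) = 1 * (qj j : ℝ) ^ 1 := by ring
      _ ≤ ((j : ℝ) + 1) * (qj j : ℝ) ^ (e + 1) :=
          mul_le_mul (by linarith) (pow_le_pow_right₀ hq1 (by omega)) (by positivity)
            (by positivity)
  refine le_trans ?_ (EX_Hj μ (L := L) he hm hN hβ h12 h1)
  unfold EX
  exact div_le_div_of_nonneg_right (dif_Ztj μ hm hβ hqm (by omega) he h2) (Zt_pos μ β).le

end

end Pool.Agent.U319
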