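import Mathlib
import Pool.Agent.U319.Rsp

/-!
# The size of the response
-/

open MeasureTheory Matrix Filter
open scoped Matrix.Norms.Frobenius Topology
open Pool.Agent.H906R3.YM hiding Pl
open Pool.Agent.W793.YM Pool.Agent.TH618.YM Pool.Agent.Y14

namespace Pool.Agent.U319

set_option linter.unusedSectionVars false
set_option linter.unusedVariables false

noncomputable section

section wt

variable {e m : ℕ} [NeZero m] {j : ℕ}

lemma yD_add (o : PO e j) (k : ℕ) : yD m o + k • eT 0 =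
    (dsp eT ((Tq e (qj j) ++ WA o) ++ List.replicate k 0) : Fin (e + 3) → ZMod (2 * m)) := by
  unfold yD
  rw [dsp_append (Tq e (qj j) ++ WA o), dsp_rep]

lemma count_sg (o : PO e j) (k : ℕ) (c : Fin (e + 3)) :
    ((Tq e (qj j) ++ WA o) ++ List.replicate k 0).count c =
      (if c = Fin.last (e + 2) then 2 * qj j else 0) +
        ((if c = 1 then ta o else if c = 0 then sa o else 0) + vT o c) +
        if c = 0 then k else 0 := by
  rw [List.count_append, List.count_append, count_Tq, count_WA, List.count_replicate]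
  congr 1
  by_cases h : c = 0
  · subst h; simp
  · have h' : ¬(0 : Fin (e + 3)) = c := fun h1 => h h1.symm
    simp [h, h']

lemma sg_zero (o : PO e j) (k : ℕ) :
    ((Tq e (qj j) ++ WA o) ++ List.replicate k 0).count (0 : Fin (e + 3)) = sa o + k := by
  rw [count_sg, if_neg (Ne.symm last_ne0), if_neg (Ne.symm one_ne), if_pos rfl, if_pos rfl,
    vT_zero]
  omega

lemma sg_ne (o : PO e j) (k : ℕ) {c : Fin (e + 3)} (hc : c ≠ 0) :
    2 * qj j ≤ ((Tq e (qj j) ++ WA o) ++ List.replicate k 0).count c ∧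
      ((Tq e (qj j) ++ WA o) ++ List.replicate k 0).count c ≤ 3 * qj j := by
  rw [count_sg, if_neg hc, if_neg hc]
  by_cases h1 : c = 1
  · subst h1
    have h2 : ¬(1 : Fin (e + 3)) = Fin.last (e + 2) := Ne.symm last_ne1
    rw [if_neg h2, if_pos rfl, vT_one]
    have := ta_le o
    omega
  · rw [if_neg h1]
    by_cases h2 : c = Fin.last (e + 2)
    · rw [if_pos h2, h2, vT_last]
      omega
    · rw [if_neg h2]
      have := vT_mid o hc h1 h2
      omega

lemma sg_le (o : PO e j) {k : ℕ} (hk : k ≤ 3 * qj j) (c : Fin (e + 3)) :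
    ((Tq e (qj j) ++ WA o) ++ List.replicate k 0).count c ≤ 4 * qj j := by
  by_cases h0 : c = 0
  · subst h0
    rw [sg_zero]
    have := sa_le o
    omega
  · have := sg_ne o k h0
    omega

lemma r0_le (o : PO e j) : r0 o ≤ 3 * qj j := by
  unfold r0
  have := sb_le o
  omega

lemma r1_le (o : PO e j) : r1 o ≤ 3 * qj j := by
  unfold r1
  have := tb_le o
  have := ta_le o
  omega

/-- the part of the segment in the box -/
def Ik (o : PO e j) : Finset ℕ := Finset.Ico (qj j - sa o) (2 * qj j - sa o)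

lemma Ik_sub (o : PO e j) : Ik o ⊆ Finset.range (r0 o) := by
  intro k hk
  have h := Finset.mem_Ico.1 hk
  have h1 := sa_le o
  rw [Finset.mem_range]
  unfold r0
  omega

lemma Ik_card (o : PO e j) : (Ik o).card = qj j := by
  unfold Ik
  rw [Nat.card_Ico]
  have h1 := sa_le o
  omega

lemma kk_outD (hqm : 5 * qj j < 2 * m) (o : PO e j) {k : ℕ} (hk : k < r0 o)
    (h : k ∉ Ik o) : kk (qj j) (yD m o + k • eT 0) = 0 := by
  by_contra hc
  have h1 := (kk_ne (qj_pos j) hc).1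
  have h3 := sg_le o (k := k) (by have := r0_le o; omega) 0
  rw [yD_add, wv_dsp (by omega), sg_zero] at h1
  refine h (Finset.mem_Ico.2 ?_)
  have h2 := sa_le o
  omega

lemma kk_inD (hqm : 5 * qj j < 2 * m) (o : PO e j) {k : ℕ} (h : k ∈ Ik o) :
    (1 / 2 : ℝ) ^ (e + 2) ≤ kk (qj j) (yD m o + k • eT 0) := by
  have h1 := Finset.mem_Ico.1 h
  have h2 := sa_le o
  have hk : k ≤ 3 * qj j := by omega
  rw [yD_add]
  have hw : ∀ c, wv (dsp eT ((Tq e (qj j) ++ WA o) ++ List.replicate k 0) :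
      Fin (e + 3) → ZMod (2 * m)) c =
        ((Tq e (qj j) ++ WA o) ++ List.replicate k 0).count c := fun c => by
    have := sg_le o hk c
    rw [wv_dsp (by omega)]
  refine kk_low (qj_pos j) ?_ fun c hc => ?_
  · rw [hw, sg_zero]
    omega
  · rw [hw]
    have := sg_ne o k hc
    omega

lemma KKD_eq (hqm : 5 * qj j < 2 * m) (o : PO e j) :
    KK (qj j) (yD m o) (r0 o) = ∑ k ∈ Ik o, kk (qj j) (yD m o + k • eT 0) := by
  unfold KK
  refine (Finset.sum_subset (Ik_sub o) fun k hk hk' => ?_).symm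
  exact kk_outD hqm o (Finset.mem_range.1 hk) hk'

lemma KKD_le (hqm : 5 * qj j < 2 * m) (o : PO e j) : KK (qj j) (yD m o) (r0 o) ≤ qj j := by
  rw [KKD_eq hqm]
  calc _ ≤ ∑ _k ∈ Ik o, (1 : ℝ) := Finset.sum_le_sum fun k _ => kk_le _ _
    _ = qj j := by rw [Finset.sum_const, Ik_card, nsmul_eq_mul, mul_one]

lemma KKD_ge (hqm : 5 * qj j < 2 * m) (o : PO e j) :
    (1 / 2 : ℝ) ^ (e + 2) * qj j ≤ KK (qj j) (yD m o) (r0 o) := by
  rw [KKD_eq hqm]
  calc (1 / 2 : ℝ) ^ (e + 2) * qj j = ∑ _k ∈ Ik o, (1 / 2 : ℝ) ^ (e + 2) := by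
        rw [Finset.sum_const, Ik_card, nsmul_eq_mul]; ring
    _ ≤ _ := Finset.sum_le_sum fun k hk => kk_inD hqm o hk

end wt

variable {G : Type*} [Group G] [TopologicalSpace G] [IsTopologicalGroup G] [CompactSpace G]
  [SecondCountableTopology G] [MeasurableSpace G] [BorelSpace G] (μ : Measure G)
  [IsProbabilityMeasure μ] [μ.IsMulLeftInvariant] [μ.IsMulRightInvariant] [μ.IsInvInvariant]
  {N n : ℕ} {L : LD G N n} {β : ℝ}

/-- a fan is close to a comb -/
lemma fw_srt {d m : ℕ} [NeZero m] (hd : 4 ≤ d) (hm : 2 ≤ m) (hN : 1 ≤ N) (hβ : 0 < β)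
    {i k : Fin d} (hik : i ≠ k)
    (r v : ℕ) (hv : v < 2 ^ r) (hr : 4 * 2 ^ (r + 1) ≤ 2 * m) (x : Fin d → ZMod (2 * m)) :
    Srt μ L β x (R990.fw i k r v) (fun c => if c = i then 2 ^ r + v else if c = k then v else 0)
      (7 * (d : ℝ) * pr N β (2 ^ (r + 1))) := by
  induction r generalizing v x with
  | zero =>
    have hv0 : v = 0 := by simpa using hv
    subst hv0
    have h1 := srep μ (L := L) (β := β) hd hm hN hβ (ρ := 2 ^ (0 + 1)) (nn := 1) hr (by norm_num)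
      (fun k => Nat.zero_le _) (Srt.nil μ x) i
    refine h1.mono μ (fun c => ?_) ?_
    · by_cases h : c = i
      · simp [h]
      · simp [h]
    · have h2 := pr_nonneg N β (2 ^ (0 + 1))
      have h3 : 0 ≤ (d : ℝ) * pr N β (2 ^ (0 + 1)) := by positivity
      linarith
  | succ r ih =>
    have hp : 2 ^ (r + 1) = 2 * 2 ^ r := by rw [pow_succ]; ring
    have hp2 : 2 ^ (r + 1 + 1) = 4 * 2 ^ r := by rw [pow_succ, hp]; ring
    have h1 := ih (v / 2) (by omega) (by omega) x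
    have h2 := srep μ (L := L) (β := β) hd hm hN hβ (ρ := 2 ^ (r + 1 + 1))
      (nn := 2 ^ r + (v - v / 2)) hr (by omega) (fun c => by
        split_ifs <;> omega) h1 i
    have h3 := srep μ (L := L) (β := β) hd hm hN hβ (ρ := 2 ^ (r + 1 + 1))
      (nn := v - v / 2) hr (by omega) (fun c => by
        split_ifs <;> omega) h2 k
    rw [R990.fw_succ, ← List.append_assoc]
    refine h3.mono μ (fun c => ?_) ?_
    · by_cases h : c = i
      · have h' : ¬i = k := hik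
        simp only [h, if_true, h', if_false]
        omega
      · by_cases h' : c = k
        · simp only [h', Ne.symm hik, if_true, if_false]
          omega
        · simp [h, h']
    · have h4 := pr_two N β (r + 1)
      have h5 := sqrt_two_ge
      have h6 := pr_nonneg N β (2 ^ (r + 1))
      have h7 : 0 ≤ (d : ℝ) * pr N β (2 ^ (r + 1)) := by positivity
      rw [h4]
      nlinarith

variable {e m : ℕ} [NeZero m] {j : ℕ}

lemma SCrep (he : 1 ≤ e) (hm : 2 ≤ m) (hN : 1 ≤ N) (hβ : 0 < β) {ρ nn : ℕ} (hρ : 4 * ρ ≤ 2 * m)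
    {w : List (Fin (e + 3))} {b : ℝ} (h : SC μ L m β w b) (i : Fin (e + 3))
    (hc : ∀ k, (w ++ List.replicate nn i).count k ≤ ρ) :
    SC μ L m β (w ++ List.replicate nn i) (b + ((e + 3 : ℕ) : ℝ) * pr N β ρ) := by
  have h1 : ∀ k, w.count k ≤ ρ := fun k => by
    have := hc k; rw [List.count_append] at this; omega
  have h2 : nn ≤ ρ := by
    have := hc i; rw [List.count_append, List.count_replicate_self] at this; omega
  refine (srep μ (by omega) hm hN hβ hρ h2 h1 h i).mono μ (fun k => ?_) le_rfl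
  rw [List.count_append, List.count_replicate]
  congr 1
  by_cases hk : k = i
  · subst hk; simp
  · have h' : ¬i = k := fun h1 => hk h1.symm
    simp [hk, h']

lemma SCcb (he : 1 ≤ e) (hm : 2 ≤ m) (hN : 1 ≤ N) (hβ : 0 < β) {ρ : ℕ} (hρ : 4 * ρ ≤ 2 * m)
    {w : List (Fin (e + 3))} {b : ℝ} (h : SC μ L m β w b) (v' : Fin (e + 3) → ℕ)
    (hc : ∀ k, (w ++ cb v').count k ≤ ρ) :
    SC μ L m β (w ++ cb v') (b + ((e + 3 : ℕ) : ℝ) * (((e + 3 : ℕ) : ℝ) * pr N β ρ)) := by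
  have h1 : ∀ k, w.count k + v' k ≤ ρ := fun k => by
    have := hc k; rwa [List.count_append, count_cb] at this
  refine (scb μ (by omega) hm hN hβ hρ h1 h).mono μ (fun k => ?_) le_rfl
  rw [List.count_append, count_cb]

lemma SCfw (he : 1 ≤ e) (hm : 2 ≤ m) (hN : 1 ≤ N) (hβ : 0 < β) {ρ : ℕ} (hρ : 4 * ρ ≤ 2 * m)
    {w : List (Fin (e + 3))} {b : ℝ} (h : SC μ L m β w b) {r v : ℕ} (hv : v < 2 ^ r)
    (hr : 2 ^ (r + 1) ≤ ρ)
    (hc : ∀ k, (w ++ R990.fw 1 0 r v).count k ≤ ρ) :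
    SC μ L m β (w ++ R990.fw 1 0 r v)
      (b + 8 * (((e + 3 : ℕ) : ℝ) * (((e + 3 : ℕ) : ℝ) * pr N β ρ))) := by
  obtain ⟨v', hv'⟩ : ∃ v' : Fin (e + 3) → ℕ, v' = fun c => if c = 1 then 2 ^ r + v else
    if c = 0 then v else 0 := ⟨_, rfl⟩
  have hfw : ∀ k, (R990.fw (1 : Fin (e + 3)) 0 r v).count k = v' k := fun k => by
    rw [count_fw one_ne r v hv, hv']
  have h1 : ∀ k, w.count k + v' k ≤ ρ := fun k => by
    have := hc k; rwa [List.count_append, hfw] at this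
  have h2 := scb μ (L := L) (by omega) hm hN hβ hρ h1 h
  have h3 : ∀ y : Fin (e + 3) → ZMod (2 * m), Srt μ L β y (R990.fw 1 0 r v) v'
      (7 * ((e + 3 : ℕ) : ℝ) * pr N β (2 ^ (r + 1))) := fun y => by
    rw [hv']
    exact fw_srt μ (by omega) hm hN hβ one_ne r v hv (by omega) y
  refine (srt_app μ h3 h2).mono μ (fun k => ?_) ?_
  · rw [List.count_append, hfw]
  · have h4 := pr_mono (N := N) hβ hr
    have h5 := pr_nonneg N β ρ
    have h6 : (1 : ℝ) ≤ ((e + 3 : ℕ) : ℝ) := by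
      push_cast
      have : (0 : ℝ) ≤ e := Nat.cast_nonneg e
      linarith
    have h7 : 7 * ((e + 3 : ℕ) : ℝ) * pr N β (2 ^ (r + 1)) ≤
        7 * (((e + 3 : ℕ) : ℝ) * (((e + 3 : ℕ) : ℝ) * pr N β ρ)) := by
      have h8 : pr N β (2 ^ (r + 1)) ≤ ((e + 3 : ℕ) : ℝ) * pr N β ρ := by
        calc _ ≤ pr N β ρ := h4
          _ = 1 * pr N β ρ := (one_mul _).symm
          _ ≤ _ := mul_le_mul_of_nonneg_right h6 h5
      have h9 := mul_le_mul_of_nonneg_left h8 (by linarith : (0 : ℝ) ≤ ((e + 3 : ℕ) : ℝ))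
      linarith
    linarith

/-- the unit of the errors -/
def u2 (e N j : ℕ) (β : ℝ) : ℝ :=
  ((e + 3 : ℕ) : ℝ) * (((e + 3 : ℕ) : ℝ) * pr N β (8 * qj j))

lemma u2_nonneg (e N j : ℕ) (β : ℝ) : 0 ≤ u2 e N j β := by
  unfold u2
  have := pr_nonneg N β (8 * qj j)
  positivity

lemma p_le_u2 (e N j : ℕ) (β : ℝ) : ((e + 3 : ℕ) : ℝ) * pr N β (8 * qj j) ≤ u2 e N j β := by
  unfold u2
  have h1 := pr_nonneg N β (8 * qj j)
  have h6 : (1 : ℝ) ≤ ((e + 3 : ℕ) : ℝ) := by
    push_cast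
    have : (0 : ℝ) ≤ e := Nat.cast_nonneg e
    linarith
  have h2 : 0 ≤ ((e + 3 : ℕ) : ℝ) * pr N β (8 * qj j) := by positivity
  nlinarith

lemma SCm {w : List (Fin (e + 3))} {b b' : ℝ} (h : SC μ L m β w b) (hb : b ≤ b') :
    SC μ L m β w b' := Srt.mono μ h (fun _ => rfl) hb

lemma cnt_of {w1 w2 : List (Fin (e + 3))} {ρ : ℕ} (h : ∀ k, (w1 ++ w2).count k ≤ ρ)
    (k : Fin (e + 3)) : w1.count k ≤ ρ := by
  have := h k
  rw [List.count_append] at this
  omega

lemma SCT (he : 1 ≤ e) (hm : 2 ≤ m) (hN : 1 ≤ N) (hβ : 0 < β) (hqm : 32 * qj j ≤ 2 * m) :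
    SC μ L m β (Tq e (qj j)) (u2 e N j β) := by
  have h := SCrep μ (L := L) he hm hN hβ (ρ := 8 * qj j) (nn := 2 * qj j) (by omega) (SC.nil μ)
    (Fin.last (e + 2)) (fun k => by
      rw [List.nil_append]
      have := count_Tq (e := e) (q := qj j) k
      unfold Tq at this
      rw [this]
      split_ifs <;> omega)
  rw [List.nil_append, zero_add] at h
  exact SCm μ h (p_le_u2 e N j β)

/-- a fan and a comb -/
lemma SCtw (he : 1 ≤ e) (hm : 2 ≤ m) (hN : 1 ≤ N) (hβ : 0 < β) (hqm : 32 * qj j ≤ 2 * m)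
    {w : List (Fin (e + 3))} {b : ℝ} (h : SC μ L m β w b) {s t : ℕ} {v : Fin (e + 3) → ℕ}
    (hs : s < qj j) (hc : ∀ k, (w ++ tw j s t v).count k ≤ 8 * qj j) :
    SC μ L m β (w ++ tw j s t v) (b + 10 * u2 e N j β) := by
  have e1 : w ++ tw j s t v = ((w ++ R990.fw 1 0 (j + 1) s) ++
      List.replicate (t - (qj j + s)) 1) ++ cb v := by
    unfold tw
    simp only [List.append_assoc]
  rw [e1] at hc ⊢
  have c1 := cnt_of hc
  have c2 := cnt_of c1
  have h1 := SCfw μ he hm hN hβ (ρ := 8 * qj j) (by omega) h (r := j + 1) (v := s) hs (by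
    have : 2 ^ (j + 1 + 1) = 2 * qj j := by unfold qj; rw [pow_succ (2) (j + 1)]; ring
    omega) c2
  have h2 := SCrep μ he hm hN hβ (ρ := 8 * qj j) (by omega) h1 1 c1
  have h3 := SCcb μ he hm hN hβ (ρ := 8 * qj j) (by omega) h2 v hc
  refine SCm μ h3 ?_
  have h4 := p_le_u2 e N j β
  have h5 : ((e + 3 : ℕ) : ℝ) * (((e + 3 : ℕ) : ℝ) * pr N β (8 * qj j)) = u2 e N j β := rfl
  rw [h5]
  linarith

lemma SCTA (he : 1 ≤ e) (hm : 2 ≤ m) (hN : 1 ≤ N) (hβ : 0 < β) (hqm : 32 * qj j ≤ 2 * m)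
    (o : PO e j) : SC μ L m β (Tq e (qj j) ++ WA o) (11 * u2 e N j β) := by
  refine SCm μ (SCtw μ he hm hN hβ hqm (SCT μ he hm hN hβ hqm) (by
    have := sa_le o; omega) fun k => ?_) (by linarith [u2_nonneg e N j β])
  have h1 := count_sg o 0 k
  have h2 := sg_le o (k := 0) (by omega) k
  rw [List.replicate_zero, List.append_nil] at h2
  unfold WA at h2
  omega

/-- the frame is close to the comb -/
lemma DT_srt (he : 1 ≤ e) (hm : 2 ≤ m) (hN : 1 ≤ N) (hβ : 0 < β) (hqm : 32 * qj j ≤ 2 * m)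
    {v : Fin (e + 3) → ℕ} (hv : ∀ c, v c ≤ 4 * qj j) {y : Fin (e + 3) → ZMod (2 * m)}
    (hy : wv y = v) :
    Srt μ L β (0 : Fin (e + 3) → ZMod (2 * m)) (dw (qj j) y) v (6 * u2 e N j β) := by
  have hl1 := lg2_lt (qj j)
  have hl2 := lg2_le (qj_pos j)
  have h1 : ∀ x : Fin (e + 3) → ZMod (2 * m), Srt μ L β x (hq (z0 v) (lg2 (qj j)))
      (z0 v) (4 * ((e + 3 : ℕ) : ℝ) ^ 2 * pr N β (2 ^ lg2 (qj j))) := fun x => by
    refine (hq_srt μ (L := L) (by omega) hm hN hβ (z0 v) (lg2 (qj j)) (by omega) x).mono μ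
      (fun k => ?_) le_rfl
    unfold z0
    split_ifs
    · rfl
    · exact Nat.mod_eq_of_lt (by have := hv k; omega)
  have h2 := srep μ (L := L) (β := β) (by omega) hm hN hβ (ρ := 8 * qj j) (nn := v 0) (by omega)
    (by have := hv 0; omega) (fun k => Nat.zero_le _)
    (Srt.nil μ (0 : Fin (e + 3) → ZMod (2 * m))) 0
  have h3 := scb μ (L := L) (by omega) hm hN hβ (ρ := 8 * qj j) (by omega) (v' := z0 v)
    (fun k => by
      unfold z0
      have := hv k
      by_cases h : k = 0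
      · subst h; simp; omega
      · simp [h]; omega) h2
  rw [List.nil_append] at h3
  have h4 := srt_app μ h1 h3
  unfold dw
  rw [hy]
  refine h4.mono μ (fun k => ?_) ?_
  · unfold z0
    by_cases h : k = 0
    · subst h; simp
    · simp [h]
  · have h5 := pr_mono (N := N) hβ (show 2 ^ lg2 (qj j) ≤ 8 * qj j by omega)
    have h6 := p_le_u2 e N j β
    have h7 : 4 * ((e + 3 : ℕ) : ℝ) ^ 2 * pr N β (2 ^ lg2 (qj j)) ≤ 4 * u2 e N j β := by
      have h8 := mul_le_mul_of_nonneg_left h5 (show 0 ≤ 4 * ((e + 3 : ℕ) : ℝ) ^ 2 by positivity)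
      refine h8.trans (le_of_eq ?_)
      unfold u2
      ring
    have h9 : ((e + 3 : ℕ) : ℝ) * (((e + 3 : ℕ) : ℝ) * pr N β (8 * qj j)) = u2 e N j β := rfl
    rw [h9]
    linarith

/-- the error of the segments -/
lemma sg_en (he : 1 ≤ e) (hm : 2 ≤ m) (hN : 1 ≤ N) (hβ : 0 < β) (hqm : 32 * qj j ≤ 2 * m)
    (o : PO e j) {k : ℕ} (hk : k ≤ 3 * qj j) :
    en μ L β (fun U : Ed (e + 3) (2 * m) → G =>
      dd L (tp eT U 0 (Tq e (qj j) ++ WA o) * tp eT U (yD m o) (List.replicate k 0))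
        (DT (qj j) U (yD m o + k • eT 0))) ≤ 18 * u2 e N j β := by
  have hc := sg_le o hk
  have h1 := SCrep μ (L := L) he hm hN hβ (ρ := 8 * qj j) (by omega) (SCTA μ he hm hN hβ hqm o) 0
    (fun c => (hc c).trans (by omega))
  have h2 := DT_srt μ (L := L) he hm hN hβ hqm hc (y := yD m o + k • eT 0) (by
    funext c
    rw [yD_add, wv_dsp (by have := hc c; have := qj_pos j; omega)])
  have h4 : ∀ U : Ed (e + 3) (2 * m) → G,
      tp eT U 0 (Tq e (qj j) ++ WA o) * tp eT U (yD m o) (List.replicate k 0) =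
      tp eT U 0 ((Tq e (qj j) ++ WA o) ++ List.replicate k 0) := by
    intro U
    rw [tp2 U (Tq e (qj j) ++ WA o)]
    rfl
  simp only [h4]
  have h5 := Srt.cmp μ h1 h2
  have h6 := p_le_u2 e N j β
  refine h5.trans ?_
  linarith

lemma SCTP (he : 1 ≤ e) (hm : 2 ≤ m) (hN : 1 ≤ N) (hβ : 0 < β) (hqm : 32 * qj j ≤ 2 * m)
    (o : PO e j) : SC μ L m β (Tq e (qj j) ++ WP o) (13 * u2 e N j β) := by
  have hc := fun c => (count_TP o c).trans (show 5 * qj j ≤ 8 * qj j by omega)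
  have e1 : Tq e (qj j) ++ WP o = ((Tq e (qj j) ++ WA o) ++ List.replicate (r0 o) 0) ++
      List.replicate (r1 o) 1 := by
    unfold WP
    simp only [List.append_assoc]
  rw [e1] at hc ⊢
  have h1 := SCrep μ (L := L) he hm hN hβ (ρ := 8 * qj j) (by omega) (SCTA μ he hm hN hβ hqm o) 0
    (cnt_of hc)
  have h2 := SCrep μ (L := L) he hm hN hβ (ρ := 8 * qj j) (by omega) h1 1 hc
  have h6 := p_le_u2 e N j β
  exact SCm μ h2 (by linarith)

lemma SCTQ (he : 1 ≤ e) (hm : 2 ≤ m) (hN : 1 ≤ N) (hβ : 0 < β) (hqm : 32 * qj j ≤ 2 * m)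
    (o : PO e j) : SC μ L m β (Tq e (qj j) ++ WQ o) (13 * u2 e N j β) := by
  have hc := fun c => (count_TQ o c).trans (show 5 * qj j ≤ 8 * qj j by omega)
  have e1 : Tq e (qj j) ++ WQ o = ((Tq e (qj j) ++ WA o) ++ List.replicate (r1 o) 1) ++
      List.replicate (r0 o) 0 := by
    unfold WQ
    simp only [List.append_assoc]
  rw [e1] at hc ⊢
  have h1 := SCrep μ (L := L) he hm hN hβ (ρ := 8 * qj j) (by omega) (SCTA μ he hm hN hβ hqm o) 1
    (cnt_of hc)
  have h2 := SCrep μ (L := L) he hm hN hβ (ρ := 8 * qj j) (by omega) h1 0 hc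
  have h6 := p_le_u2 e N j β
  exact SCm μ h2 (by linarith)

lemma SCTZ (he : 1 ≤ e) (hm : 2 ≤ m) (hN : 1 ≤ N) (hβ : 0 < β) (hqm : 32 * qj j ≤ 2 * m)
    (o : PO e j) : SC μ L m β (Tq e (qj j) ++ WZ o) (13 * u2 e N j β) := by
  have hc := fun c => (count_TZ o c).trans (show 5 * qj j ≤ 8 * qj j by omega)
  have e1 : Tq e (qj j) ++ WZ o = (Tq e (qj j) ++ List.replicate (2 * qj j) 0) ++ WB o := by
    unfold WZ
    simp only [List.append_assoc]
  rw [e1] at hc ⊢
  have h1 := SCrep μ (L := L) he hm hN hβ (ρ := 8 * qj j) (by omega) (SCT μ he hm hN hβ hqm) 0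
    (cnt_of hc)
  have h2 := SCtw μ he hm hN hβ hqm h1 (by have := sb_le o; omega) hc
  have h6 := p_le_u2 e N j β
  have h7 := u2_nonneg e N j β
  exact SCm μ h2 (by linarith)

/-- the loops are close to the identity -/
lemma hP_en (he : 1 ≤ e) (hm : 2 ≤ m) (hN : 1 ≤ N) (hβ : 0 < β) (hqm : 32 * qj j ≤ 2 * m)
    (o : PO e j) :
    en μ L β (fun U : Ed (e + 3) (2 * m) → G => dv L (hP o U)) ≤ 26 * u2 e N j β := by
  have hf := SC.cmp μ (SCTP μ (L := L) he hm hN hβ hqm o) (SCTZ μ he hm hN hβ hqm o) fun k => by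
    rw [List.count_append, List.count_append, count_WP]
  unfold hP
  simp only [← dd_dv]
  refine hf.trans (le_of_eq ?_)
  ring

lemma hQ_en (he : 1 ≤ e) (hm : 2 ≤ m) (hN : 1 ≤ N) (hβ : 0 < β) (hqm : 32 * qj j ≤ 2 * m)
    (o : PO e j) :
    en μ L β (fun U : Ed (e + 3) (2 * m) → G => dv L (hQ o U)) ≤ 26 * u2 e N j β := by
  have hf := SC.cmp μ (SCTQ μ (L := L) he hm hN hβ hqm o) (SCTZ μ he hm hN hβ hqm o) fun k => by
    rw [List.count_append, List.count_append, count_WQ]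
  unfold hQ
  simp only [← dd_dv]
  refine hf.trans (le_of_eq ?_)
  ring

end

end Pool.Agent.U319
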