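import Mathlib
import Pool.Agent.Y14.Psi
import Pool.Agent.U319.Rs2

/-!
# The observable and its response
-/

open MeasureTheory Matrix Filter
open scoped Matrix.Norms.Frobenius Topology
open Pool.Agent.H906R3.YM hiding Pl
open Pool.Agent.W793.YM Pool.Agent.TH618.YM Pool.Agent.Y14

namespace Pool.Agent.U319

set_option linter.unusedSectionVars false
set_option linter.unusedVariables false

noncomputable section

variable {G : Type*} [Group G] [TopologicalSpace G] [IsTopologicalGroup G] [CompactSpace G]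
  [SecondCountableTopology G] [MeasurableSpace G] [BorelSpace G] (μ : Measure G)
  [IsProbabilityMeasure μ] [μ.IsMulLeftInvariant] [μ.IsMulRightInvariant] [μ.IsInvInvariant]
  {N n : ℕ} {L : LD G N n} {e m : ℕ} [NeZero m] {j : ℕ} {β : ℝ}

variable (L) in
/-- the field, transported to the origin -/
def psD (j : ℕ) (U : Ed (e + 3) (2 * m) → G) : Mat N :=
  ((Fintype.card (PO e j) : ℝ))⁻¹ • ∑ o : PO e j, (L.rho (hP o U) - L.rho (hQ o U))

lemma hP_cont (o : PO e j) : Continuous fun U : Ed (e + 3) (2 * m) → G => hP o U :=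
  (tp_cont _ _).mul (tp_cont _ _).inv

lemma hQ_cont (o : PO e j) : Continuous fun U : Ed (e + 3) (2 * m) → G => hQ o U :=
  (tp_cont _ _).mul (tp_cont _ _).inv

lemma psD_cont : Continuous fun U : Ed (e + 3) (2 * m) → G => psD L j U := by
  have h1 : Continuous fun U : Ed (e + 3) (2 * m) → G =>
      ∑ o : PO e j, (L.rho (hP o U) - L.rho (hQ o U)) :=
    continuous_finsetSum _ fun o _ =>
      (L.cont.comp (hP_cont (m := m) o)).sub (L.cont.comp (hQ_cont (m := m) o))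
  exact h1.const_smul ((Fintype.card (PO e j) : ℝ))⁻¹

lemma psD_eq (U : Ed (e + 3) (2 * m) → G) : psD L j U = L.rho (tp eT U 0 (Tq e (qj j))) *
    ph eT L j U (dsp eT (Tq e (qj j))) *
      L.rho (tp eT U 0 (Tq e (qj j) ++ List.replicate (2 * qj j) 0))⁻¹ := by
  unfold psD ph
  rw [mul_smul_comm, smul_mul_assoc, Finset.mul_sum, Finset.sum_mul]
  congr 1
  refine Finset.sum_congr rfl fun o _ => ?_
  have key : ∀ w : List (Fin (e + 3)),
      tp eT U 0 (Tq e (qj j) ++ w) * (tp eT U 0 (Tq e (qj j) ++ WZ o))⁻¹ =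
      tp eT U 0 (Tq e (qj j)) * lp eT w (WB o) j U (dsp eT (Tq e (qj j))) *
        (tp eT U 0 (Tq e (qj j) ++ List.replicate (2 * qj j) 0))⁻¹ := by
    intro w
    unfold lp WZ
    rw [← List.append_assoc, tp2 U (Tq e (qj j) ++ List.replicate (2 * qj j) 0) (WB o),
      tp2 U (Tq e (qj j)) w, dsp_append (Tq e (qj j)) (List.replicate (2 * qj j) 0), dsp_rep]
    group
  unfold hP hQ
  rw [key (WP o), key (WQ o), mul_sub, sub_mul, map_mul, map_mul, map_mul, map_mul]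

lemma norm_psD (U : Ed (e + 3) (2 * m) → G) :
    ‖psD L j U‖ = ‖ph eT L j U ((2 * qj j) • eT (Fin.last (e + 2)))‖ := by
  rw [psD_eq, norm_rmul, norm_lmul]
  unfold Tq
  rw [dsp_rep]

/-- the mean weight -/
def KbD (e j m : ℕ) [NeZero m] : ℝ :=
  ((Fintype.card (PO e j) : ℝ))⁻¹ * ∑ o : PO e j, KK (qj j) (yD m o) (r0 o)

lemma card_posD (e j : ℕ) : (0 : ℝ) < Fintype.card (PO e j) := by
  have h1 : Nonempty (Fin (qj j)) := ⟨⟨0, qj_pos j⟩⟩
  have h2 : Nonempty (Fin (2 ^ j)) := ⟨⟨0, by positivity⟩⟩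
  exact_mod_cast Fintype.card_pos

lemma avg_leD {f : PO e j → ℝ} {c : ℝ} (h : ∀ o, f o ≤ c) :
    ((Fintype.card (PO e j) : ℝ))⁻¹ * ∑ o : PO e j, f o ≤ c := by
  have h0 := card_posD e j
  have h1 : ∑ o : PO e j, f o ≤ Fintype.card (PO e j) * c := by
    calc _ ≤ ∑ _o : PO e j, c := Finset.sum_le_sum fun o _ => h o
      _ = _ := by rw [Finset.sum_const, Finset.card_univ, nsmul_eq_mul]
  rw [inv_mul_le_iff₀ h0]
  exact h1

lemma KbD_le (hqm : 5 * qj j < 2 * m) : KbD e j m ≤ qj j :=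
  avg_leD fun o => KKD_le hqm o

lemma KbD_ge (hqm : 5 * qj j < 2 * m) : (1 / 2 : ℝ) ^ (e + 2) * qj j ≤ KbD e j m := by
  have h0 := card_posD e j
  unfold KbD
  rw [le_inv_mul_iff₀ h0]
  calc (Fintype.card (PO e j) : ℝ) * ((1 / 2 : ℝ) ^ (e + 2) * qj j) =
      ∑ _o : PO e j, (1 / 2 : ℝ) ^ (e + 2) * qj j := by
        rw [Finset.sum_const, Finset.card_univ, nsmul_eq_mul]
    _ ≤ _ := Finset.sum_le_sum fun o _ => KKD_ge hqm o

variable (L) in
/-- the error of the response -/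
def ErD (j : ℕ) (s : ℝ) (U : Ed (e + 3) (2 * m) → G) : ℝ :=
  ((Fintype.card (PO e j) : ℝ))⁻¹ * ∑ o : PO e j,
    (ERD L (qj j) U (tp eT U 0 (Tq e (qj j) ++ WA o)) (yD m o) (r0 o) + |s| * (qj j : ℝ) ^ 2 +
      qj j * dv L (hP o U))

lemma ERD_nonneg (U : Ed (e + 3) (2 * m) → G) (g : G) (y : Fin (e + 3) → ZMod (2 * m)) (r : ℕ) :
    0 ≤ ERD L (qj j) U g y r :=
  Finset.sum_nonneg fun _ _ => mul_nonneg (mul_nonneg zero_le_two (kk_nonneg _ _)) (dd_nonneg _ _)

lemma ErD_nonneg (s : ℝ) (U : Ed (e + 3) (2 * m) → G) : 0 ≤ ErD L j s U := by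
  unfold ErD
  refine mul_nonneg (by positivity) (Finset.sum_nonneg fun o _ => ?_)
  have h1 := ERD_nonneg (L := L) (j := j) U (tp eT U 0 (Tq e (qj j) ++ WA o)) (yD m o) (r0 o)
  have h2 : 0 ≤ |s| * (qj j : ℝ) ^ 2 := by positivity
  have h3 : 0 ≤ (qj j : ℝ) * dv L (hP o U) := mul_nonneg (Nat.cast_nonneg _) (dv_nonneg _)
  linarith

/-- the response of the field -/
lemma psD_resp (hqm : 5 * qj j < 2 * m) (a : Fin n) (s : ℝ)
    (U : Ed (e + 3) (2 * m) → G) :
    ‖psD L j (PD L (qj j) a s U) - psD L j U - (s * KbD e j m) • L.X a‖ ≤ |s| * ErD L j s U := by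
  have e1 : psD L j (PD L (qj j) a s U) - psD L j U - (s * KbD e j m) • L.X a =
      ((Fintype.card (PO e j) : ℝ))⁻¹ • ∑ o : PO e j, (L.rho (hP o (PD L (qj j) a s U)) -
        L.rho (hP o U) - (s * KK (qj j) (yD m o) (r0 o)) • L.X a) := by
    unfold psD KbD
    simp only [hQ_PD hqm]
    rw [← smul_sub, ← Finset.sum_sub_distrib]
    have e2 : (s * (((Fintype.card (PO e j) : ℝ))⁻¹ * ∑ o : PO e j, KK (qj j) (yD m o) (r0 o))) •
        L.X a = ((Fintype.card (PO e j) : ℝ))⁻¹ • ∑ o : PO e j,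
          (s * KK (qj j) (yD m o) (r0 o)) • L.X a := by
      rw [← Finset.sum_smul, ← Finset.mul_sum, smul_smul]
      congr 1
      ring
    rw [e2, ← smul_sub, ← Finset.sum_sub_distrib]
    congr 1
    refine Finset.sum_congr rfl fun o _ => ?_
    abel
  have h0 := card_posD e j
  rw [e1, norm_smul, norm_inv, Real.norm_natCast]
  unfold ErD
  rw [mul_left_comm]
  refine mul_le_mul_of_nonneg_left ?_ (inv_nonneg.2 h0.le)
  refine (norm_sum_le _ _).trans ?_
  rw [Finset.mul_sum]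
  refine Finset.sum_le_sum fun o _ => ?_
  refine (one_resp a _ _ _).trans ?_
  have h1 := hP_PD (L := L) hqm a s U o
  have h2 := KKD_le hqm o
  have h3 := KK_nonneg (q := qj j) (yD m o) (r0 o)
  have h4 : (s * KK (qj j) (yD m o) (r0 o)) ^ 2 ≤ |s| * (|s| * (qj j : ℝ) ^ 2) := by
    rw [mul_pow, ← mul_assoc, ← sq, sq_abs]
    exact mul_le_mul_of_nonneg_left (pow_le_pow_left₀ h3 h2 2) (sq_nonneg _)
  have h5 : |s * KK (qj j) (yD m o) (r0 o)| * dv L (hP o U) ≤ |s| * (qj j * dv L (hP o U)) := by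
    rw [abs_mul, abs_of_nonneg h3, mul_assoc]
    exact mul_le_mul_of_nonneg_left (mul_le_mul_of_nonneg_right h2 (dv_nonneg _)) (abs_nonneg _)
  rw [mul_add, mul_add]
  linarith

lemma ERDd_cont (o : PO e j) (k : ℕ) : Continuous fun U : Ed (e + 3) (2 * m) → G =>
    dd L (tp eT U 0 (Tq e (qj j) ++ WA o) * tp eT U (yD m o) (List.replicate k 0))
        (DT (qj j) U (yD m o + k • eT 0)) :=
  dd_cont ((tp_cont _ _).mul (tp_cont _ _)) (tp_cont _ _)

lemma ERD_cont (o : PO e j) : Continuous fun U : Ed (e + 3) (2 * m) → G =>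
    ERD L (qj j) U (tp eT U 0 (Tq e (qj j) ++ WA o)) (yD m o) (r0 o) :=
  continuous_finsetSum _ fun k _ => continuous_const.mul (ERDd_cont o k)

lemma dvhP_cont (o : PO e j) : Continuous fun U : Ed (e + 3) (2 * m) → G => dv L (hP o U) :=
  dv_cont.comp (hP_cont o)

lemma dvhQ_cont (o : PO e j) : Continuous fun U : Ed (e + 3) (2 * m) → G => dv L (hQ o U) :=
  dv_cont.comp (hQ_cont o)

lemma ErD_cont (s : ℝ) : Continuous (ErD L j s : (Ed (e + 3) (2 * m) → G) → ℝ) :=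
  continuous_const.mul (continuous_finsetSum _ fun o _ =>
    ((ERD_cont o).add continuous_const).add (continuous_const.mul (dvhP_cont o)))

lemma ERD_en (he : 1 ≤ e) (hm : 2 ≤ m) (hN : 1 ≤ N) (hβ : 0 < β) (hqm : 32 * qj j ≤ 2 * m)
    (o : PO e j) : en μ L β (fun U : Ed (e + 3) (2 * m) → G =>
      ERD L (qj j) U (tp eT U 0 (Tq e (qj j) ++ WA o)) (yD m o) (r0 o)) ≤
      2 * qj j * (18 * u2 e N j β) := by
  have hu := u2_nonneg e N j β
  have hu' : 0 ≤ 18 * u2 e N j β := by positivity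
  have hqm5 : 5 * qj j < 2 * m := by have := qj_pos j; omega
  unfold ERD
  refine (en_sum μ (Finset.range (r0 o)) fun k => continuous_const.mul (ERDd_cont o k)).trans ?_
  have h1 : ∀ k ∈ Finset.range (r0 o), en μ L β (fun U : Ed (e + 3) (2 * m) → G =>
      2 * kk (qj j) (yD m o + k • eT 0) *
      dd L (tp eT U 0 (Tq e (qj j) ++ WA o) * tp eT U (yD m o) (List.replicate k 0))
        (DT (qj j) U (yD m o + k • eT 0))) ≤
      if k ∈ Ik o then 2 * (18 * u2 e N j β) else 0 := by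
    intro k hk
    have hk' := Finset.mem_range.1 hk
    rw [en_smul μ (mul_nonneg zero_le_two (kk_nonneg _ _))]
    split_ifs with h
    · have h2 := sg_en μ (L := L) he hm hN hβ hqm o (k := k) (by have := r0_le o; omega)
      have h3 := kk_le (qj j) (yD m o + k • eT 0)
      have h4 := kk_nonneg (qj j) (yD m o + k • eT 0)
      calc _ ≤ 2 * kk (qj j) (yD m o + k • eT 0) * (18 * u2 e N j β) :=
            mul_le_mul_of_nonneg_left h2 (by linarith)
        _ ≤ 2 * 1 * (18 * u2 e N j β) :=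
            mul_le_mul_of_nonneg_right (by linarith) hu'
        _ = _ := by ring
    · rw [kk_outD hqm5 o hk' h]
      simp
  refine (Finset.sum_le_sum h1).trans (le_of_eq ?_)
  rw [← Finset.sum_filter, Finset.filter_mem_eq_inter, Finset.inter_eq_right.2 (Ik_sub o),
    Finset.sum_const, Ik_card, nsmul_eq_mul]
  ring

/-- the error of the response -/
lemma ErD_en (he : 1 ≤ e) (hm : 2 ≤ m) (hN : 1 ≤ N) (hβ : 0 < β) (hqm : 32 * qj j ≤ 2 * m)
    (s : ℝ) :
    en μ L β (ErD L j s : (Ed (e + 3) (2 * m) → G) → ℝ) ≤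
      qj j * (62 * u2 e N j β + |s| * qj j) := by
  have h0 := card_posD e j
  unfold ErD
  rw [en_smul μ (inv_nonneg.2 h0.le)]
  have hc1 : ∀ o : PO e j, Continuous fun U : Ed (e + 3) (2 * m) → G =>
      ERD L (qj j) U (tp eT U 0 (Tq e (qj j) ++ WA o)) (yD m o) (r0 o) + |s| * (qj j : ℝ) ^ 2 :=
    fun o => (ERD_cont o).add continuous_const
  have hc2 : ∀ o : PO e j, Continuous fun U : Ed (e + 3) (2 * m) → G =>
      (qj j : ℝ) * dv L (hP o U) := fun o => continuous_const.mul (dvhP_cont o)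
  refine le_trans (mul_le_mul_of_nonneg_left (en_sum μ Finset.univ fun o =>
    (hc1 o).add (hc2 o)) (inv_nonneg.2 h0.le)) ?_
  refine avg_leD fun o => ?_
  refine (en_add μ (hc1 o) (hc2 o)).trans ?_
  have h1 := en_add μ (L := L) (β := β) (ERD_cont (L := L) (m := m) o)
    (continuous_const (y := |s| * (qj j : ℝ) ^ 2))
  rw [en_const μ (by positivity)] at h1
  have h2 := ERD_en μ (L := L) he hm hN hβ hqm o
  have h3 := hP_en μ (L := L) he hm hN hβ hqm o
  have h4 : en μ L β (fun U : Ed (e + 3) (2 * m) → G => (qj j : ℝ) * dv L (hP o U)) ≤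
      qj j * (26 * u2 e N j β) := by
    rw [en_smul μ (Nat.cast_nonneg (qj j))]
    exact mul_le_mul_of_nonneg_left h3 (Nat.cast_nonneg (qj j))
  have h5 : (qj j : ℝ) * (62 * u2 e N j β + |s| * qj j) =
      2 * qj j * (18 * u2 e N j β) + |s| * (qj j : ℝ) ^ 2 +
        qj j * (26 * u2 e N j β) := by ring
  rw [h5]
  linarith

variable (L) in
/-- bound of the orthogonal part -/
def NrD (C0 : ℝ) (j : ℕ) (U : Ed (e + 3) (2 * m) → G) : ℝ :=
  ((Fintype.card (PO e j) : ℝ))⁻¹ * ∑ o : PO e j,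
    (Real.sqrt C0 * dv L (hP o U) ^ 2 + Real.sqrt C0 * dv L (hQ o U) ^ 2)

lemma nr_psD {C0 : ℝ} (hC0 : 0 ≤ C0)
    (hcar : ∀ g : G, dv L g ^ 2 ≤ ∑ a, fi L a g ^ 2 + C0 * dv L g ^ 4)
    (U : Ed (e + 3) (2 * m) → G) : ‖nr L (psD L j U)‖ ≤ NrD L C0 j U := by
  have h0 := card_posD e j
  unfold psD NrD
  rw [nr_smul, nr_sum, norm_smul, norm_inv, Real.norm_natCast]
  refine mul_le_mul_of_nonneg_left ?_ (inv_nonneg.2 h0.le)
  refine (norm_sum_le _ _).trans (Finset.sum_le_sum fun o _ => ?_)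
  have e1 : L.rho (hP o U) - L.rho (hQ o U) = (L.rho (hP o U) - 1) - (L.rho (hQ o U) - 1) := by
    abel
  rw [e1, nr_sub]
  exact (norm_sub_le _ _).trans (add_le_add (nr_rho hC0 hcar _) (nr_rho hC0 hcar _))

lemma NrD_nonneg {C0 : ℝ} (U : Ed (e + 3) (2 * m) → G) : 0 ≤ NrD L C0 j U := by
  unfold NrD
  refine mul_nonneg (by positivity) (Finset.sum_nonneg fun o _ => ?_)
  have h1 := Real.sqrt_nonneg C0
  positivity

lemma NrD_cont {C0 : ℝ} : Continuous (NrD L C0 j : (Ed (e + 3) (2 * m) → G) → ℝ) :=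
  continuous_const.mul (continuous_finsetSum _ fun o _ =>
    (continuous_const.mul ((dvhP_cont o).pow 2)).add (continuous_const.mul ((dvhQ_cont o).pow 2)))

lemma EX_NrD (he : 1 ≤ e) (hm : 2 ≤ m) (hN : 1 ≤ N) (hβ : 0 < β) (hqm : 32 * qj j ≤ 2 * m)
    {C0 : ℝ} (hC0 : 0 ≤ C0) : EX μ L β (NrD L C0 j : (Ed (e + 3) (2 * m) → G) → ℝ) ≤
      2 * Real.sqrt C0 * (26 * u2 e N j β) ^ 2 := by
  have h0 := card_posD e j
  have hs := Real.sqrt_nonneg C0
  have c1 : ∀ o : PO e j, Continuous fun U : Ed (e + 3) (2 * m) → G =>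
      Real.sqrt C0 * dv L (hP o U) ^ 2 := fun o => continuous_const.mul ((dvhP_cont o).pow 2)
  have c2 : ∀ o : PO e j, Continuous fun U : Ed (e + 3) (2 * m) → G =>
      Real.sqrt C0 * dv L (hQ o U) ^ 2 := fun o => continuous_const.mul ((dvhQ_cont o).pow 2)
  unfold NrD
  have c3 : ∀ o : PO e j, Continuous fun U : Ed (e + 3) (2 * m) → G =>
      Real.sqrt C0 * dv L (hP o U) ^ 2 + Real.sqrt C0 * dv L (hQ o U) ^ 2 :=
    fun o => (c1 o).add (c2 o)
  rw [EX_smul, EX_fsum μ _ c3]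
  refine avg_leD fun o => ?_
  rw [EX_add μ (c1 o) (c2 o), EX_smul, EX_smul, ← en_sq, ← en_sq]
  have h1 := hP_en μ (L := L) he hm hN hβ hqm o
  have h2 := hQ_en μ (L := L) he hm hN hβ hqm o
  have h3 := pow_le_pow_left₀ (en_nonneg μ _) h1 2
  have h4 := pow_le_pow_left₀ (en_nonneg μ _) h2 2
  nlinarith [mul_le_mul_of_nonneg_left h3 hs, mul_le_mul_of_nonneg_left h4 hs]

end

end Pool.Agent.U319
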