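import Mathlib
import Pool.Agent.U319.Nb2
import Pool.Agent.U319.Vr2
import Pool.Agent.Y14.Fin

/-!
# Slow decay of the time correlations
-/

open MeasureTheory Matrix Filter
open scoped Matrix.Norms.Frobenius Topology
open Pool.Agent.H906R3.YM hiding Pl
open Pool.Agent.W793.YM hiding rA_add
open Pool.Agent.TH618.YM Pool.Agent.Y14

namespace Pool.Agent.U319

set_option linter.unusedSectionVars false
set_option linter.unusedVariables false

noncomputable section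

variable {G : Type*} [Group G] [TopologicalSpace G] [IsTopologicalGroup G] [CompactSpace G]
  [SecondCountableTopology G] [MeasurableSpace G] [BorelSpace G] (μ : Measure G)
  [IsProbabilityMeasure μ] [μ.IsMulLeftInvariant] [μ.IsMulRightInvariant] [μ.IsInvInvariant]
  {N n : ℕ} {L : LD G N n}

lemma lg2_qj (j : ℕ) : lg2 (qj j) = j + 4 := by
  unfold lg2 qj
  rw [Nat.log_pow (by norm_num)]

lemma Fj_Sp {e m j : ℕ} [NeZero m] :
    Sp (Fin.last (e + 2)) fun U : Ed (e + 3) (2 * m) → G => Fj L j U := by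
  intro U U' h
  show ‖ph eT L j U 0‖ = ‖ph eT L j U' 0‖
  rw [ph_congr (U := U) (U' := U') fun w1 hw1 i hi => ?_]
  refine h _ _ ?_ hi
  rw [zero_add, dsp_apply]
  have h1 := hw1 (Fin.last (e + 2))
  rw [mz_last] at h1
  have h2 : w1.count (Fin.last (e + 2)) = 0 := by omega
  rw [h2, Nat.cast_zero]

/-- the variance of the observable -/
lemma var_Fj {e m j : ℕ} [NeZero m] {β cv : ℝ} {a : ℝ} (ha : 0 < a)
    (ha2 : a ^ 2 * ((qj j : ℝ) ^ 2 / (β * (qj j : ℝ) ^ (e + 1))) = 1)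
    (hv : ∀ c : ℝ, cv * ((qj j : ℝ) ^ 2 / (β * (qj j : ℝ) ^ (e + 1))) ≤
      EX μ L β (fun U : Ed (e + 3) (2 * m) → G => (‖psD L j U‖ - c) ^ 2)) (c : ℝ) :
    cv * Zt μ L β (fun _ : Ed (e + 3) (2 * m) → G => 1) ≤
      Zt μ L β (fun U : Ed (e + 3) (2 * m) → G => (a * Fj L j U - c) ^ 2) := by
  have k1 := hv (c / a)
  have k2 : EX μ L β (fun U : Ed (e + 3) (2 * m) → G => (‖psD L j U‖ - c / a) ^ 2) =
      EX μ L β (fun U : Ed (e + 3) (2 * m) → G => (Fj L j U - c / a) ^ 2) := by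
    have k0 : (fun U : Ed (e + 3) (2 * m) → G => (‖psD L j U‖ - c / a) ^ 2) =
        fun U => (Fj L j (tr ((2 * qj j) • eT (Fin.last (e + 2))) U) - c / a) ^ 2 := by
      funext U
      rw [Fj_tr, norm_psD]
    rw [k0]
    exact EX_tr μ ((2 * qj j) • eT (Fin.last (e + 2)))
      (fun U : Ed (e + 3) (2 * m) → G => (Fj L j U - c / a) ^ 2)
  rw [k2] at k1
  have k3 : EX μ L β (fun U : Ed (e + 3) (2 * m) → G => (a * Fj L j U - c) ^ 2) =
      a ^ 2 * EX μ L β (fun U : Ed (e + 3) (2 * m) → G => (Fj L j U - c / a) ^ 2) := by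
    rw [← EX_smul]
    have k0 : (fun U : Ed (e + 3) (2 * m) → G => (a * Fj L j U - c) ^ 2) =
        fun U => a ^ 2 * (Fj L j U - c / a) ^ 2 := by
      funext U
      rw [← mul_pow, mul_sub, mul_div_cancel₀ c ha.ne']
    rw [k0]
  have k4 : cv ≤ EX μ L β (fun U : Ed (e + 3) (2 * m) → G => (a * Fj L j U - c) ^ 2) := by
    rw [k3]
    calc cv = a ^ 2 * (cv * ((qj j : ℝ) ^ 2 / (β * (qj j : ℝ) ^ (e + 1)))) := by
          rw [mul_left_comm, ha2, mul_one]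
      _ ≤ _ := mul_le_mul_of_nonneg_left k1 (sq_nonneg a)
  unfold EX at k4
  rwa [le_div_iff₀ (Zt_pos μ β)] at k4

/-- the variation of the observable -/
lemma dif_Fj {e m j : ℕ} [NeZero m] {β C3 : ℝ} {a : ℝ}
    (ha3 : a ^ 2 * (qj j / (β * (qj j : ℝ) ^ (e + 1))) = 1 / qj j)
    (hD : EX μ L β (fun U : Ed (e + 3) (2 * m) → G =>
      (Fj L j (tr (eT (Fin.last (e + 2))) U) - Fj L j U) ^ 2) ≤
      C3 * (qj j / (β * (qj j : ℝ) ^ (e + 1)))) :
    Zt μ L β (fun U : Ed (e + 3) (2 * m) → G =>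
      (a * Fj L j (tr (eT (Fin.last (e + 2))) U) - a * Fj L j U) ^ 2) ≤
      C3 / qj j * Zt μ L β (fun _ : Ed (e + 3) (2 * m) → G => 1) := by
  have k3 : EX μ L β (fun U : Ed (e + 3) (2 * m) → G =>
      (a * Fj L j (tr (eT (Fin.last (e + 2))) U) - a * Fj L j U) ^ 2) =
      a ^ 2 * EX μ L β (fun U : Ed (e + 3) (2 * m) → G =>
        (Fj L j (tr (eT (Fin.last (e + 2))) U) - Fj L j U) ^ 2) := by
    rw [← EX_smul]
    congr 1
    funext U
    ring
  have k4 : EX μ L β (fun U : Ed (e + 3) (2 * m) → G =>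
      (a * Fj L j (tr (eT (Fin.last (e + 2))) U) - a * Fj L j U) ^ 2) ≤ C3 / qj j := by
    rw [k3]
    calc _ ≤ a ^ 2 * (C3 * (qj j / (β * (qj j : ℝ) ^ (e + 1)))) :=
          mul_le_mul_of_nonneg_left hD (sq_nonneg a)
      _ = C3 / qj j := by rw [mul_left_comm, ha3]; ring
  unfold EX at k4
  rwa [div_le_iff₀ (Zt_pos μ β)] at k4

/-- truncated correlations of the observable -/
theorem truncj (hn : 1 ≤ n) (hN : 1 ≤ N) (e : ℕ) (he : 1 ≤ e) {C0 : ℝ} (hC0 : 0 < C0)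
    (hcar : ∀ g : G, dv L g ^ 2 ≤ ∑ a, fi L a g ^ 2 + C0 * dv L g ^ 4) :
    ∃ c2 C4 cv : ℝ, 0 < c2 ∧ 0 < C4 ∧ 0 < cv ∧
    ∀ j : ℕ, C4 ≤ qj j → ∀ β : ℝ, 0 < β →
      c2 * (((j : ℝ) + 4) * (qj j : ℝ) ^ (e + 1)) ≤ β → ∀ (m : ℕ) [NeZero m],
      8 * (e + 3) * qj j < 2 * m →
      cv ≤ Zt μ L β (fun U : Ed (e + 3) (2 * m) → G => (nc e (qj j) β * Fj L j U) *
          (nc e (qj j) β * Fj L j U)) / Zt μ L β (fun _ : Ed (e + 3) (2 * m) → G => 1) -
        (Zt μ L β (fun U : Ed (e + 3) (2 * m) → G => nc e (qj j) β * Fj L j U) /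
          Zt μ L β (fun _ : Ed (e + 3) (2 * m) → G => 1)) ^ 2 ∧
      ∀ k : ℕ, 1 ≤ k → k ≤ m →
      Real.exp (-(C4 / qj j * k)) *
        (Zt μ L β (fun U : Ed (e + 3) (2 * m) → G => (nc e (qj j) β * Fj L j U) *
          (nc e (qj j) β * Fj L j U)) / Zt μ L β (fun _ : Ed (e + 3) (2 * m) → G => 1) -
        (Zt μ L β (fun U : Ed (e + 3) (2 * m) → G => nc e (qj j) β * Fj L j U) /
          Zt μ L β (fun _ : Ed (e + 3) (2 * m) → G => 1)) ^ 2) ≤
        Zt μ L β (fun U : Ed (e + 3) (2 * m) → G => (nc e (qj j) β * Fj L j U) *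
          (nc e (qj j) β *
            Fj L j (tr (sv (Fin.last (e + 2)) ((2 * k - 1 : ℕ) : ZMod (2 * m))) U))) /
          Zt μ L β (fun _ : Ed (e + 3) (2 * m) → G => 1) -
        (Zt μ L β (fun U : Ed (e + 3) (2 * m) → G => nc e (qj j) β * Fj L j U) /
          Zt μ L β (fun _ : Ed (e + 3) (2 * m) → G => 1)) ^ 2 := by
  obtain ⟨c1, cv, hc1, hc11, hcv, hvar⟩ := var_lowD μ (L := L) hn hN e he hC0 hcar
  have hCD := CDj_pos (e := e) hN
  refine ⟨1 / c1 + 20 * N * (e + 3), 9 * CDj e N / cv, cv, by positivity, by positivity, hcv,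
    fun j hq' β hβ0 hqβ m _ hm => ?_⟩
  have hq := qj_pos j
  have hq1 : (1 : ℝ) ≤ qj j := by exact_mod_cast hq
  have hq0 : (0 : ℝ) < qj j := by linarith
  have h4 : 4 * qj j ≤ (e + 3) * qj j := Nat.mul_le_mul_right _ (by omega)
  have h5 : 8 * (e + 3) * qj j = 8 * ((e + 3) * qj j) := by ring
  have hm32 : 32 * qj j ≤ 2 * m := by omega
  have hm5 : 5 * (e + 3) * qj j < 2 * m := by
    have h6 : 5 * (e + 3) * qj j = 5 * ((e + 3) * qj j) := by ring
    omega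
  have hm2 : 2 ≤ m := by omega
  obtain ⟨T, hT⟩ : ∃ T : ℝ, T = ((j : ℝ) + 4) * (qj j : ℝ) ^ (e + 1) := ⟨_, rfl⟩
  have hT0 : 0 < T := by rw [hT]; positivity
  rw [← hT] at hqβ
  have hqc : (qj j : ℝ) ^ (e + 1) * lg2 (qj j) ≤ c1 * β := by
    have h1 : 1 / c1 * T ≤ β := by
      refine le_trans (mul_le_mul_of_nonneg_right ?_ hT0.le) hqβ
      have : (0 : ℝ) ≤ 20 * N * (e + 3) := by positivity
      linarith
    have h2 := mul_le_mul_of_nonneg_left h1 hc1.le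
    rw [← mul_assoc, mul_one_div_cancel hc1.ne', one_mul] at h2
    rw [lg2_qj]
    push_cast
    rw [mul_comm, ← hT]
    exact h2
  have hqd : ((j : ℝ) + 1) * (qj j : ℝ) ^ (e + 1) * (20 * N * (e + 3)) ≤ β := by
    refine le_trans ?_ hqβ
    rw [mul_comm (_ * _)]
    refine mul_le_mul ?_ ?_ (by positivity) (by positivity)
    · have : 0 < 1 / c1 := by positivity
      linarith
    · rw [hT]
      exact mul_le_mul_of_nonneg_right (by linarith) (by positivity)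
  have hv := hvar j β hqc m hm32
  have hD := dif_boundj μ (L := L) (n := n) (e := e) he hm2 hN hβ0 hm5 hqd
  have ha := nc_pos (e := e) hq hβ0
  have ha2 := nc_sq (e := e) hq hβ0
  have ha3 := nc_sq' (e := e) hq hβ0
  refine trunc_gen μ (L := L) (τ := Fin.last (e + 2)) hm2 hβ0.le
    (O := fun U : Ed (e + 3) (2 * m) → G => nc e (qj j) β * Fj L j U)
    (continuous_const.mul Fj_cont) (fun γ U => ?_) (fun U U' h => ?_) hcv hCD hq0 hq'
    (var_Fj μ ha ha2 hv) (dif_Fj μ ha3 hD)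
  · have h1 : Fj L j (gt γ U) = Fj L j U := Fj_GI (L := L) (j := j) γ U
    show nc e (qj j) β * Fj L j (gt γ U) = nc e (qj j) β * Fj L j U
    rw [h1]
  · have h1 : Fj L j U = Fj L j U' := Fj_Sp (L := L) (j := j) (e := e) (m := m) U U' h
    show nc e (qj j) β * Fj L j U = nc e (qj j) β * Fj L j U'
    rw [h1]

end

end Pool.Agent.U319
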