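import Mathlib
import Pool.Agent.U319.Pth

/-!
# The choice of the scale
-/

open Filter
open scoped Topology

namespace Pool.Agent.U319

/-- the choice of the scale -/
lemma scalej {C2 C4 : ℝ} (hC2 : 0 < C2) (hC4 : 0 < C4) (e : ℕ) :
    ∃ β₀ C5 : ℝ, 3 ≤ β₀ ∧ 0 < C5 ∧ ∀ β : ℝ, β₀ ≤ β → ∃ j : ℕ, C4 ≤ qj j ∧
      C2 * (((j : ℝ) + 4) * (qj j : ℝ) ^ (e + 1)) ≤ β ∧
      (qj j : ℝ) ≤ C5 * (β / Real.log β) ^ (1 / ((e + 1 : ℕ) : ℝ)) ∧
      C4 / qj j ≤ C5 * (β / Real.log β) ^ (-(1 / ((e + 1 : ℕ) : ℝ))) := by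
  obtain ⟨A, hA⟩ : ∃ A : ℝ, A = C2 + 1 := ⟨_, rfl⟩
  have hA1 : 1 ≤ A := by linarith
  have hA0 : 0 < A := by linarith
  obtain ⟨κ, hκ⟩ : ∃ κ : ℝ, κ = 1 / ((e + 1 : ℕ) : ℝ) := ⟨_, rfl⟩
  have hp0 : (0 : ℝ) < ((e + 1 : ℕ) : ℝ) := by positivity
  have hκ0 : 0 < κ := by rw [hκ]; positivity
  obtain ⟨K1, hK1⟩ : ∃ K1 : ℝ, K1 = 6 * A * 2 ^ (e + 1) := ⟨_, rfl⟩
  obtain ⟨K2, hK2⟩ : ∃ K2 : ℝ, K2 = A + 2 + (e + 1) := ⟨_, rfl⟩
  have hK10 : 0 < K1 := by rw [hK1]; positivity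
  have hK20 : 0 < K2 := by rw [hK2]; positivity
  obtain ⟨f, hf⟩ : ∃ f : ℕ → ℝ, f = fun (j : ℕ) => A * (((j : ℝ) + 4) * (qj j : ℝ) ^ (e + 1)) :=
    ⟨_, rfl⟩
  have hqj : ∀ j : ℕ, (qj j : ℝ) = 2 ^ (j + 1) := fun j => by unfold qj; push_cast; ring
  have hfl : ∀ j : ℕ, (qj j : ℝ) ≤ f j := by
    intro j
    have h1 : (1 : ℝ) ≤ qj j := by exact_mod_cast qj_pos j
    have hj : (0 : ℝ) ≤ j := Nat.cast_nonneg j
    rw [hf]
    calc (qj j : ℝ) = 1 * (1 * (qj j : ℝ) ^ 1) := by ring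
      _ ≤ A * (((j : ℝ) + 4) * (qj j : ℝ) ^ (e + 1)) := by
        refine mul_le_mul hA1 (mul_le_mul (by linarith) (pow_le_pow_right₀ h1 (by omega))
          (by positivity) (by positivity)) (by positivity) hA0.le
  refine ⟨max (max 3 (f 0)) ((2 * K1 * C4 ^ (e + 1)) ^ 2), max (K2 ^ κ) (C4 * K1 ^ κ),
    (le_max_left _ _).trans (le_max_left _ _), lt_max_of_lt_left (by positivity),
    fun β hβ => ?_⟩
  have hβ3 : 3 ≤ β := ((le_max_left _ _).trans (le_max_left _ _)).trans hβ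
  have hβf : f 0 ≤ β := ((le_max_right _ _).trans (le_max_left _ _)).trans hβ
  have hβs : (2 * K1 * C4 ^ (e + 1)) ^ 2 ≤ β := (le_max_right _ _).trans hβ
  have hβ0 : 0 < β := by linarith
  have hlog1 : 1 ≤ Real.log β := by
    rw [Real.le_log_iff_exp_le hβ0]
    have := Real.exp_one_lt_d9
    linarith
  have hlog0 : 0 < Real.log β := by linarith
  -- the index
  have hex : ∃ j : ℕ, β < f j := by
    obtain ⟨k, hk⟩ := pow_unbounded_of_one_lt β (one_lt_two (α := ℝ))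
    refine ⟨k, lt_of_lt_of_le hk (le_trans ?_ (hfl k))⟩
    rw [hqj]
    exact pow_le_pow_right₀ (by norm_num) (by omega)
  classical
  obtain ⟨J, hJ⟩ : ∃ J, J = Nat.find hex := ⟨_, rfl⟩
  have hJs : β < f J := by rw [hJ]; exact Nat.find_spec hex
  have hJ0 : J ≠ 0 := by
    rintro h
    rw [h] at hJs
    linarith
  obtain ⟨j, hj⟩ : ∃ j, J = j + 1 := ⟨J - 1, by omega⟩
  rw [hj] at hJs
  have hjf : f j ≤ β := by
    by_contra hcon
    push Not at hcon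
    have := Nat.find_min' hex hcon
    omega
  obtain ⟨q, hq⟩ : ∃ q : ℝ, q = (qj j : ℝ) := ⟨_, rfl⟩
  have hq1 : (1 : ℝ) ≤ q := by rw [hq]; exact_mod_cast qj_pos j
  have hq0 : 0 < q := by linarith
  have hj0 : (0 : ℝ) ≤ j := Nat.cast_nonneg j
  have hqβ : q ≤ β := by rw [hq]; exact (hfl j).trans hjf
  have hlog2 : (1 / 2 : ℝ) ≤ Real.log 2 := by
    have := Real.log_two_gt_d9
    linarith
  have ha : (j : ℝ) + 5 ≤ 6 * Real.log β := by
    have h1 : Real.log q ≤ Real.log β := Real.log_le_log hq0 hqβ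
    rw [hq, hqj, Real.log_pow] at h1
    push_cast at h1
    have h2 : ((j : ℝ) + 1) * (1 / 2) ≤ ((j : ℝ) + 1) * Real.log 2 :=
      mul_le_mul_of_nonneg_left hlog2 (by positivity)
    linarith
  have hfj : f j = A * (((j : ℝ) + 4) * q ^ (e + 1)) := by rw [hf, hq]
  have hfj1 : f (j + 1) = A * (((j : ℝ) + 5) * (2 ^ (e + 1) * q ^ (e + 1))) := by
    rw [hf]
    simp only
    rw [hqj (j + 1), hq, hqj j, ← mul_pow]
    push_cast
    ring
  obtain ⟨P, hP⟩ : ∃ P : ℝ, P = q ^ (e + 1) := ⟨_, rfl⟩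
  have hP0 : 0 < P := by rw [hP]; positivity
  rw [hfj, ← hP] at hjf
  rw [hfj1, ← hP] at hJs
  obtain ⟨X, hX⟩ : ∃ X : ℝ, X = β / Real.log β := ⟨_, rfl⟩
  have hX0 : 0 < X := by rw [hX]; positivity
  have hb : X ≤ K1 * P := by
    rw [hX, div_le_iff₀ hlog0]
    calc β ≤ A * (((j : ℝ) + 5) * (2 ^ (e + 1) * P)) := hJs.le
      _ = A * 2 ^ (e + 1) * P * ((j : ℝ) + 5) := by ring
      _ ≤ A * 2 ^ (e + 1) * P * (6 * Real.log β) :=
          mul_le_mul_of_nonneg_left ha (by positivity)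
      _ = _ := by rw [hK1]; ring
  have hc : P ≤ K2 * X := by
    have h1 : Real.log β ≤ K2 * ((j : ℝ) + 4) := by
      have h2 : β ≤ A * (((j : ℝ) + 5) * (2 ^ (e + 1) * q ^ (e + 1))) := by
        rw [← hP]; exact hJs.le
      have h3 := Real.log_le_log hβ0 h2
      have h5 : (0 : ℝ) < (j : ℝ) + 5 := by positivity
      rw [Real.log_mul hA0.ne' (by positivity), Real.log_mul h5.ne' (by positivity),
        ← mul_pow, Real.log_pow] at h3
      have h6 : 2 * q = 2 ^ (j + 2) := by rw [hq, hqj]; ring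
      rw [h6, Real.log_pow] at h3
      have h7 : Real.log A ≤ A := (Real.log_le_sub_one_of_pos hA0).trans (by linarith)
      have h8 : Real.log ((j : ℝ) + 5) ≤ (j : ℝ) + 5 :=
        (Real.log_le_sub_one_of_pos h5).trans (by linarith)
      have h9 : Real.log 2 ≤ 1 := by
        have := Real.log_two_lt_d9
        linarith
      push_cast at h3
      have h10 : ((e : ℝ) + 1) * (((j : ℝ) + 2) * Real.log 2) ≤
          ((e : ℝ) + 1) * (((j : ℝ) + 2) * 1) :=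
        mul_le_mul_of_nonneg_left (mul_le_mul_of_nonneg_left h9 (by positivity)) (by positivity)
      have he0 : (0 : ℝ) ≤ e := Nat.cast_nonneg e
      rw [hK2]
      nlinarith [mul_nonneg hA0.le hj0, mul_nonneg he0 hj0]
    rw [hX, ← mul_div_assoc, le_div_iff₀ hlog0]
    calc P * Real.log β ≤ P * (K2 * ((j : ℝ) + 4)) := mul_le_mul_of_nonneg_left h1 hP0.le
      _ = K2 * (1 * (((j : ℝ) + 4) * P)) := by ring
      _ ≤ K2 * (A * (((j : ℝ) + 4) * P)) :=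
          mul_le_mul_of_nonneg_left (mul_le_mul_of_nonneg_right hA1 (by positivity)) hK20.le
      _ ≤ K2 * β := mul_le_mul_of_nonneg_left hjf hK20.le
  have hqP : q = P ^ κ := by
    rw [hP, ← Real.rpow_natCast, ← Real.rpow_mul hq0.le, hκ, mul_one_div_cancel hp0.ne',
      Real.rpow_one]
  refine ⟨j, ?_, ?_, ?_, ?_⟩
  · rw [← hq]
    by_contra hcon
    push Not at hcon
    have h1 : P < C4 ^ (e + 1) := by
      rw [hP]; exact pow_lt_pow_left₀ hcon hq0.le (by omega)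
    have hsq : 0 < Real.sqrt β := Real.sqrt_pos.2 hβ0
    have h2 : Real.log β ≤ 2 * Real.sqrt β := by
      have h3 : Real.log β = 2 * Real.log (Real.sqrt β) := by
        rw [Real.log_sqrt hβ0.le]; ring
      rw [h3]
      have := Real.log_le_sub_one_of_pos hsq
      linarith
    have h3 : Real.sqrt β ≤ 2 * X := by
      rw [hX, ← mul_div_assoc, le_div_iff₀ hlog0]
      calc Real.sqrt β * Real.log β ≤ Real.sqrt β * (2 * Real.sqrt β) :=
            mul_le_mul_of_nonneg_left h2 hsq.le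
        _ = 2 * (Real.sqrt β * Real.sqrt β) := by ring
        _ = 2 * β := by rw [Real.mul_self_sqrt hβ0.le]
    have h4 : 2 * K1 * C4 ^ (e + 1) ≤ Real.sqrt β := Real.le_sqrt_of_sq_le hβs
    have h5 : K1 * P < K1 * C4 ^ (e + 1) := mul_lt_mul_of_pos_left h1 hK10
    linarith
  · rw [← hq, ← hP]
    refine le_trans (mul_le_mul_of_nonneg_right ?_ (by positivity)) hjf
    linarith
  · rw [← hq, ← hκ, ← hX]
    calc q = P ^ κ := hqP
      _ ≤ (K2 * X) ^ κ := Real.rpow_le_rpow hP0.le hc hκ0.le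
      _ = K2 ^ κ * X ^ κ := Real.mul_rpow hK20.le hX0.le
      _ ≤ _ := mul_le_mul_of_nonneg_right (le_max_left _ _) (by positivity)
  · rw [← hq, ← hκ, ← hX]
    have h1 : X ^ κ ≤ K1 ^ κ * q := by
      rw [hqP, ← Real.mul_rpow hK10.le hP0.le]
      exact Real.rpow_le_rpow hX0.le hb hκ0.le
    have h2 : 0 < X ^ κ := by positivity
    rw [Real.rpow_neg hX0.le]
    calc C4 / q ≤ C4 * K1 ^ κ * (X ^ κ)⁻¹ := by
          rw [div_le_iff₀ hq0, mul_assoc, mul_assoc]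
          refine le_mul_of_one_le_right hC4.le ?_
          rw [mul_comm ((X ^ κ)⁻¹), ← mul_assoc, ← div_eq_mul_inv, one_le_div h2]
          exact h1
      _ ≤ _ := mul_le_mul_of_nonneg_right (le_max_right _ _) (by positivity)

end Pool.Agent.U319
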