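import Mathlib
import Pool.Agent.Y14.Main
import Pool.Agent.U319.Fin2
import Pool.Agent.U319.Sc

/-!
# The mass gap at weak coupling is at most `C (log β / β) ^ (1 / (d - 2))`
-/

open MeasureTheory Matrix Filter
open scoped Matrix.Norms.Frobenius Topology

namespace Pool.Agent.U319.Wilson

set_option linter.unusedSectionVars false

noncomputable section

open Pool.Agent Pool.Agent.H906R3 Pool.Agent.W793 Pool.Agent.TH618 Pool.Agent.Y14.Wilson

variable {N n d l D : ℕ} {G : Subgroup (UU N)}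

section bridge

variable [CompactSpace G] [SecondCountableTopology G] [MeasurableSpace G] [BorelSpace G]
  (μ : Measure G) [IsProbabilityMeasure μ] [μ.IsHaarMeasure] (B : LieBasis G n)

/-- the observable on the infinite lattice -/
def FY (B : LieBasis G n) (e j : ℕ) (a : ℝ) (V : LinkZ (e + 2 + 1) → G) : ℝ :=
  a * ‖U319.ph (fun k => (Pi.single k 1 : Fin (e + 3) → ℤ)) (ld B) j V 0‖

lemma FY_cont (e j : ℕ) (a : ℝ) : Continuous (FY B e j a) := by
  have h0 : ∀ (w wb : List (Fin (e + 3))), Continuous fun V : LinkZ (e + 2 + 1) → G =>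
      U319.lp (fun k => (Pi.single k 1 : Fin (e + 3) → ℤ)) w wb j V 0 := fun w wb =>
    (Y14.tp_cont 0 w).mul (Y14.tp_cont _ wb).inv
  have h1 : Continuous fun V : LinkZ (e + 2 + 1) → G =>
      ∑ o : U319.PO e j, ((ld B).rho (U319.lp (fun k => (Pi.single k 1 : Fin (e + 3) → ℤ))
        (U319.WP o) (U319.WB o) j V 0) -
        (ld B).rho (U319.lp (fun k => (Pi.single k 1 : Fin (e + 3) → ℤ))
        (U319.WQ o) (U319.WB o) j V 0)) :=
    continuous_finsetSum _ fun o _ =>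
      ((ld B).cont.comp (h0 _ _)).sub ((ld B).cont.comp (h0 _ _))
  exact continuous_const.mul
    (h1.const_smul ((Fintype.card (U319.PO e j) : ℝ))⁻¹).norm

lemma FY_local {e j R : ℕ} (hR : 5 * U319.qj j < R) (a : ℝ) : IsLocal R (FY B e j a) where
  cont := FY_cont B e j a
  inv γ V := by
    have h := U319.ph_gauge (u := fun k => (Pi.single k 1 : Fin (e + 3) → ℤ)) (L := ld B)
      (j := j) γ V 0
    have h1 : (gauge γ V : LinkZ (e + 2 + 1) → G) =
      fun f => γ f.1 * V f * (γ (f.1 + Pi.single f.2 1))⁻¹ := rfl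
    unfold FY
    rw [h1, h, YM.norm_rmul, YM.norm_lmul]
  loc V V' h := by
    unfold FY
    rw [U319.ph_congr (U := V) (U' := V') fun w1 hw1 i hi => ?_]
    refine h _ fun k => ?_
    simp only [zero_add]
    rw [dspZ]
    have h1 := (hw1 k).trans (U319.mz_le k)
    constructor
    · exact Int.natCast_nonneg _
    · have : w1.count k < R := by omega
      exact_mod_cast this

omit [CompactSpace G] [SecondCountableTopology G] [MeasurableSpace G] [BorelSpace G] in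
lemma FY_time (e j : ℕ) (a : ℝ) : AtTimeZero (FY B e j a) := by
  intro V V' h
  unfold FY
  rw [U319.ph_congr (U := V) (U' := V') fun w1 hw1 i hi => ?_]
  refine h _ ?_ hi
  simp only [zero_add]
  rw [dspZ]
  have h1 := hw1 (Fin.last (e + 2))
  rw [U319.mz_last] at h1
  have h2 : w1.count (Fin.last (e + 2)) = 0 := by omega
  rw [h2, Nat.cast_zero]

omit [CompactSpace G] [SecondCountableTopology G] [MeasurableSpace G] [BorelSpace G] in
lemma FY_lf {e j m : ℕ} [NeZero m] (a : ℝ) (U : YM.Ed (e + 2 + 1) (2 * m) → G) :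
    FY B e j a (YM.lf U) = a * U319.Fj (ld B) j U := by
  unfold FY U319.Fj
  have h := U319.ph_map (L := ld B) (j := j) (u := fun k => (Pi.single k 1 : Fin (e + 3) → ℤ))
    (u' := YM.eT) (U := YM.lf U) (U' := U) (prj (e + 3) (2 * m)) (fun i => by
      funext k
      show ((Pi.single i 1 : Fin (e + 3) → ℤ) k : ZMod (2 * m)) = YM.eT i k
      by_cases h : k = i
      · subst h; simp [YM.eT]
      · simp [YM.eT, h]) (fun f => rfl) 0
  rw [h, map_zero]

include B in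
theorem finite_part (hG : IsClosed (G : Set (UU N))) (hn : 1 ≤ n) (hN : 1 ≤ N) (e : ℕ)
    (he : 1 ≤ e) :
    ∃ C c β₀ : ℝ, 0 < C ∧ 0 < c ∧ 3 ≤ β₀ ∧
    ∀ β : ℝ, β₀ ≤ β → ∃ (R : ℕ) (F : (LinkZ (e + 2 + 1) → G) → ℝ),
      (R : ℝ) ≤ C * (β / Real.log β) ^ (1 / ((e + 1 : ℕ) : ℝ)) ∧ IsLocal R F ∧ AtTimeZero F ∧
      ∀ (l : ℕ) [NeZero l], Even l → R < l → c ≤ corr l μ β F 0 ∧ ∀ t : ℕ, Odd t → t < l →
        Real.exp (-(C * (β / Real.log β) ^ (-(1 / ((e + 1 : ℕ) : ℝ))) * t)) * corr l μ β F 0 ≤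
          corr l μ β F t := by
  have := right_inv μ
  have := inv_inv' μ
  obtain ⟨C0, hC0, hcar⟩ := YM.cartan' (fm B) hG
  obtain ⟨c2, C4, c1, hc2, hC4, hc1, htr⟩ := U319.truncj μ (L := ld B) hn hN e he hC0 hcar
  obtain ⟨β₀, C5, hβ₀, hC5, hsc⟩ := U319.scalej hc2 hC4 e
  have hE : (0 : ℝ) ≤ e := Nat.cast_nonneg e
  refine ⟨(8 * (e + 3) + 1) * C5, c1, β₀, by positivity, hc1, hβ₀, fun β hβ => ?_⟩
  have hβ3 : 3 ≤ β := hβ₀.trans hβ
  have hβ0 : 0 < β := by linarith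
  have hlog0 : 0 < Real.log β := Real.log_pos (by linarith)
  obtain ⟨j, hq2, hq3, hq4, hq5⟩ := hsc β hβ
  have hq1 : 1 ≤ U319.qj j := U319.qj_pos j
  obtain ⟨κ, hκ⟩ : ∃ κ : ℝ, κ = 1 / ((e + 1 : ℕ) : ℝ) := ⟨_, rfl⟩
  obtain ⟨X, hX⟩ : ∃ X : ℝ, X = β / Real.log β := ⟨_, rfl⟩
  have hX0 : 0 < X := by rw [hX]; positivity
  rw [← hκ, ← hX] at hq4 hq5 ⊢
  obtain ⟨a, ha⟩ : ∃ a, a = Y14.nc e (U319.qj j) β := ⟨_, rfl⟩
  obtain ⟨F, hF⟩ : ∃ F : (LinkZ (e + 2 + 1) → G) → ℝ, F = FY B e j a := ⟨_, rfl⟩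
  have hq5q : 5 * U319.qj j < 8 * (e + 3) * U319.qj j + 1 := by nlinarith
  refine ⟨8 * (e + 3) * U319.qj j + 1, F, ?_, by rw [hF]; exact FY_local B hq5q a,
    by rw [hF]; exact FY_time B e j a, ?_⟩
  · push_cast
    have h1 : (1 : ℝ) ≤ U319.qj j := by exact_mod_cast hq1
    calc 8 * ((e : ℝ) + 3) * U319.qj j + 1 ≤ (8 * (e + 3) + 1) * U319.qj j := by linarith
      _ ≤ (8 * (e + 3) + 1) * (C5 * X ^ κ) := mul_le_mul_of_nonneg_left hq4 (by positivity)
      _ = _ := by ring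
  · intro l _ hl hRl
    obtain ⟨m, rfl⟩ := even_iff_two_dvd.1 hl
    haveI hm0 : NeZero m := ⟨by rintro rfl; omega⟩
    obtain ⟨h0, h1⟩ := htr j hq2 β hβ0 hq3 m (by omega)
    rw [← ha] at h0 h1
    have hFO : ∀ U : YM.Ed (e + 2 + 1) (2 * m) → G, F (YM.lf U) = a * U319.Fj (ld B) j U :=
      fun U => by rw [hF]; exact FY_lf B a U
    have hsh : ∀ (t : ℕ) (U : YM.Ed (e + 2 + 1) (2 * m) → G), F (shift t (YM.lf U)) =
        a * U319.Fj (ld B) j (YM.tr (YM.sv (Fin.last (e + 2)) (t : ZMod (2 * m))) U) := by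
      intro t U
      rw [← hFO]
      exact congrArg F (YM.tz_lf (Fin.last (e + 2)) t U)
    have h2 : ∀ t : ℕ, corr (2 * m) μ β F t =
        YM.Zt μ (ld B) β (fun U : YM.Ed (e + 3) (2 * m) → G => (a * U319.Fj (ld B) j U) *
          (a * U319.Fj (ld B) j (YM.tr (YM.sv (Fin.last (e + 2)) (t : ZMod (2 * m))) U))) /
          YM.Zt μ (ld B) β (fun _ : YM.Ed (e + 3) (2 * m) → G => 1) -
        (YM.Zt μ (ld B) β (fun U : YM.Ed (e + 3) (2 * m) → G => a * U319.Fj (ld B) j U) /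
          YM.Zt μ (ld B) β (fun _ : YM.Ed (e + 3) (2 * m) → G => 1)) ^ 2 := by
      intro t
      unfold corr
      rw [expect_eq μ B, expect_eq μ B, expect_eq μ B]
      simp only [hFO, hsh]
      rw [YM.Zt_tr μ β _ (fun U : YM.Ed (e + 3) (2 * m) → G => a * U319.Fj (ld B) j U), pow_two]
    have h3 : corr (2 * m) μ β F 0 =
        YM.Zt μ (ld B) β (fun U : YM.Ed (e + 3) (2 * m) → G => (a * U319.Fj (ld B) j U) *
          (a * U319.Fj (ld B) j U)) /
          YM.Zt μ (ld B) β (fun _ : YM.Ed (e + 3) (2 * m) → G => 1) -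
        (YM.Zt μ (ld B) β (fun U : YM.Ed (e + 3) (2 * m) → G => a * U319.Fj (ld B) j U) /
          YM.Zt μ (ld B) β (fun _ : YM.Ed (e + 3) (2 * m) → G => 1)) ^ 2 := by
      have hs0 : YM.sv (Fin.last (e + 2)) ((0 : ℕ) : ZMod (2 * m)) = 0 := by
        rw [Nat.cast_zero]
        exact Pi.single_zero _
      rw [h2, hs0]
      simp only [YM.tr_zero]
    rw [← h3] at h0 h1
    refine ⟨h0, fun t ht htl => ?_⟩
    obtain ⟨k', hk'⟩ := ht
    obtain ⟨k, hk⟩ : ∃ k, k = k' + 1 := ⟨_, rfl⟩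
    have hkt : t = 2 * k - 1 := by omega
    have h4 := h1 k (by omega) (by omega)
    rw [← hkt, ← h2] at h4
    refine le_trans (mul_le_mul_of_nonneg_right (Real.exp_le_exp.2 (neg_le_neg ?_))
      (hc1.le.trans h0)) h4
    have h3 : (k : ℝ) ≤ t := by
      have : k ≤ t := by omega
      exact_mod_cast this
    have h4 : 0 ≤ C4 / U319.qj j := by positivity
    have h5 : (0 : ℝ) ≤ t := Nat.cast_nonneg t
    calc C4 / U319.qj j * k ≤ C4 / U319.qj j * t := mul_le_mul_of_nonneg_left h3 h4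
      _ ≤ (8 * (e + 3) + 1) * C5 * X ^ (-κ) * t := by
          refine mul_le_mul_of_nonneg_right (hq5.trans ?_) h5
          have h6 : 0 ≤ C5 * X ^ (-κ) := by positivity
          have h7 : (1 : ℝ) ≤ 8 * (e + 3) + 1 := by linarith
          calc C5 * X ^ (-κ) = 1 * (C5 * X ^ (-κ)) := (one_mul _).symm
            _ ≤ (8 * (e + 3) + 1) * (C5 * X ^ (-κ)) := mul_le_mul_of_nonneg_right h7 h6
            _ = _ := by ring

end bridge

theorem main {N n D : ℕ} (G : Subgroup (UU N)) (hG : IsClosed (G : Set (UU N)))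
    [MeasurableSpace G] [BorelSpace G] (μ : Measure G) [IsProbabilityMeasure μ] [μ.IsHaarMeasure]
    (B : LieBasis G n) (hn : 1 ≤ n) (hD : 3 ≤ D) :
    ∃ C c β₀ : ℝ, 0 < C ∧ 0 < c ∧ 3 ≤ β₀ ∧ ∀ β : ℝ, β₀ ≤ β →
      (∃ (R : ℕ) (F : (LinkZ (D + 1) → G) → ℝ),
        (R : ℝ) ≤ C * (β / Real.log β) ^ (1 / (D - 1 : ℝ)) ∧
        IsLocal R F ∧ AtTimeZero F ∧
        (∀ (l : ℕ) [NeZero l], Even l → R < l → c ≤ corr l μ β F 0 ∧ ∀ t : ℕ, Odd t → t < l →
          Real.exp (-(C * (Real.log β / β) ^ (1 / (D - 1 : ℝ)) * t)) * corr l μ β F 0 ≤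
            corr l μ β F t) ∧
        ∀ ν : Measure (LinkZ (D + 1) → G), IsInfVol μ β ν → c ≤ corrZ ν F 0 ∧
          ∀ t : ℕ, Odd t → Real.exp (-(C * (Real.log β / β) ^ (1 / (D - 1 : ℝ)) * t)) *
            corrZ ν F 0 ≤ corrZ ν F t) ∧
      (∀ M : ℝ, Clusters D μ β M → M ≤ C * (Real.log β / β) ^ (1 / (D - 1 : ℝ))) ∧
      (∀ ν : Measure (LinkZ (D + 1) → G), IsInfVol μ β ν → ∀ M : ℝ, ClustersZ ν M →
        M ≤ C * (Real.log β / β) ^ (1 / (D - 1 : ℝ))) ∧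
      ∃ ν : Measure (LinkZ (D + 1) → G), IsInfVol μ β ν := by
  have : CompactSpace G := by
    have h1 : IsCompact (G : Set (UU N)) := hG.isCompact
    exact isCompact_iff_compactSpace.1 h1
  have h00 : SecondCountableTopology (UU N) := TopologicalSpace.Subtype.secondCountableTopology _
  have : SecondCountableTopology G := TopologicalSpace.Subtype.secondCountableTopology _
  obtain ⟨e, rfl⟩ : ∃ e, D = e + 2 := ⟨D - 2, by omega⟩
  have hN : 1 ≤ N := by
    rcases Nat.eq_zero_or_pos N with h | h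
    · subst h
      have h1 := B.orth ⟨0, hn⟩ ⟨0, hn⟩
      rw [if_pos rfl] at h1
      have h2 : trace ((B.X ⟨0, hn⟩)ᴴ * B.X ⟨0, hn⟩) = 0 := by
        unfold Matrix.trace
        exact Finset.sum_empty
      rw [h2] at h1
      norm_num at h1
    · exact h
  obtain ⟨C, c, β₀, hC, hc, hβ₀, hmain⟩ := finite_part μ B hG hn hN e (by omega)
  have hκ : ((e + 1 : ℕ) : ℝ) = ((e + 2 : ℕ) : ℝ) - 1 := by push_cast; ring
  rw [hκ] at hmain
  refine ⟨C, c, β₀, hC, hc, hβ₀, fun β hβ => ?_⟩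
  have hβ3 : 3 ≤ β := hβ₀.trans hβ
  have hβ0 : 0 < β := by linarith
  have hlog0 : 0 < Real.log β := Real.log_pos (by linarith)
  obtain ⟨R, F, hR, hF, hF0, hcorr⟩ := hmain β hβ
  have hinvr : (β / Real.log β) ^ (-(1 / (((e + 2 : ℕ) : ℝ) - 1))) =
      (Real.log β / β) ^ (1 / (((e + 2 : ℕ) : ℝ) - 1)) := by
    rw [Real.rpow_neg (by positivity), ← Real.inv_rpow (by positivity), inv_div]
  rw [hinvr] at hcorr
  obtain ⟨A, hA⟩ : ∃ A : ℝ, A = C * (Real.log β / β) ^ (1 / (((e + 2 : ℕ) : ℝ) - 1)) :=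
    ⟨_, rfl⟩
  rw [← hA] at hcorr ⊢
  have hcorr' : ∀ (l : ℕ) [NeZero l], Even l → R < l → ∀ t : ℕ, Odd t → t < l →
      c * Real.exp (-(A * t)) ≤ corr l μ β F t := by
    intro l _ hl hRl t ht htl
    obtain ⟨h1, h2⟩ := hcorr l hl hRl
    rw [mul_comm]
    exact (mul_le_mul_of_nonneg_left h1 (Real.exp_pos _).le).trans (h2 t ht htl)
  have hinf : ∀ ν : Measure (LinkZ (e + 2 + 1) → G), IsInfVol μ β ν → c ≤ corrZ ν F 0 ∧
      ∀ t : ℕ, Odd t → Real.exp (-(A * t)) * corrZ ν F 0 ≤ corrZ ν F t := by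
    intro ν hν
    obtain ⟨φ, hφ, hlim⟩ := hν.lim
    have h1 : ∀ t, Tendsto (fun j => corr (2 * (φ j + 1)) μ β F t) atTop (𝓝 (corrZ ν F t)) :=
      fun t => (hlim _ _ (local_mul hF t)).sub
        ((hlim _ _ hF).mul (hlim _ _ (local_shift hF t)))
    refine ⟨ge_of_tendsto (h1 0) ?_, fun t ht =>
      le_of_tendsto_of_tendsto ((h1 0).const_mul _) (h1 t) ?_⟩
    · filter_upwards [hφ.eventually_ge_atTop R] with j hj
      exact (hcorr (2 * (φ j + 1)) (even_two_mul _) (by omega)).1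
    · filter_upwards [hφ.eventually_ge_atTop (R + t)] with j hj
      exact (hcorr (2 * (φ j + 1)) (even_two_mul _) (by omega)).2 t ht (by omega)
  refine ⟨⟨R, F, hR, hF, hF0, hcorr, hinf⟩, fun M hM => ?_, fun ν hν M hM => ?_,
    exists_infVol μ B β⟩
  · obtain ⟨K, l₀, hK⟩ := hM R F hF hF0
    refine rate (K := K) hc fun t ht => ?_
    obtain ⟨l, hl⟩ : ∃ l, l = 2 * (l₀ + R + t + 1) := ⟨_, rfl⟩
    haveI : NeZero l := ⟨by omega⟩
    have h1 : Even l := by rw [hl]; exact even_two_mul _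
    exact (hcorr' l h1 (by omega) t ht (by omega)).trans
      ((le_abs_self _).trans (hK l h1 (by omega) t (by omega)))
  · obtain ⟨K, hK⟩ := hM R F hF hF0
    obtain ⟨h1, h2⟩ := hinf ν hν
    refine rate (K := K) hc fun t ht => ?_
    rw [mul_comm]
    exact ((mul_le_mul_of_nonneg_left h1 (Real.exp_pos _).le).trans (h2 t ht)).trans
      ((le_abs_self _).trans (hK t))

end

end Pool.Agent.U319.Wilson
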